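import Pool.Agent.Lib.MP_3974fb_lc.Liou

/-! The block lemma for multiplicatively dependent algebraic bases. -/

namespace Pool.Agent.Lib.MP_3974fb_lc

open Filter Topology Finset

open Classical in
noncomputable def rho (F : Finset ℝ) (y : ℝ) : ℝ :=
  (((F ×ˢ F).filter fun p => p.1 - p.2 = y).card : ℝ) / F.card

lemma rho_nonneg (F : Finset ℝ) (y : ℝ) : 0 ≤ rho F y := by unfold rho; positivity

lemma rho_le_one (F : Finset ℝ) (y : ℝ) : rho F y ≤ 1 := by
  classical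
  refine div_le_one_of_le₀ ?_ (Nat.cast_nonneg _)
  refine Nat.cast_le.2 (card_le_card_of_injOn Prod.fst (fun p hp => ?_) fun p hp q hq h => ?_)
  · exact (mem_product.1 (mem_filter.1 hp).1).1
  · have a := (mem_filter.1 hp).2
    have b := (mem_filter.1 hq).2
    exact Prod.ext h (by linarith)

lemma rho_neg (F : Finset ℝ) (y : ℝ) : rho F (-y) = rho F y := by
  classical
  unfold rho
  congr 2
  refine card_bij (fun p _ => p.swap) (fun p hp => ?_) (fun p _ q _ h => Prod.swap_injective h)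
    fun p hp => ⟨p.swap, ?_, rfl⟩
  · rw [mem_filter, mem_product] at hp ⊢
    exact ⟨⟨hp.1.2, hp.1.1⟩, by simp only [Prod.fst_swap, Prod.snd_swap]; linarith [hp.2]⟩
  · rw [mem_filter, mem_product] at hp ⊢
    exact ⟨⟨hp.1.2, hp.1.1⟩, by simp only [Prod.fst_swap, Prod.snd_swap]; linarith [hp.2]⟩

lemma rho_abs (F : Finset ℝ) {x y : ℝ} (h : |x| = |y|) : rho F x = rho F y := by
  rcases abs_eq_abs.1 h with rfl | rfl
  exacts [rfl, rho_neg F y]

lemma rho_zero {F : Finset ℝ} (hF : F.Nonempty) : rho F 0 = 1 := by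
  classical
  have hc : (0 : ℝ) < F.card := by exact_mod_cast hF.card_pos
  refine le_antisymm (rho_le_one F 0) ?_
  rw [rho, le_div_iff₀ hc, one_mul]
  refine Nat.cast_le.2 (card_le_card_of_injOn (fun u => (u, u)) (fun u hu => ?_)
    fun u _ v _ h => (Prod.ext_iff.1 h).1)
  simpa using hu

lemma rho_ge {F F' : Finset ℝ} (hF : F.Nonempty) {t : ℝ} (h1 : F ⊆ F') (h2 : ∀ u ∈ F, u + t ∈ F')
    (h3 : (F'.card : ℝ) ≤ 3 / 2 * F.card) : 1 / 2 ≤ rho F t := by
  classical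
  have hc : (0 : ℝ) < F.card := by exact_mod_cast hF.card_pos
  rw [rho, le_div_iff₀ hc]
  have a1 : (F.image fun u => u + t).card = F.card := card_image_of_injective _ (add_left_injective t)
  have a2 := card_union_add_card_inter F (F.image fun u => u + t)
  have a3 : (F ∪ F.image fun u => u + t).card ≤ F'.card := card_le_card (union_subset h1 (by
    intro x hx
    obtain ⟨u, hu, rfl⟩ := mem_image.1 hx
    exact h2 u hu))
  have a4 : (F ∩ F.image fun u => u + t).card ≤ ((F ×ˢ F).filter fun p => p.1 - p.2 = t).card := by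
    refine card_le_card_of_injOn (fun u => (u, u - t)) (fun u hu => ?_)
      fun u _ v _ h => (Prod.ext_iff.1 h).1
    obtain ⟨b1, b2⟩ := mem_inter.1 hu
    obtain ⟨v, hv, rfl⟩ := mem_image.1 b2
    simp [b1, hv]
  have a5 : ((F ∪ F.image fun u => u + t).card : ℝ) + (F ∩ F.image fun u => u + t).card =
      F.card + F.card := by rw [a1] at a2; exact_mod_cast a2
  have a6 : ((F ∪ F.image fun u => u + t).card : ℝ) ≤ F'.card := by exact_mod_cast a3
  have a7 : ((F ∩ F.image fun u => u + t).card : ℝ) ≤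
    ((F ×ˢ F).filter fun p => p.1 - p.2 = t).card := by exact_mod_cast a4
  linarith

noncomputable def pF (φ : ℝ → ℂ) (F : Finset ℝ) (σ x : ℝ) : ℝ :=
  (∑ u ∈ F, ∑ v ∈ F, φ (σ * (u - v)) * ee (-(σ * (u - v) * x))).re / F.card

lemma continuous_pF (φ : ℝ → ℂ) (F : Finset ℝ) (σ : ℝ) : Continuous (pF φ F σ) := by
  unfold pF; fun_prop

lemma pF_nonneg {φ : ℝ → ℂ} (hφ : PD φ) (F : Finset ℝ) (σ x : ℝ) : 0 ≤ pF φ F σ x :=
  div_nonneg (hφ.pos F σ x).1 (Nat.cast_nonneg _)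

lemma BB_pF {φ : ℝ → ℂ} (hφ : PD φ) {F : Finset ℝ} (hF : F.Nonempty) {σ G y : ℝ} (hσ : 0 < σ)
    (hG : 0 < G) (hsep : ∀ u ∈ F, ∀ v ∈ F, u ≠ v → σ * (u - v) ≠ y → σ ≤ |y - σ * (u - v)| * G)
    (c τ : ℝ) : ‖BB c τ (pF φ F σ) y - φ y * rho F (y / σ)‖ ≤
      Real.exp τ / |y| + F.card * Real.exp τ * G / σ := by
  classical
  have hc : (0 : ℝ) < F.card := by exact_mod_cast hF.card_pos
  have hc' : (F.card : ℂ) ≠ 0 := by exact_mod_cast hc.ne'
  rw [BB_trig c τ (F ×ˢ F) (fun p => φ (σ * (p.1 - p.2)) / F.card) (fun p => σ * (p.1 - p.2))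
    (fun ξ => by
      have := (hφ.pos F σ ξ).2
      rw [pF, Complex.ofReal_div, Complex.conj_eq_iff_re.1 (Complex.conj_eq_iff_im.2 this),
        sum_product, sum_div]
      refine sum_congr rfl fun u _ => ?_
      rw [sum_div]
      refine sum_congr rfl fun v _ => ?_
      push_cast; ring)]
  rw [← sum_filter_add_sum_filter_not (F ×ˢ F) (fun p => p.1 - p.2 = y / σ)]
  have e1 : ∑ p ∈ (F ×ˢ F).filter (fun p => p.1 - p.2 = y / σ),
      φ (σ * (p.1 - p.2)) / F.card * KK c τ (y - σ * (p.1 - p.2)) = φ y * rho F (y / σ) := by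
    rw [sum_congr rfl (g := fun _ => φ y / F.card) fun p hp => by
      rw [(mem_filter.1 hp).2, mul_div_cancel₀ _ hσ.ne', sub_self, KK_zero, mul_one]]
    rw [sum_const, nsmul_eq_mul, rho]
    push_cast; ring
  rw [e1, add_sub_cancel_left]
  refine (norm_sum_le _ _).trans ?_
  have he := Real.exp_pos τ
  have e2 : ∀ p ∈ (F ×ˢ F).filter (fun p => ¬ p.1 - p.2 = y / σ),
      ‖φ (σ * (p.1 - p.2)) / F.card * KK c τ (y - σ * (p.1 - p.2))‖ ≤
        (if p.1 = p.2 then Real.exp τ / |y| / F.card else 0) + Real.exp τ * G / σ / F.card := by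
    intro p hp
    obtain ⟨hp1, hp2⟩ := mem_filter.1 hp
    have hne : σ * (p.1 - p.2) ≠ y := fun h => hp2 (by rw [← h, mul_div_cancel_left₀ _ hσ.ne'])
    have h1 := norm_KK_le c τ (sub_ne_zero.2 hne.symm)
    have h2 : ‖φ (σ * (p.1 - p.2)) / F.card * KK c τ (y - σ * (p.1 - p.2))‖ ≤
        Real.exp τ / |y - σ * (p.1 - p.2)| / F.card := by
      rw [norm_mul, norm_div, Complex.norm_natCast, div_mul_eq_mul_div]
      gcongr
      exact (mul_le_of_le_one_left (norm_nonneg _) (hφ.norm_le _)).trans h1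
    refine h2.trans ?_
    split_ifs with h
    · rw [h, sub_self, mul_zero, sub_zero]
      exact le_add_of_nonneg_right (by positivity)
    · rw [zero_add]
      have h3 := hsep _ (mem_product.1 hp1).1 _ (mem_product.1 hp1).2 h hne
      have h4 : 0 < |y - σ * (p.1 - p.2)| := abs_pos.2 (sub_ne_zero.2 hne.symm)
      refine div_le_div_of_nonneg_right ?_ hc.le
      rw [div_le_div_iff₀ h4 hσ, mul_assoc, mul_comm G]
      gcongr
  refine (sum_le_sum e2).trans ((sum_le_sum_of_subset_of_nonneg (filter_subset _ _)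
    fun p _ _ => by split_ifs <;> positivity).trans (le_of_eq ?_))
  rw [sum_add_distrib, sum_product, sum_const, card_product, nsmul_eq_mul,
    sum_congr rfl (g := fun _ => Real.exp τ / |y| / F.card) fun u hu => by
      rw [sum_ite_eq]; simp [hu], sum_const, nsmul_eq_mul]
  push_cast; field_simp

lemma BB_sum {κ : Type*} (c τ a : ℝ) (T : Finset κ) {p : κ → ℝ → ℝ} (hp : ∀ k, Continuous (p k))
    (y : ℝ) : BB c τ (fun x => a * ∑ k ∈ T, p k x) y = a * ∑ k ∈ T, BB c τ (p k) y := by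
  simp only [BB]
  rw [← mul_sum, ← intervalIntegral.integral_finsetSum (fun k _ => Continuous.intervalIntegrable
    (by fun_prop) _ _), mul_left_comm, ← intervalIntegral.integral_const_mul (a : ℂ)]
  congr 2
  funext ξ
  push_cast
  rw [mul_assoc, sum_mul]

lemma shiftAvg {q : ℕ} {φ : ℕ → ℂ} {ρ : ℕ → ℕ → ℝ} {κ : ℂ} (hφ : ∀ n, ‖φ n‖ ≤ 1)
    (hρ : ∀ i n, |ρ i n| ≤ 1) (hs : ∀ i n, ρ i (n + i) = ρ 0 n)
    (hκ : ∀ n, ∑ i ∈ range q, φ (n + i) = κ) (a b : ℕ) :
    ‖∑ i ∈ range q, ∑ n ∈ Ico a b, φ n * ρ i n - κ * ∑ n ∈ Ico a b, (ρ 0 n : ℂ)‖ ≤ 2 * q ^ 2 := by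
  have e : κ * ∑ n ∈ Ico a b, (ρ 0 n : ℂ) =
      ∑ i ∈ range q, ∑ n ∈ Ico a b, φ (n + i) * ρ i (n + i) := by
    rw [sum_comm, mul_sum]
    refine sum_congr rfl fun n _ => ?_
    simp only [hs]
    rw [← sum_mul, hκ]
  rw [e, ← sum_sub_distrib]
  refine (norm_sum_le _ _).trans ((sum_le_sum (g := fun _ => 2 * (q : ℝ)) fun i hi => ?_).trans
    (le_of_eq (by simp; ring)))
  rw [sum_Ico_eq_sum_range, sum_Ico_eq_sum_range, norm_sub_rev]
  have := shift_sum (f := fun m => φ (a + m) * ρ i (a + m)) (fun m => by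
    rw [norm_mul, Complex.norm_real, Real.norm_eq_abs]
    exact mul_le_one₀ (hφ _) (abs_nonneg _) (hρ _ _)) i (b - a)
  have hi' : (i : ℝ) ≤ q := by exact_mod_cast (mem_range.1 hi).le
  simp only [add_comm i, ← add_assoc] at this
  linarith

open Classical in
noncomputable def FF (S : Finset ℝ) : ℕ → Finset ℝ
  | 0 => {0}
  | R + 1 => image₂ (· + ·) (FF S R) S

lemma exists_folner {γ : ℝ} (hγ : 1 < γ) (halg : IsAlgebraic ℚ γ) (h₀ : ℕ) :
    ∃ C₂ C₃ : ℕ, ∀ᶠ K : ℕ in atTop, ∃ F : Finset ℝ, F.Nonempty ∧ (F.card : ℝ) ≤ γ ^ (C₃ * K) ∧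
      (∀ e < K, 1 / 2 ≤ rho F (h₀ * γ ^ e)) ∧
      ∀ u ∈ F, ∀ v ∈ F, u ≠ v → ∀ (h m M : ℕ) (y : ℝ), (h : ℝ) ≤ 2 ^ K → |y| = h * γ ^ m →
        m ≤ M + K → γ ^ M * (u - v) ≠ y → γ ^ M ≤ |y - γ ^ M * (u - v)| * γ ^ (C₂ * K) := by
  classical
  obtain ⟨Z, B, D, S⟩ := exists_sizeSys halg
  obtain ⟨C₂, hC₂⟩ := S.sep hγ
  have hB := S.one_le
  obtain ⟨c₃, hc₃⟩ := pow_unbounded_of_one_lt (3 * (2 * B)) hγ
  obtain ⟨C₄, hC₄⟩ := pow_unbounded_of_one_lt (γ ^ (c₃ + C₂)) (by norm_num : (1 : ℝ) < 3 / 2)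
  refine ⟨C₂, c₃ + C₂, ?_⟩
  filter_upwards [eventually_lin_le_pow (2 * C₄ * h₀) 0 (one_lt_two (α := ℝ)),
    eventually_ge_atTop 1] with K hK hK1
  set T : Finset ℝ := insert 0 ((range K).image fun e => h₀ * γ ^ e) with hT
  have hTZ : ∀ t ∈ T, Z K h₀ t := by
    intro t ht
    rcases mem_insert.1 ht with rfl | ht
    · exact S.monoK (Nat.zero_le _) (S.mono (Nat.cast_nonneg _) S.zero)
    · obtain ⟨e, he, rfl⟩ := mem_image.1 ht
      rw [mul_comm]
      exact S.monoK (by have := mem_range.1 he; omega) (S.pow_mul e (S.nat h₀))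
  have hFZ : ∀ R, ∀ u ∈ FF T R, Z K (R * h₀) u := by
    intro R
    induction R with
    | zero =>
      intro u hu
      obtain rfl : u = 0 := by simpa [FF] using hu
      simpa using S.monoK (Nat.zero_le K) S.zero
    | succ R ih =>
      intro u hu
      obtain ⟨a, ha, b, hb, rfl⟩ := mem_image₂.1 hu
      push_cast
      rw [add_mul, one_mul]
      exact S.add (ih a ha) (hTZ b hb)
  have hFne : ∀ R, (FF T R).Nonempty := by
    intro R
    induction R with
    | zero => simp [FF]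
    | succ R ih => exact ih.image₂ (insert_nonempty _ _)
  have hsep : ∀ R ≤ C₄ * K, ∀ u ∈ FF T R, ∀ v ∈ FF T R, u ≠ v → ∀ (h m M : ℕ) (y : ℝ),
      (h : ℝ) ≤ 2 ^ K → |y| = h * γ ^ m →
        m ≤ M + K → γ ^ M * (u - v) ≠ y → γ ^ M ≤ |y - γ ^ M * (u - v)| * γ ^ (C₂ * K) := by
    intro R hR u hu v hv huv
    refine hC₂ K hK1 _ (S.mono ?_ (S.sub (hFZ R u hu) (hFZ R v hv))) (sub_ne_zero.2 huv)
    have : (R : ℝ) ≤ C₄ * K := by exact_mod_cast hR
    have : (R : ℝ) * h₀ ≤ C₄ * K * h₀ := by gcongr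
    linarith
  have hcard : ∀ R ≤ C₄ * K, ((FF T R).card : ℝ) ≤ γ ^ ((c₃ + C₂) * K) := by
    intro R hR
    have h1 : (1 : ℝ) ≤ (2 * B) ^ K := one_le_pow₀ (by linarith)
    have h2 : (1 : ℝ) ≤ γ ^ (C₂ * K) := one_le_pow₀ hγ.le
    refine (card_le_of_sep (M := (2 * B) ^ K) (G := γ ^ (C₂ * K)) (by positivity) (by positivity)
      (fun u hu => (S.upper (hFZ R u hu)).trans ?_) fun u hu v hv huv => ?_).trans ?_
    · rw [mul_pow]
      gcongr
      have : (R : ℝ) ≤ C₄ * K := by exact_mod_cast hR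
      have : (R : ℝ) * h₀ ≤ C₄ * K * h₀ := by gcongr
      have : (0 : ℝ) ≤ C₄ * K * h₀ := by positivity
      linarith
    · have := hsep R hR u hu v hv huv 0 0 0 0 (by simp) (by simp) (by omega)
        (by simpa using sub_ne_zero.2 huv)
      simpa [abs_sub_comm] using this
    · have h3 : (3 : ℝ) ≤ 3 ^ K := le_self_pow₀ (by norm_num) (by omega)
      calc 2 * (2 * B) ^ K * γ ^ (C₂ * K) + 1 ≤ 3 * (2 * B) ^ K * γ ^ (C₂ * K) := by nlinarith
        _ ≤ 3 ^ K * (2 * B) ^ K * γ ^ (C₂ * K) := by gcongr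
        _ = (3 * (2 * B)) ^ K * γ ^ (C₂ * K) := by rw [mul_pow 3]
        _ ≤ (γ ^ c₃) ^ K * γ ^ (C₂ * K) := by gcongr
        _ = _ := by rw [← pow_mul, ← pow_add, add_mul]
  obtain ⟨R, hR, hR2⟩ : ∃ R < C₄ * K, ((FF T (R + 1)).card : ℝ) ≤ 3 / 2 * (FF T R).card := by
    by_contra hcon
    push Not at hcon
    have : ∀ R ≤ C₄ * K, (3 / 2 : ℝ) ^ R ≤ (FF T R).card := by
      intro R hR
      induction R with
      | zero => simp [FF]
      | succ R ih =>
        have := ih (by omega)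
        have := hcon R (by omega)
        rw [pow_succ]; linarith
    have h1 := (this _ le_rfl).trans (hcard _ le_rfl)
    rw [pow_mul, pow_mul] at h1
    exact absurd h1 (not_le.2 (pow_lt_pow_left₀ hC₄ (by positivity) (by omega)))
  refine ⟨FF T R, hFne R, hcard R hR.le, fun e he => rho_ge (hFne R) (fun u hu => ?_)
    (fun u hu => ?_) hR2, hsep R hR.le⟩
  · exact mem_image₂.2 ⟨u, hu, 0, mem_insert_self _ _, add_zero u⟩
  · exact mem_image₂.2 ⟨u, hu, _, mem_insert_of_mem (mem_image_of_mem _ (mem_range.2 he)), rfl⟩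

lemma log_abs_eq {α γ : ℝ} {s : ℕ} (h : |α| = γ ^ s) : Real.log |α| = s * Real.log γ := by
  rw [h, Real.log_pow]

theorem blockB_alg {α β γ : ℝ} {r s : ℕ} (hγ : 1 < γ) (halg : IsAlgebraic ℚ γ) (hr : 1 ≤ r)
    (hs : 1 ≤ s) (hαγ : |α| = γ ^ s) (hβγ : |β| = γ ^ r) {φ : ℝ → ℂ} {h₀ : ℕ} {κ : ℂ} (hφ : PD φ)
    (hh₀ : 1 ≤ h₀) (hκ : κ ≠ 0) (hφα : ∀ h : ℕ, 1 ≤ h → ∀ n, ∑ i ∈ range r, φ (h * α ^ (n + i)) = 0)
    (hφβ : ∀ n, ∑ j ∈ range s, φ (h₀ * β ^ (n + j)) = κ) : BlockB α β := by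
  have hγ0 : 0 < γ := by linarith
  have hα : 1 < |α| := hαγ ▸ one_lt_pow₀ hγ (by omega)
  have hβ : 1 < |β| := hβγ ▸ one_lt_pow₀ hγ (by omega)
  have hL := Real.log_pos hγ
  have hr' : (1 : ℝ) ≤ r := by exact_mod_cast hr
  have hs' : (1 : ℝ) ≤ s := by exact_mod_cast hs
  have hκ' : 0 < ‖κ‖ := norm_pos_iff.2 hκ
  obtain ⟨C₂, C₃, hF⟩ := exists_folner hγ halg h₀
  set G₀ : ℕ := C₂ + C₃ + 1 with hG₀
  set lam : ℝ := (G₀ + 1) * r * Real.log γ with hlam
  have hlam0 : 0 < lam := by positivity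
  refine ⟨h₀, (starRingEnd ℂ) κ / ‖κ‖, ‖κ‖ / (4 * s * lam), hh₀, ?_, by positivity,
    fun H ε hε w₀ => ?_⟩
  · rw [norm_div, Complex.norm_conj, Complex.norm_real, norm_norm, div_self hκ'.ne']
  have hT : Tendsto (fun N : ℕ => r * N) atTop atTop := tendsto_id.const_mul_atTop' (by omega)
  have hcast : ∀ a : ℝ, ∀ᶠ N : ℕ in atTop, a ≤ N := fun a =>
    tendsto_natCast_atTop_atTop.eventually_ge_atTop a
  obtain ⟨K', ⟨F, hFne, hFc, hFρ, hFsep⟩, k1, k2, k3, k4, k5, k6, k7, k8⟩ :=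
    ((hT.eventually hF).and ((hT.eventually (eventually_lin_le_pow 0 H (one_lt_two (α := ℝ)))).and
    ((hT.eventually (eventually_lin_le_pow 0 h₀ (one_lt_two (α := ℝ)))).and
    ((hT.eventually (eventually_lin_le_pow (G₀ + 1) 2 hγ)).and ((hcast (w₀ / lam)).and
    ((hcast ((2 * r + CC α + 1) / (ε * lam))).and
    ((hcast ((‖κ‖ * (s + 1) / (2 * s) + 2 * s + CC β + 1) / (‖κ‖ / (4 * s)))).and
    ((eventually_ge_atTop (s + 1)).and (eventually_ge_atTop 1))))))))).exists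
  set K := r * K' with hK
  set w : ℝ := K' * lam with hw
  have hwK : w = ((G₀ * K + K : ℕ) : ℝ) * Real.log γ := by rw [hw, hlam, hK]; push_cast; ring
  have hw0 : 0 ≤ w := by positivity
  rw [zero_mul, zero_add] at k1 k2
  refine ⟨w, by rwa [div_le_iff₀ hlam0] at k4, fun c τ hτ => ?_⟩
  set M₀ : ℕ := ⌈τ / Real.log γ⌉₊ with hM₀
  set M : ℕ := M₀ + G₀ * K with hM
  have hM₀1 : Real.exp τ ≤ γ ^ M₀ := by
    have := (NN_le (γ := γ) (by rwa [abs_of_pos hγ0]) (τ := τ) (n := M₀)).1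
      (by rw [NN, abs_of_pos hγ0])
    rwa [abs_of_pos hγ0] at this
  have hM₀2 : γ ^ M₀ < Real.exp τ * γ := by
    have h1 := Nat.ceil_lt_add_one (div_nonneg hτ hL.le)
    rw [← Real.exp_log (pow_pos hγ0 M₀), Real.log_pow]
    conv_rhs => rw [← Real.exp_log hγ0, ← Real.exp_add]
    rw [Real.exp_lt_exp, ← lt_div_iff₀ hL, add_div, div_self hL.ne']
    exact h1
  have hew : Real.exp (τ + w) = Real.exp τ * γ ^ (G₀ * K + K) := by
    rw [Real.exp_add, hwK, ← Real.log_pow, Real.exp_log (pow_pos hγ0 _)]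
  set σ : ℕ × ℕ → ℝ := fun k => γ ^ (M + s * k.1 + r * k.2) with hσ
  have hσ0 : ∀ k, 0 < σ k := fun k => pow_pos hγ0 _
  set E : ℝ := (γ ^ K)⁻¹ with hE
  -- one term
  have hone : ∀ (k : ℕ × ℕ) (h m : ℕ) (y : ℝ), (h : ℝ) ≤ 2 ^ K → |y| = h * γ ^ m → m ≤ M + K →
      ‖BB c τ (pF φ F (σ k)) y - φ y * rho F (y / σ k)‖ ≤ Real.exp τ / |y| + E := by
    intro k h m y h1 h2 h3
    refine (BB_pF hφ hFne (hσ0 k) (G := γ ^ (C₂ * K)) (by positivity)
      (fun u hu v hv huv hne => hFsep u hu v hv huv h m _ y h1 h2 (by omega) hne) c τ).trans ?_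
    gcongr
    rw [div_le_iff₀ (hσ0 k), hE, inv_mul_eq_div, le_div_iff₀ (by positivity)]
    calc F.card * Real.exp τ * γ ^ (C₂ * K) * γ ^ K
        ≤ γ ^ (C₃ * K) * γ ^ M₀ * γ ^ (C₂ * K) * γ ^ K := by gcongr
      _ = γ ^ M := by
        rw [← pow_add, ← pow_add, ← pow_add]; congr 1; rw [hM, hG₀]; ring
      _ ≤ _ := pow_le_pow_right₀ hγ.le (by omega)
  set T : Finset (ℕ × ℕ) := range r ×ˢ range s with hTdef
  set a : ℝ := ((r : ℝ) * s)⁻¹ with ha
  have ha0 : 0 < a := by positivity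
  have haT : a * T.card = 1 := by
    rw [hTdef, card_product, card_range, card_range, ha]; push_cast; field_simp
  have hall : ∀ (h m : ℕ) (y : ℝ), (h : ℝ) ≤ 2 ^ K → |y| = h * γ ^ m → m ≤ M + K →
      ‖BB c τ (fun x => a * ∑ k ∈ T, pF φ F (σ k) x) y -
        a * ∑ k ∈ T, φ y * rho F (y / σ k)‖ ≤ Real.exp τ / |y| + E := by
    intro h m y h1 h2 h3
    rw [BB_sum c τ a T (fun k => continuous_pF φ F (σ k)), ← mul_sub, ← sum_sub_distrib, norm_mul,
      Complex.norm_real, Real.norm_eq_abs, abs_of_pos ha0]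
    calc _ ≤ a * ∑ k ∈ T, (Real.exp τ / |y| + E) := by
          gcongr
          exact (norm_sum_le _ _).trans (sum_le_sum fun k _ => hone k h m y h1 h2 h3)
      _ = _ := by rw [sum_const, nsmul_eq_mul, ← mul_assoc, haT, one_mul]
  have hγK : 0 < γ ^ K := pow_pos hγ0 _
  have hK0 : (0 : ℝ) ≤ (G₀ + 1) * K := by positivity
  have hwin : ∀ {θ : ℝ} {q : ℕ}, 1 ≤ q → |θ| = γ ^ q → ∀ h : ℕ, 1 ≤ h → (h : ℝ) ≤ 2 ^ K →
      ‖∑ n ∈ win θ τ w, BB c τ (fun x => a * ∑ k ∈ T, pF φ F (σ k) x) (h * θ ^ n) -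
        a * ∑ k ∈ T, ∑ n ∈ win θ τ w, φ (h * θ ^ n) * rho F (h * θ ^ n / σ k)‖ ≤ CC θ + 1 := by
    intro θ q hq hθγ h hh hh2
    have hθ : 1 < |θ| := hθγ ▸ one_lt_pow₀ hγ (by omega)
    rw [sum_comm, mul_sum, ← sum_sub_distrib]
    refine (norm_sum_le _ _).trans ((sum_le_sum fun n hn => hall h (q * n) _ hh2
      (by rw [abs_mul, abs_pow, hθγ, Nat.abs_cast, pow_mul]) ?_).trans ?_)
    · have h1 := (lt_NN hθ).1 (mem_Ico.1 hn).2
      rw [hew, hθγ, ← pow_mul] at h1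
      have h2 : γ ^ (q * n) < γ ^ (M + K) := by
        calc _ < _ := h1
          _ ≤ γ ^ M₀ * γ ^ (G₀ * K + K) := by gcongr
          _ = _ := by rw [← pow_add, hM, add_assoc]
      exact ((pow_lt_pow_iff_right₀ hγ).1 h2).le
    · rw [sum_add_distrib, sum_const, nsmul_eq_mul]
      refine add_le_add (sum_win_inv hθ hh τ w) ?_
      have h1 := card_win hθ hτ (by linarith : τ ≤ τ + w)
      have hq' : (1 : ℝ) ≤ q := by exact_mod_cast hq
      have e : (τ + w - τ) / Real.log |θ| = ((G₀ * K + K : ℕ) : ℝ) / q := by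
        rw [add_sub_cancel_left, log_abs_eq hθγ, hwK, mul_div_mul_right _ _ hL.ne']
      rw [e] at h1
      rw [hE, ← div_eq_mul_inv, div_le_one hγK]
      refine h1.trans (le_trans ?_ k3)
      have : ((G₀ * K + K : ℕ) : ℝ) / q ≤ (G₀ * K + K : ℕ) := div_le_self (Nat.cast_nonneg _) hq'
      push_cast at this ⊢
      linarith
  have habsρ : ∀ y, |rho F y| ≤ 1 := fun y => by
    rw [abs_of_nonneg (rho_nonneg F y)]; exact rho_le_one F y
  refine ⟨fun x => a * ∑ k ∈ T, pF φ F (σ k) x, ?_, fun x => mul_nonneg ha0.le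
    (sum_nonneg fun k _ => pF_nonneg hφ F _ x), ?_, fun h hh hH => ?_, ?_⟩
  · exact continuous_const.mul (continuous_finsetSum _ fun k _ => continuous_pF φ F _)
  · have := hall 0 0 0 (by simp) (by simp) (by omega)
    simp only [zero_div, rho_zero hFne, hφ.zero, Complex.ofReal_one, mul_one, sum_const,
      nsmul_eq_mul, abs_zero, div_zero, zero_add] at this
    have e : (a : ℂ) * (T.card : ℂ) = 1 := by exact_mod_cast haT
    rw [e] at this
    refine this.trans ?_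
    rw [hE, inv_eq_one_div]
    gcongr; linarith
  · have h1 := hwin hs hαγ h hh (le_trans (by exact_mod_cast hH) k1)
    have h2 : ‖(a : ℂ) * ∑ k ∈ T, ∑ n ∈ win α τ w, φ (h * α ^ n) * rho F (h * α ^ n / σ k)‖ ≤
        2 * r := by
      rw [norm_mul, Complex.norm_real, Real.norm_eq_abs, abs_of_pos ha0, hTdef, sum_product_right]
      calc _ ≤ a * ∑ j ∈ range s, 2 * (r : ℝ) ^ 2 := by
            gcongr
            refine (norm_sum_le _ _).trans (sum_le_sum fun j _ => ?_)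
            have := shiftAvg (q := r) (φ := fun n => φ (h * α ^ n))
              (ρ := fun i n => rho F (h * α ^ n / σ (i, j))) (κ := 0) (fun n => hφ.norm_le _)
              (fun i n => habsρ _) (fun i n => rho_abs F (by
                simp only [hσ, abs_div, abs_mul, abs_pow, hαγ, abs_of_pos hγ0, pow_add, pow_mul,
                  mul_zero, pow_zero, abs_one]
                field_simp)) (hφα h hh) (NN α τ) (NN α (τ + w))
            rwa [zero_mul, sub_zero] at this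
        _ = _ := by rw [sum_const, card_range, nsmul_eq_mul, ha]; field_simp
    rw [div_le_iff₀ (by positivity)] at k5
    have := norm_le_norm_sub_add (∑ n ∈ win α τ w,
      BB c τ (fun x => a * ∑ k ∈ T, pF φ F (σ k) x) (h * α ^ n))
      ((a : ℂ) * ∑ k ∈ T, ∑ n ∈ win α τ w, φ (h * α ^ n) * rho F (h * α ^ n / σ k))
    have e : ε * w = K' * (ε * lam) := by rw [hw]; ring
    linarith
  · have h1 := hwin hr hβγ h₀ hh₀ k2
    set R : ℕ → ℝ := fun i => ∑ n ∈ win β τ w, rho F (h₀ * β ^ n / σ (i, 0)) with hR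
    have h2 : ‖(a : ℂ) * ∑ k ∈ T, ∑ n ∈ win β τ w, φ (h₀ * β ^ n) * rho F (h₀ * β ^ n / σ k) -
        κ * (a * ∑ i ∈ range r, R i : ℝ)‖ ≤ 2 * s := by
      push_cast
      rw [mul_left_comm, ← mul_sub, mul_sum, norm_mul, Complex.norm_real, Real.norm_eq_abs,
        abs_of_pos ha0, hTdef, sum_product, ← sum_sub_distrib]
      calc _ ≤ a * ∑ i ∈ range r, 2 * (s : ℝ) ^ 2 := by
            gcongr
            refine (norm_sum_le _ _).trans (sum_le_sum fun i _ => ?_)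
            have := shiftAvg (q := s) (φ := fun n => φ (h₀ * β ^ n))
              (ρ := fun j n => rho F (h₀ * β ^ n / σ (i, j))) (κ := κ) (fun n => hφ.norm_le _)
              (fun i n => habsρ _) (fun i n => rho_abs F (by
                simp only [hσ, abs_div, abs_mul, abs_pow, hβγ, abs_of_pos hγ0, pow_add, pow_mul,
                  mul_zero, pow_zero, abs_one]
                field_simp)) hφβ (NN β τ) (NN β (τ + w))
            rw [hR]
            push_cast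
            exact this
        _ = _ := by rw [sum_const, card_range, nsmul_eq_mul, ha]; field_simp
    have h3 : ∀ i ∈ range r, ((K' : ℝ) - (s + 1)) / 2 ≤ R i := by
      intro i hi
      rw [mem_range] at hi
      have hsi : s * i ≤ r * s := by rw [mul_comm r]; exact Nat.mul_le_mul_left _ hi.le
      have hd1 := Nat.div_add_mod M r
      have hd2 := Nat.mod_lt M (show 0 < r by omega)
      have hn : ∀ n ∈ Ico (M / r + s + 1) (M / r + K'), M + s * i ≤ r * n ∧ r * n + 1 ≤ M + K := by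
        intro n hn
        obtain ⟨b1, b2⟩ := mem_Ico.1 hn
        have b3 := Nat.mul_le_mul_left r b1
        have b4 := Nat.mul_le_mul_left r (Nat.succ_le_of_lt b2)
        simp only [Nat.succ_eq_add_one, mul_add, mul_one] at b3 b4
        constructor <;> omega
      have hsub : Ico (M / r + s + 1) (M / r + K') ⊆ win β τ w := by
        intro n hn'
        obtain ⟨b1, b2⟩ := hn n hn'
        refine mem_Ico.2 ⟨(NN_le hβ).2 ?_, (lt_NN hβ).2 ?_⟩
        · rw [hβγ, ← pow_mul]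
          exact hM₀1.trans (pow_le_pow_right₀ hγ.le (by omega))
        · rw [hβγ, ← pow_mul, hew]
          refine lt_of_mul_lt_mul_right ?_ hγ0.le
          calc γ ^ (r * n) * γ = γ ^ (r * n + 1) := (pow_succ _ _).symm
            _ ≤ γ ^ (M₀ + (G₀ * K + K)) := pow_le_pow_right₀ hγ.le (by omega)
            _ = γ ^ M₀ * γ ^ (G₀ * K + K) := pow_add _ _ _
            _ < Real.exp τ * γ * γ ^ (G₀ * K + K) := by gcongr
            _ = _ := by ring
      refine le_trans ?_ (sum_le_sum_of_subset_of_nonneg hsub fun _ _ _ => rho_nonneg _ _)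
      refine le_trans (le_of_eq ?_) (sum_le_sum (f := fun _ => (1 / 2 : ℝ)) fun n hn' => ?_)
      · rw [sum_const, Nat.card_Ico, nsmul_eq_mul,
          show M / r + K' - (M / r + s + 1) = K' - (s + 1) by omega, Nat.cast_sub k7]
        push_cast; ring
      · obtain ⟨b1, b2⟩ := hn n hn'
        refine (hFρ (r * n - (M + s * i)) (by omega)).trans (le_of_eq (rho_abs F ?_))
        simp only [hσ, abs_div, abs_mul, abs_pow, hβγ, abs_of_pos hγ0, mul_zero, add_zero]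
        rw [← pow_mul, pow_sub₀ _ hγ0.ne' b1]; ring
    have h4 : ((K' : ℝ) - (s + 1)) / (2 * s) ≤ a * ∑ i ∈ range r, R i := by
      refine le_trans (le_of_eq ?_) (mul_le_mul_of_nonneg_left (sum_le_sum h3) ha0.le)
      rw [sum_const, card_range, nsmul_eq_mul, ha]; field_simp
    set X := ∑ n ∈ win β τ w, BB c τ (fun x => a * ∑ k ∈ T, pF φ F (σ k) x) (h₀ * β ^ n) with hX
    set Y : ℝ := a * ∑ i ∈ range r, R i with hY
    have h5 : ‖X - κ * Y‖ ≤ CC β + 1 + 2 * s :=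
      (norm_sub_le_norm_sub_add_norm_sub _ _ _).trans (add_le_add h1 h2)
    have hω : ‖(starRingEnd ℂ) κ / ‖κ‖‖ ≤ 1 := by
      rw [norm_div, Complex.norm_conj, Complex.norm_real, norm_norm, div_self hκ'.ne']
    have h6 := (abs_le.1 ((abs_re_le hω).trans h5)).1
    have h7 : (starRingEnd ℂ) κ / ‖κ‖ * (κ * Y) = ((‖κ‖ * Y : ℝ) : ℂ) := by
      have : ((‖κ‖ : ℝ) : ℂ) ≠ 0 := by exact_mod_cast hκ'.ne'
      rw [← mul_assoc, div_mul_eq_mul_div, Complex.conj_mul', Complex.ofReal_mul ‖κ‖]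
      field_simp
    rw [mul_sub, Complex.sub_re, h7, Complex.ofReal_re] at h6
    rw [div_le_iff₀ (by positivity)] at k6
    have h8 : ‖κ‖ * ((K' - (s + 1)) / (2 * s)) ≤ ‖κ‖ * Y := by gcongr
    have e1 : ‖κ‖ / (4 * s * lam) * w = K' * (‖κ‖ / (4 * s)) := by rw [hw]; field_simp
    have e2 : ‖κ‖ * ((K' - (s + 1)) / (2 * s)) =
        2 * (K' * (‖κ‖ / (4 * s))) - ‖κ‖ * (s + 1) / (2 * s) := by field_simp; ring
    linarith

end Pool.Agent.Lib.MP_3974fb_lc
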