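import Pool.Agent.Lib.MP_3974fb_lc.Blackwell

/-! Averages over an interval; from one block to a whole phase. -/

namespace Pool.Agent.Lib.MP_3974fb_lc

open Filter Topology Finset

noncomputable def BB (c τ : ℝ) (p : ℝ → ℝ) (y : ℝ) : ℂ :=
  (Real.exp τ : ℂ) * ∫ ξ in c..(c + Real.exp (-τ)), (p ξ : ℂ) * ee (y * ξ)

noncomputable def KK (c τ y : ℝ) : ℂ := BB c τ (fun _ => 1) y

noncomputable def win (γ τ w : ℝ) : Finset ℕ := Ico (NN γ τ) (NN γ (τ + w))

lemma KK_zero (c τ : ℝ) : KK c τ 0 = 1 := by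
  simp only [KK, BB, Complex.ofReal_one, zero_mul, ee_zero, mul_one,
    intervalIntegral.integral_const, add_sub_cancel_left, Complex.real_smul]
  rw [← Complex.ofReal_mul, ← Real.exp_add]; simp

lemma norm_KK_le_one (c τ y : ℝ) : ‖KK c τ y‖ ≤ 1 := by
  have := intervalIntegral.norm_integral_le_of_norm_le_const (a := c) (b := c + Real.exp (-τ))
    (f := fun ξ => ((1 : ℝ) : ℂ) * ee (y * ξ)) (C := 1) (fun t _ => by simp)
  rw [KK, BB, norm_mul, Complex.norm_real, Real.norm_eq_abs, abs_of_pos (Real.exp_pos _)]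
  rw [add_sub_cancel_left, one_mul, abs_of_pos (Real.exp_pos _)] at this
  calc _ ≤ Real.exp τ * Real.exp (-τ) := by gcongr
    _ = 1 := by rw [← Real.exp_add]; simp

lemma norm_KK_le (c τ : ℝ) {y : ℝ} (hy : y ≠ 0) : ‖KK c τ y‖ ≤ Real.exp τ / |y| := by
  rw [KK, BB, norm_mul, Complex.norm_real, Real.norm_eq_abs, abs_of_pos (Real.exp_pos _)]
  simp only [Complex.ofReal_one, one_mul]
  rw [integral_ee_mul _ _ _ hy, norm_div, div_eq_mul_inv (Real.exp τ)]
  gcongr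
  have h1 : ‖ee (y * (c + Real.exp (-τ))) - ee (y * c)‖ ≤ 2 := by
    refine (norm_sub_le _ _).trans ?_; simp only [norm_ee]; norm_num
  have h2 : ‖(2 * Real.pi * y * Complex.I : ℂ)‖ = 2 * Real.pi * |y| := by
    simp [abs_of_pos Real.pi_pos]
  have h3 : 0 < |y| := abs_pos.2 hy
  rw [h2, div_le_iff₀ (by positivity)]
  have : |y|⁻¹ * (2 * Real.pi * |y|) = 2 * Real.pi := by field_simp
  rw [this]; linarith [Real.pi_gt_three]

lemma BB_trig {κ : Type*} (c τ : ℝ) {p : ℝ → ℝ} (T : Finset κ) (a : κ → ℂ) (t : κ → ℝ)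
    (hp : ∀ ξ, (p ξ : ℂ) = ∑ k ∈ T, a k * ee (-(t k * ξ))) (y : ℝ) :
    BB c τ p y = ∑ k ∈ T, a k * KK c τ (y - t k) := by
  simp only [KK, BB, hp, Complex.ofReal_one, one_mul, sum_mul]
  rw [intervalIntegral.integral_finsetSum (fun k _ => Continuous.intervalIntegrable
    (by fun_prop) _ _), mul_sum]
  refine sum_congr rfl fun k _ => ?_
  rw [mul_left_comm]
  congr 1
  rw [← intervalIntegral.integral_const_mul]
  congr 1
  funext ξ
  rw [mul_assoc, ← ee_add]; congr 2; ring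

lemma re_sum_BB (c τ : ℝ) {p : ℝ → ℝ} (hp : Continuous p) (ω : ℂ) (S : Finset ℕ) (y : ℕ → ℝ) :
    (ω * ∑ n ∈ S, BB c τ p (y n)).re =
      Real.exp τ * ∫ ξ in c..(c + Real.exp (-τ)), p ξ * (ω * ∑ n ∈ S, ee (y n * ξ)).re := by
  have h1 : ω * ∑ n ∈ S, BB c τ p (y n) = (Real.exp τ : ℂ) *
      ∫ ξ in c..(c + Real.exp (-τ)), (p ξ : ℂ) * (ω * ∑ n ∈ S, ee (y n * ξ)) := by
    simp only [BB]
    rw [← mul_sum, ← intervalIntegral.integral_finsetSum (fun k _ => Continuous.intervalIntegrable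
      (by fun_prop) _ _), mul_left_comm, ← intervalIntegral.integral_const_mul]
    congr 2
    funext ξ
    rw [← mul_sum]; ring
  rw [h1, Complex.re_ofReal_mul]
  congr 1
  have := Complex.reCLM.intervalIntegral_comp_comm (μ := MeasureTheory.volume) (a := c)
    (b := c + Real.exp (-τ)) (f := fun ξ => (p ξ : ℂ) * (ω * ∑ n ∈ S, ee (y n * ξ)))
    (Continuous.intervalIntegrable (by fun_prop) _ _)
  simp only [Complex.reCLM_apply, Complex.re_ofReal_mul] at this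
  exact this.symm

lemma re_BB_zero (c τ : ℝ) (p : ℝ → ℝ) :
    (BB c τ p 0).re = Real.exp τ * ∫ ξ in c..(c + Real.exp (-τ)), p ξ := by
  simp only [BB, zero_mul, ee_zero, mul_one]
  rw [intervalIntegral.integral_ofReal, Complex.re_ofReal_mul, Complex.ofReal_re]

lemma choose_point {ι : Type} [Fintype ι] (γ : ι → ℝ) (hγ : ∀ i, 1 < |γ i|) (h : ι → ℕ)
    (ω : ι → ℂ) (A : ι → ℝ) {c τ w : ℝ} (hw : 0 ≤ w) {p : ℝ → ℝ} (hp : Continuous p)
    (hp0 : ∀ x, 0 ≤ p x) (h1 : 0 < (BB c τ p 0).re)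
    (h2 : ∀ i, A i * (BB c τ p 0).re ≤
      (ω i * ∑ n ∈ win (γ i) τ w, BB c τ p (h i * γ i ^ n)).re)
    (V : ι → ℝ) (hV : ∀ i, 0 ≤ V i) :
    ∃ ξ ∈ II c τ, 0 ≤ ∑ i, V i *
      ((ω i * (SS (γ i) (h i) ξ (τ + w) - SS (γ i) (h i) ξ τ)).re - A i) := by
  set X : ι → ℝ → ℝ := fun i ξ => (ω i * ∑ n ∈ win (γ i) τ w, ee (h i * γ i ^ n * ξ)).re with hX
  have hXc : ∀ i, Continuous (X i) := fun i => by rw [hX]; fun_prop
  set g : ℝ → ℝ := fun ξ => ∑ i, V i * (X i ξ - A i) with hg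
  have hgc : Continuous g := by rw [hg]; fun_prop
  obtain ⟨ξ, hξ, hmax⟩ := (isCompact_Icc (a := c) (b := c + Real.exp (-τ))).exists_isMaxOn
    ⟨c, mem_II_self c τ⟩ hgc.continuousOn
  refine ⟨ξ, hξ, ?_⟩
  have e : ∀ i, SS (γ i) (h i) ξ (τ + w) - SS (γ i) (h i) ξ τ =
      ∑ n ∈ win (γ i) τ w, ee (h i * γ i ^ n * ξ) := fun i => SS_sub (hγ i) _ _ (by linarith)
  simp only [e]
  change 0 ≤ g ξ
  by_contra hneg
  rw [not_le] at hneg
  have hle : c ≤ c + Real.exp (-τ) := by linarith [Real.exp_pos (-τ)]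
  have a1 : ∫ z in c..(c + Real.exp (-τ)), p z * g z ≤ ∫ z in c..(c + Real.exp (-τ)), p z * g ξ :=
    intervalIntegral.integral_mono_on hle (Continuous.intervalIntegrable (by fun_prop) _ _)
      (Continuous.intervalIntegrable (by fun_prop) _ _)
      fun z hz => mul_le_mul_of_nonneg_left (hmax hz) (hp0 z)
  rw [intervalIntegral.integral_mul_const] at a1
  have a2 : ∫ z in c..(c + Real.exp (-τ)), p z * g z =
      ∑ i, V i * ((∫ z in c..(c + Real.exp (-τ)), p z * X i z) -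
        A i * ∫ z in c..(c + Real.exp (-τ)), p z) := by
    simp only [hg, mul_sum]
    rw [intervalIntegral.integral_finsetSum (fun k _ => Continuous.intervalIntegrable
      (by fun_prop) _ _)]
    refine sum_congr rfl fun i _ => ?_
    rw [← intervalIntegral.integral_const_mul, ← intervalIntegral.integral_sub
      (Continuous.intervalIntegrable (by fun_prop) _ _)
      (Continuous.intervalIntegrable (by fun_prop) _ _), ← intervalIntegral.integral_const_mul]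
    congr 1; funext z; ring
  have he := Real.exp_pos τ
  rw [re_BB_zero] at h1
  have a3 : 0 ≤ ∑ i, V i * ((∫ z in c..(c + Real.exp (-τ)), p z * X i z) -
      A i * ∫ z in c..(c + Real.exp (-τ)), p z) := by
    refine sum_nonneg fun i _ => mul_nonneg (hV i) (sub_nonneg.2 ?_)
    have := h2 i
    rw [re_sum_BB c τ hp, re_BB_zero, mul_left_comm] at this
    exact le_of_mul_le_mul_left this he
  have a4 := pos_of_mul_pos_right h1 he.le
  have := mul_neg_of_pos_of_neg a4 hneg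
  linarith

noncomputable def w4 : Fin 4 → ℂ := ![1, -1, Complex.I, -Complex.I]

lemma norm_w4 (k : Fin 4) : ‖w4 k‖ ≤ 1 := by fin_cases k <;> simp [w4]

lemma norm_le_of_w4 {z : ℂ} {A : ℝ} (h : ∀ k, -A ≤ (w4 k * z).re) : ‖z‖ ≤ 2 * A := by
  have h0 := h 0; have h1 := h 1; have h2 := h 2; have h3 := h 3
  simp [w4] at h0 h1 h2 h3
  refine (Complex.norm_le_abs_re_add_abs_im z).trans ?_
  have : |z.re| ≤ A := abs_le.2 ⟨h0, h1⟩
  have : |z.im| ≤ A := abs_le.2 ⟨h3, h2⟩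
  linarith

lemma sum_win_inv {γ : ℝ} (hγ : 1 < |γ|) {h : ℕ} (hh : 1 ≤ h) (τ w : ℝ) :
    ∑ n ∈ win γ τ w, Real.exp τ / |h * γ ^ n| ≤ CC γ := by
  refine le_trans (sum_le_sum fun n _ => ?_) (geom_above hγ τ _)
  have : (1 : ℝ) ≤ h := by exact_mod_cast hh
  have hp : 0 < |γ| ^ n := pow_pos (by linarith) _
  rw [abs_mul, abs_pow, Nat.abs_cast]
  gcongr
  nlinarith

lemma freq_ne_zero {γ : ℝ} (hγ : 1 < |γ|) {h : ℕ} (hh : 1 ≤ h) (n : ℕ) : (h : ℝ) * γ ^ n ≠ 0 := by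
  have : (h : ℝ) ≠ 0 := by exact_mod_cast (by omega : h ≠ 0)
  have : γ ≠ 0 := by rintro rfl; norm_num at hγ
  positivity

theorem phaseG {α β : ℝ} (hα : 1 < |α|) (hβ : 1 < |β|) : PhaseG α β := by
  intro H ε hε
  have hγ : ∀ i : Bool × Fin H × Fin 4, 1 < |if i.1 then α else β| := fun i => by
    split_ifs <;> assumption
  obtain ⟨C, hC0, hC⟩ := blackwell (ι := Bool × Fin H × Fin 4) (fun i => if i.1 then α else β) hγ
    (fun i => i.2.1 + 1) (fun i => w4 i.2.2) (fun i => norm_w4 _) (fun _ => -(ε / 8)) (by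
      intro w₀
      refine ⟨max w₀ (8 * (CC α + CC β) / ε), le_max_left _ _, fun c τ _ V hV => ?_⟩
      have h1 := CC_pos hα
      have h2 := CC_pos hβ
      have h3 := le_max_right w₀ (8 * (CC α + CC β) / ε)
      refine choose_point _ hγ _ _ _ (le_trans (by positivity) h3) (p := fun _ => 1)
        continuous_const (fun _ => zero_le_one) ?_ (fun i => ?_) V hV
      · change 0 < (KK c τ 0).re
        rw [KK_zero]; simp
      · change _ * (KK c τ 0).re ≤ _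
        rw [KK_zero, Complex.one_re, mul_one]
        refine le_trans ?_ (abs_le.1 ((abs_re_le (norm_w4 _)).trans ((norm_sum_le _ _).trans
          ((sum_le_sum fun n _ => norm_KK_le c τ (freq_ne_zero (hγ i) (by omega) n)).trans
          (sum_win_inv (hγ i) (by omega) τ _))))).1
        rw [div_le_iff₀ hε] at h3
        split_ifs <;> nlinarith) (η := ε / 8) (by positivity)
  refine ⟨4 * C / ε, fun c τ τ₁ hτ => ?_⟩
  have hτ0 : 0 ≤ τ := le_trans (by positivity) hτ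
  obtain ⟨c', τ', h1, -, h3, h4, h5⟩ := hC c τ (max 0 (τ₁ - τ + C)) hτ0 (le_max_left _ _)
  refine ⟨c', τ', h3, by linarith [le_max_right 0 (τ₁ - τ + C)], h4, fun ξ hξ => ?_⟩
  have key : ∀ b : Bool, Ctl (if b then α else β) H ε ξ τ τ' := by
    intro b h hh hH t ht1 ht2
    have := norm_le_of_w4 (A := ε / 4 * (t - τ) + C)
      (z := SS (if b then α else β) h ξ t - SS (if b then α else β) h ξ τ) fun k => by
        have := h5 ξ hξ (b, ⟨h - 1, by omega⟩, k) t ht1 ht2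
        simp only [Nat.sub_add_cancel hh] at this
        linarith
    rw [div_le_iff₀ hε] at hτ
    nlinarith
  exact ⟨key true, key false⟩

def Blk (α β : ℝ) (h₀ : ℕ) (ω : ℂ) (δ : ℝ) (H : ℕ) (ε w : ℝ) : Prop :=
  ∀ c τ : ℝ, 0 ≤ τ → ∃ p : ℝ → ℝ, Continuous p ∧ (∀ x, 0 ≤ p x) ∧ ‖BB c τ p 0 - 1‖ ≤ 1 / 2 ∧
    (∀ h : ℕ, 1 ≤ h → h ≤ H → ‖∑ n ∈ win α τ w, BB c τ p (h * α ^ n)‖ ≤ ε * w) ∧
    δ * w ≤ (ω * ∑ n ∈ win β τ w, BB c τ p (h₀ * β ^ n)).re

def BlockB (α β : ℝ) : Prop :=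
  ∃ (h₀ : ℕ) (ω : ℂ) (δ : ℝ), 1 ≤ h₀ ∧ ‖ω‖ ≤ 1 ∧ 0 < δ ∧
    ∀ (H : ℕ) (ε : ℝ), 0 < ε → ∀ w₀ : ℝ, ∃ w, w₀ ≤ w ∧ Blk α β h₀ ω δ H ε w

theorem phaseB {α β : ℝ} (hα : 1 < |α|) (hβ : 1 < |β|) (hB : BlockB α β) : PhaseB α β := by
  obtain ⟨h₀, ω, δ, hh₀, hω, hδ, hB⟩ := hB
  refine ⟨h₀, δ / 6, hh₀, by positivity, fun H ε hε => ?_⟩
  have hγ : ∀ i : Option (Fin H × Fin 4), 1 < |i.elim β fun _ => α| := fun i => by
    cases i <;> assumption
  obtain ⟨C, hC0, hC⟩ := blackwell (ι := Option (Fin H × Fin 4)) (fun i => i.elim β fun _ => α) hγ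
    (fun i => i.elim h₀ fun j => j.1 + 1) (fun i => i.elim ω fun j => w4 j.2)
    (fun i => by cases i; exacts [hω, norm_w4 _]) (fun i => i.elim (2 * δ / 3) fun _ => -(ε / 8))
    (by
      intro w₀
      obtain ⟨w, hw, hblk⟩ := hB H (ε / 16) (by positivity) (max w₀ 0)
      have hw0 : 0 ≤ w := (le_max_right _ _).trans hw
      refine ⟨w, (le_max_left _ _).trans hw, fun c τ hτ V hV => ?_⟩
      obtain ⟨p, hp, hp0, h1, h2, h3⟩ := hblk c τ hτ
      have h4 := abs_le.1 ((Complex.abs_re_le_norm _).trans h1)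
      rw [Complex.sub_re, Complex.one_re] at h4
      refine choose_point _ hγ _ _ _ hw0 hp hp0 (by linarith) (fun i => ?_) V hV
      cases i with
      | none =>
        refine le_trans ?_ h3
        have : 0 ≤ δ * w := by positivity
        simp only [Option.elim_none]
        nlinarith
      | some j =>
        refine le_trans ?_ (abs_le.1 ((abs_re_le (norm_w4 _)).trans
          (h2 (j.1 + 1) (by omega) (by omega)))).1
        have : 0 ≤ ε * w := by positivity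
        simp only [Option.elim_some]
        nlinarith) (η := min (ε / 8) (δ / 3)) (by positivity)
  refine ⟨max (4 * C / ε) (max (C / ε) (6 * (δ / 3 * C + C) / (δ * ε))), fun c τ θ hτ hθ => ?_⟩
  simp only [max_le_iff] at hτ
  obtain ⟨t1, t2, t3⟩ := hτ
  have hτ0 : 0 ≤ τ := le_trans (by positivity) t1
  have hθ0 : 0 < θ := hε.trans_le hθ
  obtain ⟨c', τ', h1, h2, h3, h4, h5⟩ := hC c τ (θ * τ) hτ0 (by positivity)
  have m1 := min_le_left (ε / 8) (δ / 3)
  have m2 := min_le_right (ε / 8) (δ / 3)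
  refine ⟨c', τ', h3, by linarith, h4, fun ξ hξ => ⟨fun h hh hH t ht1 ht2 => ?_, ?_⟩⟩
  · have := norm_le_of_w4 (A := ε / 4 * (t - τ) + C) (z := SS α h ξ t - SS α h ξ τ) fun k => by
      have := h5 ξ hξ (some (⟨h - 1, by omega⟩, k)) t ht1 ht2
      simp only [Option.elim_some, Nat.sub_add_cancel hh] at this
      nlinarith
    rw [div_le_iff₀ hε] at t1
    nlinarith
  · have a := h5 ξ hξ none τ' h3 le_rfl
    simp only [Option.elim_none] at a
    refine le_trans ?_ ((a.trans (le_abs_self _)).trans (abs_re_le hω))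
    rw [div_le_iff₀ (by positivity)] at t2 t3
    have b1 : δ / 3 * (τ' - τ) ≤ (2 * δ / 3 - min (ε / 8) (δ / 3)) * (τ' - τ) := by
      gcongr; linarith
    have b2 : δ / 3 * (θ * τ - C) ≤ δ / 3 * (τ' - τ) :=
      mul_le_mul_of_nonneg_left (by linarith) (by positivity)
    have b3 : τ * (δ * ε) ≤ τ * (δ * θ) := by gcongr
    nlinarith

end Pool.Agent.Lib.MP_3974fb_lc
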