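import Pool.Agent.Lib.MP_3974fb_lc.Weyl

/-! Weyl sums indexed by a logarithmic scale. -/

namespace Pool.Agent.Lib.MP_3974fb_lc

open Filter Topology Finset

/-- number of `n` with `|γ| ^ n < exp τ`. -/
noncomputable def NN (γ τ : ℝ) : ℕ := ⌈τ / Real.log |γ|⌉₊

noncomputable def SS (γ : ℝ) (h : ℕ) (ξ τ : ℝ) : ℂ := ∑ n ∈ range (NN γ τ), ee (h * γ ^ n * ξ)

def II (c τ : ℝ) : Set ℝ := Set.Icc c (c + Real.exp (-τ))

noncomputable def CC (γ : ℝ) : ℝ := |γ| / (|γ| - 1)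

variable {γ : ℝ}

lemma CC_pos (hγ : 1 < |γ|) : 0 < CC γ := div_pos (by linarith) (by linarith)

lemma lt_NN (hγ : 1 < |γ|) {n : ℕ} {τ : ℝ} : n < NN γ τ ↔ |γ| ^ n < Real.exp τ := by
  have hL := Real.log_pos hγ
  rw [NN, Nat.lt_ceil, lt_div_iff₀ hL, ← Real.log_pow,
    Real.log_lt_iff_lt_exp (pow_pos (by linarith) _)]

lemma NN_le (hγ : 1 < |γ|) {n : ℕ} {τ : ℝ} : NN γ τ ≤ n ↔ Real.exp τ ≤ |γ| ^ n := by
  rw [← not_lt, lt_NN hγ, not_lt]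

lemma NN_mono (hγ : 1 < |γ|) {τ τ' : ℝ} (h : τ ≤ τ') : NN γ τ ≤ NN γ τ' :=
  Nat.ceil_mono (div_le_div_of_nonneg_right h (Real.log_pos hγ).le)

lemma NN_zero : NN γ 0 = 0 := by simp [NN]

lemma NN_sub_le (hγ : 1 < |γ|) {τ τ' : ℝ} (h0 : 0 ≤ τ') :
    (NN γ τ' : ℝ) - NN γ τ ≤ (τ' - τ) / Real.log |γ| + 1 := by
  have hL := Real.log_pos hγ
  have h1 := Nat.ceil_lt_add_one (div_nonneg h0 hL.le)
  have h2 := Nat.le_ceil (τ / Real.log |γ|)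
  rw [NN, NN, sub_div]; linarith

lemma card_win (hγ : 1 < |γ|) {τ τ' : ℝ} (h0 : 0 ≤ τ) (h : τ ≤ τ') :
    ((Ico (NN γ τ) (NN γ τ')).card : ℝ) ≤ (τ' - τ) / Real.log |γ| + 1 := by
  rw [Nat.card_Ico, Nat.cast_sub (NN_mono hγ h)]
  exact NN_sub_le hγ (h0.trans h)

lemma SS_sub (hγ : 1 < |γ|) (h : ℕ) (ξ : ℝ) {τ τ' : ℝ} (hτ : τ ≤ τ') :
    SS γ h ξ τ' - SS γ h ξ τ = ∑ n ∈ Ico (NN γ τ) (NN γ τ'), ee (h * γ ^ n * ξ) := by
  rw [SS, SS, sum_Ico_eq_sub _ (NN_mono hγ hτ)]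

lemma norm_SS_sub (hγ : 1 < |γ|) (h : ℕ) (ξ : ℝ) {τ τ' : ℝ} (h0 : 0 ≤ τ) (hτ : τ ≤ τ') :
    ‖SS γ h ξ τ' - SS γ h ξ τ‖ ≤ (τ' - τ) / Real.log |γ| + 1 := by
  rw [SS_sub hγ h ξ hτ]
  refine (norm_sum_le _ _).trans ?_
  simp only [norm_ee, sum_const, nsmul_eq_mul, mul_one]
  exact card_win hγ h0 hτ

lemma SS_zero (h : ℕ) (ξ : ℝ) : SS γ h ξ 0 = 0 := by simp [SS, NN_zero]

lemma norm_SS (hγ : 1 < |γ|) (h : ℕ) (ξ : ℝ) {τ : ℝ} (h0 : 0 ≤ τ) :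
    ‖SS γ h ξ τ‖ ≤ τ / Real.log |γ| + 1 := by
  simpa [SS_zero] using norm_SS_sub hγ h ξ le_rfl h0

lemma continuous_SS (h : ℕ) (τ : ℝ) : Continuous fun ξ => SS γ h ξ τ := by
  unfold SS; fun_prop

lemma geom_below (hγ : 1 < |γ|) (τ : ℝ) :
    ∑ n ∈ range (NN γ τ), |γ| ^ n ≤ CC γ * Real.exp τ := by
  rcases Nat.eq_zero_or_pos (NN γ τ) with h | h
  · rw [h]; simp only [range_zero, sum_empty]; exact (mul_pos (CC_pos hγ) (Real.exp_pos _)).le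
  · obtain ⟨k, hk⟩ : ∃ k, NN γ τ = k + 1 := ⟨_, (Nat.succ_pred_eq_of_pos h).symm⟩
    have h1 : |γ| ^ k < Real.exp τ := (lt_NN hγ).1 (by omega)
    rw [hk, geom_sum_eq hγ.ne', CC, div_mul_eq_mul_div]
    refine div_le_div_of_nonneg_right ?_ (by linarith)
    rw [pow_succ]; nlinarith

lemma geom_above (hγ : 1 < |γ|) (τ : ℝ) (b : ℕ) :
    ∑ n ∈ Ico (NN γ τ) b, Real.exp τ / |γ| ^ n ≤ CC γ := by
  have h1 : Real.exp τ ≤ |γ| ^ (NN γ τ) := (NN_le hγ).1 le_rfl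
  have hp : 0 < |γ| := by linarith
  rw [sum_Ico_eq_sum_range]
  have : ∀ n ∈ range (b - NN γ τ), Real.exp τ / |γ| ^ (NN γ τ + n) ≤ (|γ|⁻¹) ^ n := fun n _ => by
    rw [pow_add, div_le_iff₀ (by positivity), inv_pow, mul_comm (|γ| ^ NN γ τ), ← mul_assoc,
      inv_mul_cancel₀ (by positivity), one_mul]
    exact h1
  refine (sum_le_sum this).trans ?_
  have hlt : |γ|⁻¹ < 1 := inv_lt_one_of_one_lt₀ hγ
  have h2 := (summable_geometric_of_lt_one (by positivity) hlt).sum_le_tsum (range (b - NN γ τ))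
    (fun n _ => by positivity)
  rw [tsum_geometric_of_lt_one (by positivity) hlt] at h2
  refine h2.trans (le_of_eq ?_)
  rw [CC]; field_simp

lemma SS_perturb (hγ : 1 < |γ|) (h : ℕ) {ξ ξ' τ τ' : ℝ} (hτ : τ ≤ τ')
    (hξ : |ξ - ξ'| ≤ Real.exp (-τ')) :
    ‖(SS γ h ξ τ' - SS γ h ξ τ) - (SS γ h ξ' τ' - SS γ h ξ' τ)‖ ≤ 7 * h * CC γ := by
  rw [SS_sub hγ h ξ hτ, SS_sub hγ h ξ' hτ, ← sum_sub_distrib]
  refine (norm_sum_le _ _).trans ?_
  have : ∀ n ∈ Ico (NN γ τ) (NN γ τ'), ‖ee (h * γ ^ n * ξ) - ee (h * γ ^ n * ξ')‖ ≤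
      7 * h * Real.exp (-τ') * |γ| ^ n := fun n _ => by
    refine (norm_ee_sub _ _).trans ?_
    rw [← mul_sub, abs_mul, abs_mul, abs_pow, Nat.abs_cast]
    calc 7 * (h * |γ| ^ n * |ξ - ξ'|) ≤ 7 * (h * |γ| ^ n * Real.exp (-τ')) := by gcongr
      _ = _ := by ring
  refine (sum_le_sum this).trans ?_
  rw [← mul_sum]
  have h2 : ∑ n ∈ Ico (NN γ τ) (NN γ τ'), |γ| ^ n ≤ CC γ * Real.exp τ' := by
    refine le_trans (sum_le_sum_of_subset_of_nonneg ?_ fun _ _ _ => by positivity)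
      (geom_below hγ τ')
    intro n hn; exact mem_range.2 (mem_Ico.1 hn).2
  calc 7 * h * Real.exp (-τ') * ∑ n ∈ Ico (NN γ τ) (NN γ τ'), |γ| ^ n
      ≤ 7 * h * Real.exp (-τ') * (CC γ * Real.exp τ') := by gcongr
    _ = 7 * h * CC γ * (Real.exp (-τ') * Real.exp τ') := by ring
    _ = _ := by rw [← Real.exp_add]; simp

lemma normal_iff_weyl {ξ : ℝ} : ξ ∈ NormalSet γ ↔ ∀ h : ℕ, 1 ≤ h →
    Tendsto (fun N : ℕ => (∑ n ∈ range N, ee (h * γ ^ n * ξ)) / (N : ℂ)) atTop (𝓝 0) := by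
  have : ∀ (h n : ℕ), (h : ℝ) * (ξ * γ ^ n) = h * γ ^ n * ξ := fun h n => by ring
  simp only [NormalSet, Set.mem_ofPred_eq, UD_iff_weyl, WeylZero, this]

lemma tendsto_avg_iff {u : ℕ → ℂ} : Tendsto (fun N : ℕ => u N / (N : ℂ)) atTop (𝓝 0) ↔
    ∀ ε > 0, ∀ᶠ N : ℕ in atTop, ‖u N‖ ≤ ε * N := by
  rw [NormedAddGroup.tendsto_nhds_zero]
  constructor
  · intro h ε hε
    filter_upwards [h ε hε, eventually_ge_atTop 1] with N h1 hN
    have : (0 : ℝ) < N := by exact_mod_cast hN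
    rw [norm_div, Complex.norm_natCast, div_lt_iff₀ this] at h1
    exact h1.le
  · intro h ε hε
    filter_upwards [h (ε / 2) (by positivity), eventually_ge_atTop 1] with N h1 hN
    have : (0 : ℝ) < N := by exact_mod_cast hN
    rw [norm_div, Complex.norm_natCast, div_lt_iff₀ this]
    nlinarith

lemma normal_iff (hγ : 1 < |γ|) {ξ : ℝ} : ξ ∈ NormalSet γ ↔
    ∀ h : ℕ, 1 ≤ h → ∀ ε > 0, ∀ᶠ τ : ℝ in atTop, ‖SS γ h ξ τ‖ ≤ ε * τ := by
  have hL := Real.log_pos hγ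
  rw [normal_iff_weyl]
  simp only [tendsto_avg_iff]
  refine forall_congr' fun h => forall_congr' fun _ => ⟨fun H ε hε => ?_, fun H ε hε => ?_⟩
  · have hT : Tendsto (NN γ) atTop atTop :=
      tendsto_nat_ceil_atTop.comp (tendsto_id.atTop_div_const hL)
    filter_upwards [hT.eventually (H (ε * Real.log |γ| / 2) (by positivity)),
      eventually_ge_atTop (Real.log |γ|)] with τ h1 h2
    refine h1.trans ?_
    have h3 := NN_sub_le hγ (τ := 0) (τ' := τ) (by linarith)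
    rw [NN_zero, Nat.cast_zero, sub_zero, sub_zero] at h3
    calc ε * Real.log |γ| / 2 * (NN γ τ) ≤ ε * Real.log |γ| / 2 * (τ / Real.log |γ| + 1) := by
          gcongr
      _ = ε * (τ + Real.log |γ|) / 2 := by field_simp
      _ ≤ ε * τ := by nlinarith
  · have hT : Tendsto (fun N : ℕ => (N : ℝ) * Real.log |γ|) atTop atTop :=
      tendsto_natCast_atTop_atTop.atTop_mul_const hL
    filter_upwards [hT.eventually (H (ε / Real.log |γ|) (by positivity))] with N h1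
    have e : NN γ (N * Real.log |γ|) = N := by
      rw [NN, mul_div_cancel_right₀ _ hL.ne', Nat.ceil_natCast]
    rw [SS, e] at h1
    refine h1.trans (le_of_eq ?_)
    field_simp

lemma isPi03_normal (γ : ℝ) : IsPi03 (NormalSet γ) := by
  refine ⟨fun k m => {ξ | ∀ N : ℕ, m ≤ N →
    ‖∑ n ∈ range N, ee ((k.unpair.1 + 1 : ℕ) * γ ^ n * ξ)‖ ≤ 1 / ((k.unpair.2 : ℝ) + 1) * N},
    fun k m => ?_, ?_⟩
  · simp only [Set.ofPred_forall]
    exact isClosed_iInter fun N => isClosed_iInter fun _ => isClosed_le (by fun_prop) (by fun_prop)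
  · ext ξ
    simp only [normal_iff_weyl, tendsto_avg_iff, Set.mem_iInter, Set.mem_iUnion, Set.mem_ofPred_eq,
      eventually_atTop]
    constructor
    · intro H k
      exact H _ (by omega) _ (by positivity)
    · intro H h hh ε hε
      obtain ⟨j, hj⟩ := exists_nat_one_div_lt hε
      obtain ⟨m, hm⟩ := H (Nat.pair (h - 1) j)
      simp only [Nat.unpair_pair, Nat.sub_add_cancel hh] at hm
      exact ⟨m, fun N hN => (hm N hN).trans (by gcongr)⟩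

end Pool.Agent.Lib.MP_3974fb_lc
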