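import Pool.Agent.Lib.MP_3974fb_lc.Game

/-! Greedy (approachability) concatenation of blocks. -/

namespace Pool.Agent.Lib.MP_3974fb_lc

open Filter Topology Finset

lemma exists_sub_II {c τ τ' ξ : ℝ} (h : τ ≤ τ') (hξ : ξ ∈ II c τ) :
    ∃ c', II c' τ' ⊆ II c τ ∧ ξ ∈ II c' τ' := by
  have h1 : Real.exp (-τ') ≤ Real.exp (-τ) := Real.exp_le_exp.2 (by linarith)
  have h2 := Real.exp_pos (-τ')
  refine ⟨min ξ (c + Real.exp (-τ) - Real.exp (-τ')), fun z hz => ⟨?_, ?_⟩, min_le_left _ _, ?_⟩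
  · exact le_trans (le_min hξ.1 (by linarith)) hz.1
  · have := min_le_right ξ (c + Real.exp (-τ) - Real.exp (-τ'))
    linarith [hz.2]
  · rcases le_total ξ (c + Real.exp (-τ) - Real.exp (-τ')) with h3 | h3
    · rw [min_eq_left h3]; linarith
    · rw [min_eq_right h3]; linarith [hξ.2]

lemma abs_re_le {ω z : ℂ} (hω : ‖ω‖ ≤ 1) : |(ω * z).re| ≤ ‖z‖ := by
  refine (Complex.abs_re_le_norm _).trans ?_
  rw [norm_mul]; exact mul_le_of_le_one_left (norm_nonneg _) hω

theorem blackwell {ι : Type} [Fintype ι] (γ : ι → ℝ) (hγ : ∀ i, 1 < |γ i|) (h : ι → ℕ)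
    (ω : ι → ℂ) (hω : ∀ i, ‖ω i‖ ≤ 1) (a : ι → ℝ)
    (hblk : ∀ w₀ : ℝ, ∃ w, w₀ ≤ w ∧ ∀ c τ, 0 ≤ τ → ∀ V : ι → ℝ, (∀ i, 0 ≤ V i) →
      ∃ ξ ∈ II c τ, 0 ≤ ∑ i, V i *
        ((ω i * (SS (γ i) (h i) ξ (τ + w) - SS (γ i) (h i) ξ τ)).re - a i * w))
    {η : ℝ} (hη : 0 < η) :
    ∃ C : ℝ, 0 ≤ C ∧ ∀ c τ T, 0 ≤ τ → 0 ≤ T → ∃ c' τ', τ + T - C ≤ τ' ∧ τ' ≤ τ + T ∧ τ ≤ τ' ∧
      II c' τ' ⊆ II c τ ∧ ∀ ξ ∈ II c' τ', ∀ i t, τ ≤ t → t ≤ τ' →
        (a i - η) * (t - τ) - C ≤ (ω i * (SS (γ i) (h i) ξ t - SS (γ i) (h i) ξ τ)).re := by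
  set E : ℝ := ∑ i, 7 * h i * CC (γ i) with hE
  have hEi : ∀ i, 7 * h i * CC (γ i) ≤ E := fun i =>
    single_le_sum (f := fun i => 7 * (h i : ℝ) * CC (γ i))
      (fun j _ => by have := CC_pos (hγ j); positivity) (mem_univ i)
  obtain ⟨w, hw, hblk⟩ := hblk (max 1 (2 * E / η))
  have hw1 : 1 ≤ w := (le_max_left _ _).trans hw
  have hw0 : 0 < w := by linarith
  have hwE : E ≤ η * w / 2 := by
    have := (le_max_right _ _).trans hw
    rw [div_le_iff₀ hη] at this; linarith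
  set B : ℝ := ∑ i, (|a i| * w + (w / Real.log |γ i| + 1)) with hB
  have hBi : ∀ i, |a i| * w + (w / Real.log |γ i| + 1) ≤ B := fun i =>
    single_le_sum (f := fun i => |a i| * w + (w / Real.log |γ i| + 1))
      (fun j _ => by have := Real.log_pos (hγ j); positivity) (mem_univ i)
  have hB0 : 0 ≤ B := sum_nonneg fun j _ => by have := Real.log_pos (hγ j); positivity
  set Q : ℝ := ∑ _i : ι, B ^ 2 with hQ
  have hQ0 : 0 ≤ Q := sum_nonneg fun _ _ => by positivity
  set μ : ℝ := η * w / 2 with hμ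
  have hμ0 : 0 < μ := by positivity
  refine ⟨Q / (4 * μ) + B + η * w + w, by positivity, fun c τ T hτ hT => ?_⟩
  have key : ∀ k : ℕ, ∃ (c' : ℝ) (U : ι → ℝ), II c' (τ + k * w) ⊆ II c τ ∧
      ∑ i, (max (U i) 0) ^ 2 ≤ k * Q ∧ ∀ ξ ∈ II c' (τ + k * w),
        (∀ i, k * (a i * w - E) - U i ≤
          (ω i * (SS (γ i) (h i) ξ (τ + k * w) - SS (γ i) (h i) ξ τ)).re) ∧
        ∀ j : ℕ, j ≤ k → ∀ i, (a i - η) * (j * w) - Q / (4 * μ) ≤
          (ω i * (SS (γ i) (h i) ξ (τ + j * w) - SS (γ i) (h i) ξ τ)).re := by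
    intro k
    induction k with
    | zero =>
      refine ⟨c, 0, by simp, by simp, fun ξ _ => ⟨fun i => by simp, fun j hj i => ?_⟩⟩
      obtain rfl : j = 0 := by omega
      simp only [Nat.cast_zero, zero_mul, mul_zero, add_zero, sub_self, Complex.zero_re, zero_sub,
        neg_nonpos]
      positivity
    | succ k ih =>
      obtain ⟨c₁, U, h1, h2, h3⟩ := ih
      have hτk : 0 ≤ τ + k * w := by positivity
      obtain ⟨ξ₀, hξ₀, hV⟩ := hblk c₁ (τ + k * w) hτk (fun i => max (U i) 0)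
        (fun i => le_max_right _ _)
      have e : τ + ((k + 1 : ℕ) : ℝ) * w = τ + k * w + w := by push_cast; ring
      obtain ⟨c₂, h4, h5⟩ := exists_sub_II (τ' := τ + k * w + w) (by linarith) hξ₀
      set d : ι → ℝ := fun i => a i * w -
        (ω i * (SS (γ i) (h i) ξ₀ (τ + k * w + w) - SS (γ i) (h i) ξ₀ (τ + k * w))).re with hd
      have hdB : ∀ i, |d i| ≤ B := fun i => by
        refine (abs_sub _ _).trans (le_trans ?_ (hBi i))
        rw [abs_mul, abs_of_pos hw0]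
        have := (abs_re_le (hω i)).trans
          (norm_SS_sub (hγ i) (h i) ξ₀ hτk (by linarith : τ + k * w ≤ τ + k * w + w))
        rw [add_sub_cancel_left] at this
        linarith
      have hU : ∑ i, (max (U i + d i) 0) ^ 2 ≤ ((k + 1 : ℕ) : ℝ) * Q := by
        have a1 : ∀ i ∈ (univ : Finset ι), (max (U i + d i) 0) ^ 2 ≤
            (max (U i) 0) ^ 2 + 2 * (max (U i) 0 * d i) + B ^ 2 := fun i _ => by
          have b1 : d i ^ 2 ≤ B ^ 2 := sq_le_sq' (abs_le.1 (hdB i)).1 (abs_le.1 (hdB i)).2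
          have b2 : (max (U i + d i) 0) ^ 2 ≤ (max (U i) 0 + d i) ^ 2 := by
            rcases le_total (U i + d i) 0 with b | b
            · rw [max_eq_right b]; simpa using sq_nonneg _
            · rw [max_eq_left b]
              have := le_max_left (U i) 0
              gcongr
          nlinarith
        refine (sum_le_sum a1).trans ?_
        rw [sum_add_distrib, sum_add_distrib, ← mul_sum]
        have a2 : ∑ i, max (U i) 0 * d i ≤ 0 := by
          have : ∑ i, max (U i) 0 * d i = -∑ i, max (U i) 0 *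
              ((ω i * (SS (γ i) (h i) ξ₀ (τ + k * w + w) -
                SS (γ i) (h i) ξ₀ (τ + k * w))).re - a i * w) := by
            rw [← sum_neg_distrib]
            exact sum_congr rfl fun i _ => by rw [hd]; ring
          linarith
        push_cast
        linarith
      rw [e]
      refine ⟨c₂, fun i => U i + d i, h4.trans h1, hU, fun ξ hξ => ?_⟩
      have hnew : ∀ i, ((k + 1 : ℕ) : ℝ) * (a i * w - E) - (U i + d i) ≤
          (ω i * (SS (γ i) (h i) ξ (τ + k * w + w) - SS (γ i) (h i) ξ τ)).re := fun i => by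
        have b1 := (h3 ξ (h4 hξ)).1 i
        have b2 := (abs_re_le (hω i)).trans (SS_perturb (hγ i) (h i) (ξ := ξ) (ξ' := ξ₀)
          (by linarith : τ + k * w ≤ τ + k * w + w) (by
            rw [abs_le]; constructor <;> linarith [hξ.1, hξ.2, h5.1, h5.2]))
        have b3 := (abs_le.1 b2).1
        have b4 := hEi i
        simp only [hd, mul_sub, Complex.sub_re] at b1 b3 ⊢
        push_cast
        linarith
      refine ⟨hnew, fun j hj i => ?_⟩
      rcases Nat.lt_or_ge j (k + 1) with hj' | hj'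
      · exact (h3 ξ (h4 hξ)).2 j (by omega) i
      · obtain rfl : j = k + 1 := by omega
        rw [e]
        refine le_trans ?_ (hnew i)
        set K : ℝ := ((k + 1 : ℕ) : ℝ) with hK
        have hK0 : 0 ≤ K := Nat.cast_nonneg _
        have b1 : (max (U i + d i) 0) ^ 2 ≤ K * Q :=
          (single_le_sum (f := fun i => (max (U i + d i) 0) ^ 2) (fun _ _ => sq_nonneg _)
            (mem_univ i)).trans hU
        have b2 : max (U i + d i) 0 ≤ μ * K + Q / (4 * μ) := by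
          refine le_of_sq_le_sq ?_ (by positivity)
          have : K * Q = 4 * (μ * K) * (Q / (4 * μ)) := by field_simp
          nlinarith [sq_nonneg (μ * K - Q / (4 * μ))]
        have b3 := le_max_left (U i + d i) 0
        have b4 : K * E ≤ K * μ := by gcongr
        have b5 : η * (K * w) = 2 * (K * μ) := by rw [hμ]; ring
        nlinarith
  obtain ⟨c', U, h1, -, h3⟩ := key ⌊T / w⌋₊
  have hk1 : (⌊T / w⌋₊ : ℝ) * w ≤ T := by
    rw [← le_div_iff₀ hw0]; exact Nat.floor_le (by positivity)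
  have hk2 : T < (⌊T / w⌋₊ + 1 : ℝ) * w := by
    rw [← div_lt_iff₀ hw0]; exact Nat.lt_floor_add_one _
  have hpos : 0 ≤ Q / (4 * μ) + B + η * w := by positivity
  refine ⟨c', _, by linarith, by linarith, by nlinarith [(Nat.cast_nonneg ⌊T / w⌋₊ : (0 : ℝ) ≤ _)],
    h1, fun ξ hξ i t ht1 ht2 => ?_⟩
  set j := ⌊(t - τ) / w⌋₊ with hj
  have hj1 : (j : ℝ) * w ≤ t - τ := by
    rw [← le_div_iff₀ hw0]; exact Nat.floor_le (div_nonneg (by linarith) hw0.le)
  have hj2 : t - τ < (j + 1 : ℝ) * w := by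
    rw [← div_lt_iff₀ hw0]; exact Nat.lt_floor_add_one _
  have hjk : j ≤ ⌊T / w⌋₊ := Nat.floor_mono (div_le_div_of_nonneg_right (by linarith) hw0.le)
  have b1 := (h3 ξ hξ).2 j hjk i
  have b2 := (abs_re_le (hω i)).trans
    (norm_SS_sub (hγ i) (h i) ξ (τ := τ + j * w) (τ' := t) (by positivity) (by linarith))
  have hL := Real.log_pos (hγ i)
  have b3 : (t - (τ + j * w)) / Real.log |γ i| ≤ w / Real.log |γ i| := by
    gcongr; linarith
  have b4 := (abs_le.1 b2).1
  have b5 := hBi i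
  have b6 : a i * (t - τ - j * w) ≤ |a i| * w := by
    calc _ ≤ |a i| * (t - τ - j * w) := by
          have := le_abs_self (a i); gcongr
      _ ≤ _ := by gcongr; linarith
  have b7 : 0 ≤ η * (t - τ - j * w) := mul_nonneg hη.le (by linarith)
  have b8 : 0 ≤ η * w := by positivity
  simp only [mul_sub, Complex.sub_re] at b1 b4 ⊢
  nlinarith

end Pool.Agent.Lib.MP_3974fb_lc
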