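import Pool.Agent.Lib.MP_3974fb_lc.RieszSum

/-! The block lemma for independent bases and for dependent transcendental bases. -/

namespace Pool.Agent.Lib.MP_3974fb_lc

open Filter Topology Finset

lemma exists_RD (U : Finset ℝ) (h0 : 0 ∉ U) (hneg : ∀ u ∈ U, -u ∈ U) (ψ : ℝ → ℂ)
    (hψ : ∀ u, ‖ψ u‖ ≤ 1) (hψ' : ∀ u, ψ (-u) = (starRingEnd ℂ) (ψ u)) :
    ∃ s₀ M Λ₀ : ℝ, ∀ Λ, Λ₀ < Λ → ∀ a : ℝ, 0 ≤ a → a * (U.card + 2) ≤ 1 →
      ∃ cf f, RD U cf f a s₀ M Λ ∧ ∀ u ∈ U, cf u = a * ψ u := by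
  classical
  have h1 : ∀ᶠ s in 𝓝[>] (0 : ℝ), ∀ u ∈ insert 0 U, ∀ v ∈ insert 0 U, u ≠ v → s ≤ |u - v| := by
    refine (eventually_all_finset _).2 fun u _ => (eventually_all_finset _).2 fun v _ => ?_
    by_cases h : u = v
    · exact Eventually.of_forall fun _ h' => absurd h h'
    · filter_upwards [Ioo_mem_nhdsGT (abs_pos.2 (sub_ne_zero.2 h))] with s hs _ using hs.2.le
  obtain ⟨s₀, hs, hs0⟩ := (h1.and self_mem_nhdsWithin).exists
  have hs0 : 0 < s₀ := hs0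
  obtain ⟨M, hM⟩ := (insert 0 U).finite_toSet.isBounded.exists_norm_le
  refine ⟨s₀, M, max (2 * M / s₀ + 1) (U.card + 1), fun Λ hΛ a ha haU => ?_⟩
  rw [max_lt_iff] at hΛ
  have hc : (0 : ℝ) ≤ U.card := Nat.cast_nonneg _
  set cf : ℝ → ℂ := fun u => if u = 0 then 1 else a * ψ u with hcf
  have hcfU : ∀ u ∈ U, cf u = a * ψ u := fun u hu => if_neg fun h : u = 0 => h0 (h ▸ hu)
  have hn : ∀ u ∈ U, ‖cf u‖ ≤ a := fun u hu => by
    rw [hcfU u hu, norm_mul, Complex.norm_real, Real.norm_eq_abs, abs_of_nonneg ha]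
    exact mul_le_of_le_one_right ha (hψ u)
  have hcf0 : cf 0 = 1 := if_pos rfl
  refine ⟨cf, fun x => (∑ u ∈ insert 0 U, cf u * ee (-(u * x))).re, ⟨h0, hcf0, hn, ha,
    by nlinarith, hs0, hs, fun u hu => hM u hu, ?_, hΛ.2.le, by linarith [hΛ.2], by fun_prop,
    fun x => ?_, fun x => ?_⟩, hcfU⟩
  · have := hΛ.1
    rw [← lt_sub_iff_add_lt, div_lt_iff₀ hs0] at this
    exact this.le
  · rw [sum_insert h0, hcf0, zero_mul, neg_zero, ee_zero, mul_one, Complex.add_re, Complex.one_re]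
    have h2 : ‖∑ u ∈ U, cf u * ee (-(u * x))‖ ≤ U.card * a := by
      refine (norm_sum_le _ _).trans ((sum_le_sum (g := fun _ => a) fun u hu => ?_).trans (by simp))
      rw [norm_mul, norm_ee, mul_one]; exact hn u hu
    have := (abs_le.1 ((Complex.abs_re_le_norm _).trans h2)).1
    nlinarith
  · refine Complex.conj_eq_iff_re.1 ?_
    rw [sum_insert h0, hcf0, zero_mul, neg_zero, ee_zero, mul_one, map_add, map_one, map_sum]
    congr 1
    refine sum_bij' (fun u _ => -u) (fun u _ => -u) hneg hneg (fun _ _ => neg_neg _)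
      (fun _ _ => neg_neg _) fun u hu => ?_
    rw [hcfU u hu, hcfU _ (hneg u hu), map_mul, map_mul, ← ee_neg, ← hψ', Complex.conj_ofReal,
      neg_mul]

lemma exists_spacing {α Λ : ℝ} (hα : 1 < |α|) (hΛ : 1 < Λ)
    (hirr : ∀ g : ℕ, 1 ≤ g → ∀ i : ℤ, g * Real.log |α| ≠ i * Real.log Λ) {h : ℕ} (hh : 1 ≤ h)
    {x : ℝ} (hx : x ≠ 0) (G : ℕ) : ∃ η > 0, ∀ n n' j j' : ℕ, n < n' →
      |h * α ^ n / Λ ^ j - x| < η → |h * α ^ n' / Λ ^ j' - x| < η → n + G ≤ n' := by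
  have hL := Real.log_pos hΛ
  have hΛ0 : 0 < Λ := by linarith
  have hα0 : α ≠ 0 := by rintro rfl; norm_num at hα
  have hh' : (0 : ℝ) < h := by exact_mod_cast hh
  have h1 : ∀ g ∈ Icc 1 G, ∀ᶠ s in 𝓝[>] (0 : ℝ), ∀ i : ℤ,
      s ≤ |g * Real.log |α| - i * Real.log Λ| := by
    intro g hg
    set t := g * Real.log |α| / Real.log Λ with ht
    have e : ∀ i : ℤ, |g * Real.log |α| - i * Real.log Λ| = |t - i| * Real.log Λ := fun i => by
      rw [← abs_of_pos hL, ← abs_mul, abs_of_pos hL, ht]; congr 1; field_simp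
    have h2 : 0 < |t - round t| * Real.log Λ := by
      rw [← e]; exact abs_pos.2 (sub_ne_zero.2 (hirr g (mem_Icc.1 hg).1 _))
    filter_upwards [Ioo_mem_nhdsGT h2] with s hs i
    rw [e]
    exact hs.2.le.trans (mul_le_mul_of_nonneg_right (round_le t i) hL.le)
  obtain ⟨s, hs, hs0⟩ := (((eventually_all_finset _).2 h1).and self_mem_nhdsWithin).exists
  have hs0 : 0 < s := hs0
  obtain ⟨η, hη, hc⟩ := Metric.continuousAt_iff.1 (Real.continuousAt_log hx) (s / 2) (by positivity)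
  refine ⟨η, hη, fun n n' j j' hlt h2 h3 => ?_⟩
  by_contra hG
  have a1 := hc (x := h * α ^ n / Λ ^ j) h2
  have a2 := hc (x := h * α ^ n' / Λ ^ j') h3
  rw [Real.dist_eq, Real.log_div (by positivity) (by positivity), Real.log_mul hh'.ne'
    (by positivity), Real.log_pow, Real.log_pow, ← Real.log_abs α, abs_lt] at a1 a2
  have a3 := hs (n' - n) (mem_Icc.2 ⟨by omega, by omega⟩) ((j' : ℤ) - j)
  rw [Nat.cast_sub hlt.le, le_abs] at a3
  push_cast at a3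
  rcases a3 with a3 | a3 <;> linarith [a1.1, a1.2, a2.1, a2.2]

lemma card_le_of_spacing {S : Finset ℕ} {a b G : ℕ} (hG : 1 ≤ G) (hS : S ⊆ Ico a b)
    (h : ∀ n ∈ S, ∀ n' ∈ S, n < n' → n + G ≤ n') :
    (S.card : ℝ) ≤ ((Ico a b).card : ℝ) / G + 1 := by
  have key : ∀ n ∈ S, ∀ n' ∈ S, n < n' → (n - a) / G < (n' - a) / G := by
    intro n hn n' hn' hlt
    have b1 := h n hn n' hn' hlt
    have b2 := (mem_Ico.1 (hS hn)).1
    have b3 := Nat.div_le_div_right (c := G) (show n - a + G ≤ n' - a by omega)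
    rw [Nat.add_div_right _ hG] at b3
    omega
  have h1 : S.card ≤ (range ((b - a) / G + 1)).card := by
    refine card_le_card_of_injOn (fun n => (n - a) / G) (fun n hn => ?_) fun n hn n' hn' he => ?_
    · have := mem_Ico.1 (hS hn)
      simp only [coe_range, Set.mem_Iio]
      exact Nat.lt_succ_of_le (Nat.div_le_div_right (by omega))
    · rcases lt_trichotomy n n' with h | h | h
      · exact absurd he (key n hn n' hn' h).ne
      · exact h
      · exact absurd he (key n' hn' n hn h).ne'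
  rw [card_range] at h1
  have h2 : (S.card : ℝ) ≤ ((b - a) / G : ℕ) + 1 := by exact_mod_cast h1
  rw [Nat.card_Ico]
  linarith [Nat.cast_div_le (α := ℝ) (m := b - a) (n := G)]

lemma sparse {α Λ : ℝ} (hα : 1 < |α|) (hΛ : 1 < Λ)
    (hirr : ∀ g : ℕ, 1 ≤ g → ∀ i : ℤ, g * Real.log |α| ≠ i * Real.log Λ) {h : ℕ} (hh : 1 ≤ h)
    {E : Set ℝ} (hE : IsCompact E) (hEc : E.Countable) (h0 : 0 ∉ E) {ε : ℝ} (hε : 0 < ε) :
    ∃ η > 0, ∃ C : ℝ, ∀ (a b : ℕ) (S : Finset ℕ), S ⊆ Ico a b →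
      (∀ n ∈ S, ∃ j : ℕ, ∃ x ∈ E, |h * α ^ n / Λ ^ j - x| < η) →
      (S.card : ℝ) ≤ ε * (Ico a b).card + C := by
  classical
  obtain ⟨ι, hι⟩ := Set.countable_iff_exists_injOn.1 hEc
  set G : ℝ → ℕ := fun x => ⌈2 * 2 ^ ι x / ε⌉₊ with hG
  have hsp : ∀ x, ∃ η > 0, x ∈ E → ∀ n n' j j' : ℕ, n < n' →
      |h * α ^ n / Λ ^ j - x| < η → |h * α ^ n' / Λ ^ j' - x| < η → n + G x ≤ n' := fun x => by
    by_cases hx : x ∈ E
    · obtain ⟨η, h1, h2⟩ := exists_spacing hα hΛ hirr hh (fun h => h0 (h ▸ hx)) (G x)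
      exact ⟨η, h1, fun _ => h2⟩
    · exact ⟨1, one_pos, fun h => absurd h hx⟩
  choose η hη hsp using hsp
  obtain ⟨t, htE, ht⟩ := hE.elim_nhds_subcover (fun x => Metric.ball x (η x))
    fun x _ => Metric.ball_mem_nhds x (hη x)
  obtain ⟨δ, hδ, hth⟩ := hE.exists_thickening_subset_open
    (isOpen_biUnion fun x _ => Metric.isOpen_ball) ht
  refine ⟨δ, hδ, t.card, fun a b S hS hnear => ?_⟩
  set A : ℝ → Finset ℕ := fun z => S.filter fun n => ∃ j : ℕ, |h * α ^ n / Λ ^ j - z| < η z with hA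
  have hsub : S ⊆ t.biUnion A := fun n hn => by
    obtain ⟨j, x, hx, hlt⟩ := hnear n hn
    have := hth (Metric.mem_thickening_iff.2 ⟨x, hx, hlt⟩)
    simp only [Set.mem_iUnion, Metric.mem_ball, exists_prop] at this
    obtain ⟨z, hz, hd⟩ := this
    exact mem_biUnion.2 ⟨z, hz, mem_filter.2 ⟨hn, j, hd⟩⟩
  have hAz : ∀ z ∈ t, ((A z).card : ℝ) ≤ ε * (Ico a b).card / 2 * (1 / 2) ^ ι z + 1 := by
    intro z hz
    have hG1 : 2 * 2 ^ ι z / ε ≤ G z := Nat.le_ceil _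
    have hG2 : (0 : ℝ) < G z := lt_of_lt_of_le (by positivity) hG1
    refine (card_le_of_spacing (G := G z) (by exact_mod_cast hG2) ((filter_subset _ _).trans hS)
      fun n hn n' hn' hlt => ?_).trans ?_
    · obtain ⟨j, hj⟩ := (mem_filter.1 hn).2
      obtain ⟨j', hj'⟩ := (mem_filter.1 hn').2
      exact hsp z (htE z hz) n n' j j' hlt hj hj'
    · refine add_le_add_left ((div_le_div_of_nonneg_left (Nat.cast_nonneg _) (by positivity)
        hG1).trans (le_of_eq ?_)) _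
      rw [one_div, inv_pow]; field_simp
  have h1 : (S.card : ℝ) ≤ ∑ z ∈ t, ((A z).card : ℝ) := by
    exact_mod_cast (card_le_card hsub).trans card_biUnion_le
  refine h1.trans ((sum_le_sum hAz).trans ?_)
  rw [sum_add_distrib, sum_const, nsmul_eq_mul, mul_one, ← mul_sum]
  have h2 : ∑ z ∈ t, (1 / 2 : ℝ) ^ ι z ≤ 2 := by
    rw [← sum_image (f := fun i => (1 / 2 : ℝ) ^ i) (hι.mono fun z hz => htE z hz)]
    exact (summable_geometric_two.sum_le_tsum _ fun _ _ => by positivity).trans_eq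
      tsum_geometric_two
  have h3 : 0 ≤ ε * (Ico a b).card / 2 := by positivity
  nlinarith

variable {U : Finset ℝ} {cf : ℝ → ℂ} {f : ℝ → ℝ} {a s₀ M Λ : ℝ}

lemma RD.exists_m (R : RD U cf f a s₀ M Λ) {ε : ℝ} (hε : 0 < ε) : ∃ m : ℕ, a ^ (m + 2) ≤ ε := by
  obtain ⟨m, hm⟩ := exists_pow_lt_of_lt_one hε (show a < 1 by linarith [R.a_half])
  exact ⟨m, (pow_le_pow_of_le_one R.a_nonneg (by linarith [R.a_half]) (by omega)).trans hm.le⟩

lemma RD.sum_sparse (R : RD U cf f a s₀ M Λ) {α : ℝ} (hα : 1 < |α|)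
    (hirr : ∀ g : ℕ, 1 ≤ g → ∀ i : ℤ, g * Real.log |α| ≠ i * Real.log Λ) {h : ℕ} (hh : 1 ≤ h)
    {ε : ℝ} (hε : 0 < ε) : ∀ᶠ J : ℕ in atTop, ∀ c τ, 0 ≤ τ →
      ‖∑ n ∈ win α τ (4 * J * Real.log Λ), BB c τ (PP f Λ J (Λ ^ kk Λ τ J)) (h * α ^ n)‖ ≤
        ε * J := by
  classical
  have hΛ := R.big3
  have hΛ0 : 0 < Λ := by linarith
  have hL := Real.log_pos hΛ
  have hLα := Real.log_pos hα
  have hs := R.s_pos
  set ρ := 4 * Real.log Λ / Real.log |α| + 1 with hρ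
  have hρ0 : 0 < ρ := by positivity
  obtain ⟨m, hm⟩ := R.exists_m (ε := ε / (4 * ρ)) (by positivity)
  obtain ⟨η, hη, C', hC'⟩ := sparse hα hΛ hirr hh (E := EE U Λ m ∩ {x | s₀ / 2 ≤ |x|})
    ((EE_compact U hΛ m).inter_right (isClosed_le continuous_const continuous_abs))
    ((EE_countable U Λ m).mono Set.inter_subset_left)
    (fun h => by have := h.2; simp only [Set.mem_ofPred_eq, abs_zero] at this; linarith)
    (ε := ε / (4 * ρ)) (by positivity)
  obtain ⟨C, hC⟩ := R.sum_off m hη hα hh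
  filter_upwards [R.err_le (ε := ε / (4 * ρ)) (by positivity), eventually_ge_atTop 1,
    tendsto_natCast_atTop_atTop.eventually_ge_atTop (4 * (C + C') / ε)] with J herr hJ hJC c τ hτ
  have hJ' : (1 : ℝ) ≤ J := by exact_mod_cast hJ
  set W := win α τ (4 * J * Real.log Λ) with hW
  have hWc : (W.card : ℝ) ≤ ρ * J := by
    have := card_win hα hτ (τ' := τ + 4 * J * Real.log Λ) (le_add_of_nonneg_right (by positivity))
    have e : (τ + 4 * J * Real.log Λ - τ) / Real.log |α| = 4 * Real.log Λ / Real.log |α| * J := by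
      field_simp; ring
    rw [e] at this
    change ((Ico _ _).card : ℝ) ≤ _
    rw [hρ]; linarith
  have a1 := hC J _ c τ _ _ (by positivity) (herr τ) W (W.filter fun n => ∃ j < J,
    ∃ x ∈ EE U Λ m, s₀ / 2 ≤ |x| ∧ |h * α ^ n / (Λ ^ kk Λ τ J * Λ ^ j) - x| < η) subset_rfl
    fun n hn h => mem_filter.2 ⟨hn, h⟩
  have a2 := hC' _ _ (W.filter fun n => ∃ j < J,
    ∃ x ∈ EE U Λ m, s₀ / 2 ≤ |x| ∧ |h * α ^ n / (Λ ^ kk Λ τ J * Λ ^ j) - x| < η)
    (filter_subset _ _) fun n hn => by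
      obtain ⟨j, -, x, h1, h2, h3⟩ := (mem_filter.1 hn).2
      exact ⟨kk Λ τ J + j, x, ⟨h1, h2⟩, by rwa [pow_add]⟩
  change _ ≤ _ * (W.card : ℝ) + _ at a2
  have a3 : (W.card : ℝ) * (ε / (4 * ρ) + a ^ (m + 2)) ≤ ρ * J * (ε / (4 * ρ) + ε / (4 * ρ)) := by
    have := R.a_nonneg
    gcongr
  have a4 : ε / (4 * ρ) * W.card ≤ ε / (4 * ρ) * (ρ * J) := by gcongr
  have a5 : ε / (4 * ρ) * (ρ * J) = ε * J / 4 := by field_simp
  rw [div_le_iff₀ hε] at hJC
  linarith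

theorem blockB_irr {α β : ℝ} (hα : 1 < |α|) (hβ : 1 < |β|)
    (hirr : Irrational (Real.log |α| / Real.log |β|)) : BlockB α β := by
  classical
  obtain ⟨s₀, M, Λ₀, hR⟩ := exists_RD {1, -1} (by simp) (by simp) (fun _ => 1) (by simp) (by simp)
  obtain ⟨N, hN⟩ := pow_unbounded_of_one_lt Λ₀ hβ
  have hq : β ^ (2 * (N + 1)) = |β| ^ (2 * (N + 1)) := ((even_two_mul _).pow_abs β).symm
  have hc : (({1, -1} : Finset ℝ).card : ℝ) ≤ 2 := by exact_mod_cast card_le_two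
  set q := 2 * (N + 1) with hqdef
  have hq1 : (1 : ℝ) ≤ q := by exact_mod_cast (by omega : 1 ≤ q)
  have ha : (0 : ℝ) < 1 / (10 * q) := by positivity
  obtain ⟨cf, f, R, hcf⟩ := hR (|β| ^ q) (hN.trans_le (pow_le_pow_right₀ hβ.le (by omega)))
    (1 / (10 * q)) ha.le (by
      rw [div_mul_eq_mul_div, div_le_one (by positivity)]; linarith)
  refine blockB_of_riesz R hβ hq (q₀ := 1) (h₀ := 1) (by omega) le_rfl (fun i hi => ?_)
    (fun e he => ?_) ?_ fun h hh ε hε => R.sum_sparse hα (fun g hg i he => ?_) hh hε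
  · obtain rfl : i = 0 := by omega
    simp
  · have h1 : |β| ^ e = |β| ^ (0 : ℤ) := by
      rw [← abs_zpow, zpow_zero]
      simp only [Nat.cast_one, one_mul, mem_insert, mem_singleton] at he
      rcases he with h | h <;> rw [h] <;> simp
    have := zpow_right_injective₀ (by linarith) hβ.ne' h1
    omega
  · simp only [range_one, sum_singleton, Nat.cast_one, pow_zero, mul_one]
    rw [hcf 1 (by simp), mul_one, Complex.norm_real, Real.norm_eq_abs, abs_of_pos ha, sq,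
      ← mul_assoc]
    refine mul_lt_of_lt_one_left ha ?_
    rw [mul_one_div, div_lt_one (by positivity)]; linarith
  · refine hirr ⟨(i * q : ℤ) / (g : ℕ), ?_⟩
    have hL := Real.log_pos hβ
    have hg' : (0 : ℝ) < g := by exact_mod_cast hg
    rw [Real.log_pow] at he
    push_cast
    rw [div_eq_div_iff hg'.ne' hL.ne']
    linarith

open Polynomial in
lemma EE_trans {γ : ℝ} (hγ : 1 < γ) (htr : Transcendental ℚ γ) {U : Finset ℝ} {h₀ n₀ m : ℕ}
    (hh₀ : 1 ≤ h₀) (hU : ∀ u ∈ U, ∃ i < n₀, |u| = h₀ * γ ^ i) {x : ℝ} (hx : x ∈ EE U (γ ^ n₀) m)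
    {h : ℕ} {e : ℤ} (he : |x| = h * γ ^ e) : ∃ u ∈ U, ∃ i : ℕ, |u| = h₀ * γ ^ i ∧ e = i ∧ h = h₀ := by
  have hγ0 : 0 < γ := by linarith
  have hsg : ∀ {y z : ℝ} {k : ℕ}, 0 < z → |y| = k * z → ∃ g : ℚ, |g| = k ∧ y = g * z := by
    intro y z k hz hy
    rcases (abs_eq (by positivity)).1 hy with h | h
    · exact ⟨k, by simp, by simpa using h⟩
    · exact ⟨-k, by simp, by simpa using h⟩
  have key : ∀ m, ∀ x ∈ EE U (γ ^ n₀) m, ∃ u ∈ U, ∃ Q : ℚ[X], x = u + γ⁻¹ * aeval γ⁻¹ Q := by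
    intro m
    induction m with
    | zero => exact fun x hx => ⟨x, hx, 0, by simp⟩
    | succ m ih =>
      rintro _ ⟨x, hx, _, ⟨z, hz, v, hv, rfl⟩, rfl⟩
      obtain ⟨u, hu, Q, rfl⟩ := ih x hx
      rcases hz with rfl | ⟨j, rfl⟩
      · exact ⟨u, hu, Q, by simp⟩
      rcases hv with rfl | hv
      · exact ⟨u, hu, Q, by simp⟩
      obtain ⟨i, hi, hvi⟩ := hU v hv
      obtain ⟨g, -, rfl⟩ := hsg (pow_pos hγ0 i) hvi
      obtain ⟨d, hd⟩ : ∃ d, n₀ * (j + 1) = i + d + 1 := ⟨n₀ * (j + 1) - i - 1, by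
        have : n₀ ≤ n₀ * (j + 1) := Nat.le_mul_of_pos_right _ (by omega)
        omega⟩
      refine ⟨u, hu, Q + C g * X ^ d, ?_⟩
      simp only [map_add, map_mul, aeval_C, map_pow, aeval_X, eq_ratCast, inv_pow, ← pow_mul, hd]
      field_simp
      ring
  obtain ⟨u, hu, Q, hQ⟩ := key m x hx
  obtain ⟨i, hi, hui⟩ := hU u hu
  obtain ⟨g₀, hg₀, hu'⟩ := hsg (pow_pos hγ0 i) hui
  obtain ⟨g, hg, hx'⟩ := hsg (zpow_pos hγ0 e) he
  obtain ⟨d, n₁, n₂, h1, h2⟩ : ∃ d n₁ n₂ : ℕ, (d : ℤ) = e + n₁ ∧ d = i + n₂ :=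
    ⟨i + e.toNat, ((i + e.toNat : ℕ) - e).toNat, e.toNat, by omega, rfl⟩
  have htr' : Transcendental ℚ γ⁻¹ := fun h => htr (IsAlgebraic.inv_iff.1 h)
  have hP : C g * X ^ n₁ - C g₀ * X ^ n₂ - X ^ (d + 1) * Q = 0 := by
    refine transcendental_iff.1 htr' _ ?_
    simp only [map_sub, map_mul, aeval_C, map_pow, aeval_X, eq_ratCast]
    have a1 : γ⁻¹ ^ n₁ = γ ^ e * γ⁻¹ ^ d := by
      rw [inv_pow, inv_pow, ← zpow_natCast γ d, h1, zpow_add₀ hγ0.ne', zpow_natCast]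
      field_simp
    have a2 : γ⁻¹ ^ n₂ = γ ^ i * γ⁻¹ ^ d := by
      rw [inv_pow, inv_pow, h2, pow_add]; field_simp
    rw [a1, a2, pow_succ]
    linear_combination (γ⁻¹ ^ d) * (hQ - hx' + hu')
  have hc := congrArg (coeff · n₂) hP
  simp only [coeff_sub, coeff_C_mul, coeff_X_pow, coeff_X_pow_mul', coeff_zero,
    if_neg (show ¬ d + 1 ≤ n₂ by omega), if_true, mul_one, sub_zero] at hc
  have hg₀' : g₀ ≠ 0 := by
    rintro rfl
    rw [abs_zero] at hg₀
    have : h₀ = 0 := by exact_mod_cast hg₀.symm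
    omega
  split_ifs at hc with hn
  · refine ⟨u, hu, i, hui, by omega, ?_⟩
    have : g = g₀ := by linarith
    rw [this, hg₀] at hg
    exact_mod_cast hg.symm
  · exact absurd (by linarith) hg₀'

theorem blockB_trans {α β γ : ℝ} {r s : ℕ} (hγ : 1 < γ) (htr : Transcendental ℚ γ) (hr : 1 ≤ r)
    (hs : 1 ≤ s) (hαγ : |α| = γ ^ s) (hβγ : |β| = γ ^ r) (hαr : α ^ r = γ ^ (r * s))
    (hβs : β ^ s = γ ^ (r * s)) {φ : ℝ → ℂ} {h₀ : ℕ} {κ : ℂ} (hφ : PD φ)
    (hh₀ : 1 ≤ h₀) (hκ : κ ≠ 0) (hφα : ∀ h : ℕ, 1 ≤ h → ∀ n, ∑ i ∈ range r, φ (h * α ^ (n + i)) = 0)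
    (hφβ : ∀ n, ∑ j ∈ range s, φ (h₀ * β ^ (n + j)) = κ) : BlockB α β := by
  classical
  have hγ0 : 0 < γ := by linarith
  have hα : 1 < |α| := hαγ ▸ one_lt_pow₀ hγ (by omega)
  have hβ : 1 < |β| := hβγ ▸ one_lt_pow₀ hγ (by omega)
  have hh₀' : (0 : ℝ) < h₀ := by exact_mod_cast hh₀
  have hκ' : 0 < ‖κ‖ := norm_pos_iff.2 hκ
  set U : Finset ℝ := ((range (r * s)).image fun i => h₀ * γ ^ i) ∪
    ((range (r * s)).image fun i => -(h₀ * γ ^ i)) with hUdef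
  have hU : ∀ x, x ∈ U ↔ ∃ i < r * s, |x| = h₀ * γ ^ i := fun x => by
    simp only [hUdef, mem_union, mem_image, mem_range]
    constructor
    · rintro (⟨i, hi, rfl⟩ | ⟨i, hi, rfl⟩)
      · exact ⟨i, hi, abs_of_pos (by positivity)⟩
      · exact ⟨i, hi, by rw [abs_neg, abs_of_pos (by positivity)]⟩
    · rintro ⟨i, hi, h⟩
      rcases (abs_eq (by positivity)).1 h with h | h
      exacts [Or.inl ⟨i, hi, h.symm⟩, Or.inr ⟨i, hi, h.symm⟩]
  obtain ⟨s₀, M, Λ₀, hR⟩ := exists_RD U (fun h => by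
      obtain ⟨i, -, h⟩ := (hU 0).1 h
      rw [abs_zero] at h
      exact absurd h (by positivity)) (fun u hu => by rwa [hU, abs_neg, ← hU]) φ hφ.norm_le hφ.neg
  obtain ⟨N, hN⟩ := pow_unbounded_of_one_lt Λ₀ hγ
  have hrs : 1 ≤ r * s := Nat.mul_pos hr hs
  have hs' : (0 : ℝ) < (s * (N + 1) : ℕ) := by exact_mod_cast Nat.mul_pos hs (by omega)
  set a : ℝ := min (1 / (U.card + 2)) (‖κ‖ / (10 * (s * (N + 1) : ℕ))) with ha
  have ha0 : 0 < a := by positivity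
  obtain ⟨cf, f, R, hcf⟩ := hR (γ ^ (r * s * (N + 1)))
    (hN.trans_le (pow_le_pow_right₀ hγ.le (by nlinarith))) a ha0.le (by
      rw [← le_div_iff₀ (by positivity)]; exact min_le_left _ _)
  have hmem : ∀ {θ : ℝ} {p q : ℕ}, |θ| = γ ^ p → 1 ≤ p → p * q = r * s → ∀ i < q,
      h₀ * θ ^ i ∈ U := by
    intro θ p q h1 h2 h3 i hi
    refine (hU _).2 ⟨p * i, ?_, by rw [abs_mul, abs_pow, h1, Nat.abs_cast, pow_mul]⟩
    rw [← h3]; exact Nat.mul_lt_mul_of_pos_left hi h2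
  have hrange : ∀ {p q i : ℕ} {e : ℤ}, 1 ≤ p → p * q = r * s → i < r * s → p * e = i →
      0 ≤ e ∧ e < q := by
    intro p q i e h1 h2 h3 h4
    have h5 : (i : ℤ) < p * q := by exact_mod_cast h2 ▸ h3
    have h6 : (0 : ℤ) < p := by exact_mod_cast h1
    exact ⟨nonneg_of_mul_nonneg_right (by rw [h4]; positivity) h6 |> fun h => h,
      lt_of_mul_lt_mul_left (by rw [h4]; exact h5) h6.le⟩
  have habs : ∀ {θ : ℝ} {p : ℕ}, |θ| = γ ^ p → ∀ (h : ℕ) (e : ℤ),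
      |h * θ ^ e| = h * γ ^ ((p : ℤ) * e) := by
    intro θ p h1 h e
    rw [abs_mul, abs_zpow, h1, Nat.abs_cast, zpow_mul, zpow_natCast]
  refine blockB_of_riesz R hβ (q := s * (N + 1)) (q₀ := s) (h₀ := h₀)
    (by rw [pow_mul, hβs, ← pow_mul]) (by nlinarith) hh₀ (hmem hβγ hr rfl) (fun e he => ?_) ?_
    fun h hh ε hε => ?_
  · obtain ⟨i, hi, h1⟩ := (hU _).1 he
    rw [habs hβγ, ← zpow_natCast] at h1
    exact hrange hr rfl hi (zpow_right_injective₀ hγ0 hγ.ne' (mul_left_cancel₀ hh₀'.ne' h1))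
  · rw [sum_congr rfl fun i hi => hcf _ (hmem hβγ hr rfl i (mem_range.1 hi)), ← mul_sum]
    have := hφβ 0
    simp only [zero_add] at this
    rw [this, norm_mul, Complex.norm_real, Real.norm_eq_abs, abs_of_pos ha0, sq, ← mul_assoc,
      mul_comm a]
    gcongr
    have h1 : a ≤ ‖κ‖ / (10 * (s * (N + 1) : ℕ)) := min_le_right _ _
    rw [le_div_iff₀ (by positivity)] at h1
    nlinarith
  · have hq : (0 : ℝ) < (r * (N + 1) : ℕ) := by exact_mod_cast Nat.mul_pos hr (by omega)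
    obtain ⟨m, hm⟩ := R.exists_m (ε := ε / (10 * (r * (N + 1) : ℕ))) (by positivity)
    have := R.sum_exact m hα (q := r * (N + 1)) (q₀ := if h = h₀ then r else 0) (h := h)
      (by rw [pow_mul, hαr, ← pow_mul]) (by split_ifs <;> nlinarith) hh (fun i hi => by
        split_ifs at hi with h1
        · rw [h1]; exact hmem hαγ hs (mul_comm _ _) i hi
        · omega) (fun e he => by
        obtain ⟨u, hu, i, h1, h2, h3⟩ := EE_trans hγ htr hh₀ (fun u hu => by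
          obtain ⟨i, hi, h⟩ := (hU u).1 hu
          exact ⟨i, hi.trans_le (by nlinarith), h⟩) he (habs hαγ h e)
        obtain ⟨i', hi', h4⟩ := (hU u).1 hu
        rw [h1] at h4
        obtain rfl := pow_right_injective₀ hγ0 hγ.ne' (mul_left_cancel₀ hh₀'.ne' h4)
        rw [if_pos h3]
        exact hrange hs (mul_comm _ _) hi' h2) (half_pos hε)
    have hz : ∑ i ∈ range (if h = h₀ then r else 0), cf (h * α ^ i) = 0 := by
      split_ifs with h1
      · rw [h1, sum_congr rfl fun i hi => hcf _ (hmem hαγ hs (mul_comm _ _) i (mem_range.1 hi)),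
          ← mul_sum]
        have := hφα h₀ hh₀ 0
        simp only [zero_add] at this
        rw [this, mul_zero]
      · simp
    rw [hz] at this
    filter_upwards [this] with J hJ c τ hτ
    have h1 := hJ c τ hτ
    rw [mul_zero, sub_zero] at h1
    refine h1.trans (mul_le_mul_of_nonneg_right ?_ (Nat.cast_nonneg _))
    rw [le_div_iff₀ (by positivity)] at hm
    linarith

theorem blockB {α β : ℝ} (hα : 1 < |α|) (hβ : 1 < |β|)
    (hne : (NormalSet α \ NormalSet β).Nonempty) : BlockB α β := by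
  by_cases hirr : Irrational (Real.log |α| / Real.log |β|)
  · exact blockB_irr hα hβ hirr
  obtain ⟨ξ, hξα, hξβ⟩ := hne
  have hLα := Real.log_pos hα
  have hLβ := Real.log_pos hβ
  obtain ⟨x, hx⟩ := not_not.1 hirr
  have hx0 : 0 < x := by
    have : (0 : ℝ) < x := by rw [hx]; positivity
    exact_mod_cast this
  obtain ⟨p, hp⟩ : ∃ p : ℕ, x.num = p := ⟨x.num.toNat, by have := Rat.num_pos.2 hx0; omega⟩
  have hp0 : 1 ≤ p := by have := Rat.num_pos.2 hx0; omega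
  have hq0 : 1 ≤ x.den := x.den_pos
  have hp' : (0 : ℝ) < p := by exact_mod_cast hp0
  have hq' : (0 : ℝ) < x.den := by exact_mod_cast hq0
  rw [Rat.cast_def, hp, div_eq_div_iff hq'.ne' hLβ.ne'] at hx
  push_cast at hx
  set γ := Real.exp (Real.log |α| / (2 * p)) with hγdef
  have hγ : 1 < γ := Real.one_lt_exp_iff.2 (by positivity)
  have hαγ : |α| = γ ^ (2 * p) := by
    rw [hγdef, ← Real.exp_nat_mul]
    push_cast
    rw [mul_div_cancel₀ _ (by positivity), Real.exp_log (by linarith)]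
  have hβγ : |β| = γ ^ (2 * x.den) := by
    rw [hγdef, ← Real.exp_nat_mul, ← Real.exp_log (show 0 < |β| by linarith)]
    congr 1
    push_cast
    field_simp
    linarith
  have hαr : α ^ (2 * x.den) = γ ^ (2 * x.den * (2 * p)) := by
    rw [← (even_two_mul _).pow_abs α, hαγ, ← pow_mul, mul_comm (2 * p)]
  have hβs : β ^ (2 * p) = γ ^ (2 * x.den * (2 * p)) := by
    rw [← (even_two_mul _).pow_abs β, hβγ, ← pow_mul]
  obtain ⟨φ, h₀, κ, hφ, hh₀, hκ, h1, h2⟩ := exists_phi (r := 2 * x.den) (s := 2 * p) (by omega)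
    (by omega) (hαr.trans hβs.symm) hξα hξβ
  by_cases halg : IsAlgebraic ℚ γ
  · exact blockB_alg hγ halg (by omega) (by omega) hαγ hβγ hφ hh₀ hκ h1 h2
  · exact blockB_trans hγ halg (by omega) (by omega) hαγ hβγ hαr hβs hφ hh₀ hκ h1 h2

theorem exists_blockB {α : ℝ} (hα : 1 < |α|) : ∃ α', 1 < |α'| ∧ BlockB α' α := by
  have hL := Real.log_pos hα
  have h1 : 1 < |Real.exp (√2 * Real.log |α|)| := by
    rw [abs_of_pos (Real.exp_pos _)]; exact Real.one_lt_exp_iff.2 (by positivity)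
  refine ⟨_, h1, blockB_irr h1 hα ?_⟩
  rw [abs_of_pos (Real.exp_pos _), Real.log_exp, mul_div_cancel_right₀ _ hL.ne']
  exact irrational_sqrt_two

end Pool.Agent.Lib.MP_3974fb_lc
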