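import Mathlib

/-!
Definitions for the statement: uniform distribution modulo one, `α`-normal numbers, the Borel
classes `Π⁰₃` (the `F_σδ` sets) and `D₂(Π⁰₃)`.
-/

namespace Pool.Agent.Lib.MP_3974fb_lc

open Filter Topology

/-- `x` is uniformly distributed modulo one. -/
def UD (x : ℕ → ℝ) : Prop :=
  ∀ a b : ℝ, 0 ≤ a → a < b → b ≤ 1 →
    Tendsto (fun N : ℕ =>
      (((Finset.range N).filter fun n => a ≤ Int.fract (x n) ∧ Int.fract (x n) < b).card : ℝ) / N)
      atTop (𝓝 (b - a))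

/-- the set of `ξ` with `(ξ α ^ n)` uniformly distributed modulo one. -/
def NormalSet (α : ℝ) : Set ℝ := {ξ | UD fun n => ξ * α ^ n}

/-- countable intersections of countable unions of closed sets. -/
def IsPi03 (A : Set ℝ) : Prop :=
  ∃ F : ℕ → ℕ → Set ℝ, (∀ k m, IsClosed (F k m)) ∧ A = ⋂ k, ⋃ m, F k m

/-- differences of two `Π⁰₃` sets. -/
def IsD2 (D : Set ℝ) : Prop := ∃ A B : Set ℝ, IsPi03 A ∧ IsPi03 B ∧ D = A \ B

end Pool.Agent.Lib.MP_3974fb_lc
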