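import Pool.Agent.Lib.MP_3974fb_lc.Basic

/-! The self-referential nested interval construction. -/

namespace Pool.Agent.Lib.MP_3974fb_lc

open Filter Topology Finset

noncomputable def MM (F : ℕ → ℕ → Set ℝ) (k n : ℕ) (I : Set ℝ) : ℕ :=
  sInf {m | (I ∩ F k m).Nonempty ∨ m = n}

noncomputable def out (F : ℕ → ℕ → Set ℝ) (n : ℕ) (I I' : Set ℝ) : ℕ :=
  sInf {k | MM F k n I ≠ MM F k (n + 1) I' ∨ k = n}

lemma out_le (F : ℕ → ℕ → Set ℝ) (n : ℕ) (I I' : Set ℝ) : out F n I I' ≤ n :=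
  Nat.sInf_le (Or.inr rfl)

lemma out_tendsto {F : ℕ → ℕ → Set ℝ} (hF : ∀ k m, IsClosed (F k m)) {I : ℕ → Set ℝ}
    (hI : ∀ n, I (n + 1) ⊆ I n) {ξ : ℝ} (hξ : ∀ n, ξ ∈ I n)
    (hs : ∀ ε > 0, ∃ n, ∀ z ∈ I n, dist ξ z < ε) :
    Tendsto (fun n => out F n (I n) (I (n + 1))) atTop atTop ↔ ξ ∈ ⋂ k, ⋃ m, F k m := by
  have hanti : Antitone I := antitone_nat_of_succ_le hI
  have hmem : ∀ k n, (I n ∩ F k (MM F k n (I n))).Nonempty ∨ MM F k n (I n) = n := fun k n =>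
    Nat.sInf_mem (s := {m | (I n ∩ F k m).Nonempty ∨ m = n}) ⟨n, Or.inr rfl⟩
  have hmono : ∀ k, Monotone fun n => MM F k n (I n) := fun k => by
    refine monotone_nat_of_le_succ fun n => ?_
    rcases hmem k (n + 1) with h | h
    · exact Nat.sInf_le (Or.inl (h.mono (Set.inter_subset_inter_left _ (hI n))))
    · rw [h]; exact (Nat.sInf_le (Or.inr rfl)).trans (Nat.le_succ n)
  simp only [Set.mem_iInter, Set.mem_iUnion]
  constructor
  · intro H k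
    obtain ⟨n₀, hn₀⟩ := eventually_atTop.1 (tendsto_atTop.1 H (k + 1))
    have hst : ∀ n, n₀ ≤ n → MM F k n (I n) = MM F k n₀ (I n₀) := by
      intro n hn
      induction n, hn using Nat.le_induction with
      | base => rfl
      | succ n hn ih =>
        rw [← ih]
        by_contra hne
        have : out F n (I n) (I (n + 1)) ≤ k := Nat.sInf_le (Or.inl (Ne.symm hne))
        have := hn₀ n hn
        omega
    refine ⟨MM F k n₀ (I n₀), ?_⟩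
    rw [← (hF k _).closure_eq, Metric.mem_closure_iff]
    intro ε hε
    obtain ⟨n, hn⟩ := hs ε hε
    set n' := max n (max n₀ (MM F k n₀ (I n₀) + 1)) with hn'
    rcases hmem k n' with h | h
    · rw [hst n' (by omega)] at h
      obtain ⟨z, hz1, hz2⟩ := h
      exact ⟨z, hz2, hn z (hanti (by omega : n ≤ n') hz1)⟩
    · rw [hst n' (by omega)] at h; omega
  · intro H
    have hst : ∀ k, ∀ᶠ n in atTop, MM F k n (I n) = MM F k (n + 1) (I (n + 1)) := fun k => by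
      obtain ⟨m, hm⟩ := H k
      have hb : ∀ n, MM F k n (I n) ≤ m := fun n => Nat.sInf_le (Or.inl ⟨ξ, hξ n, hm⟩)
      obtain ⟨b, N, hN⟩ := converges_of_monotone_of_bounded (hmono k) hb
      filter_upwards [eventually_ge_atTop N] with n hn
      rw [hN n hn, hN (n + 1) (by omega)]
    refine tendsto_atTop.2 fun K => ?_
    filter_upwards [(eventually_all_finset (range K)).2 fun k _ => hst k, eventually_ge_atTop K]
      with n h1 h2
    by_contra hlt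
    rw [not_le] at hlt
    rcases Nat.sInf_mem (s := {k | MM F k n (I n) ≠ MM F k (n + 1) (I (n + 1)) ∨ k = n})
      ⟨n, Or.inr rfl⟩ with h | h
    · exact h (h1 _ (mem_range.2 hlt))
    · change out F n (I n) (I (n + 1)) = n at h; omega

def Ctl (γ : ℝ) (H : ℕ) (ε ξ τ τ' : ℝ) : Prop :=
  ∀ h : ℕ, 1 ≤ h → h ≤ H → ∀ t, τ ≤ t → t ≤ τ' → ‖SS γ h ξ t - SS γ h ξ τ‖ ≤ ε * t

def PhaseG (α β : ℝ) : Prop :=
  ∀ (H : ℕ) (ε : ℝ), 0 < ε → ∃ τ₀ : ℝ, ∀ c τ τ₁ : ℝ, τ₀ ≤ τ → ∃ c' τ' : ℝ, τ ≤ τ' ∧ τ₁ ≤ τ' ∧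
    II c' τ' ⊆ II c τ ∧ ∀ ξ ∈ II c' τ', Ctl α H ε ξ τ τ' ∧ Ctl β H ε ξ τ τ'

def PhaseB (α β : ℝ) : Prop :=
  ∃ (h₀ : ℕ) (δ : ℝ), 1 ≤ h₀ ∧ 0 < δ ∧ ∀ (H : ℕ) (ε : ℝ), 0 < ε → ∃ τ₀ : ℝ, ∀ c τ θ : ℝ,
    τ₀ ≤ τ → ε ≤ θ → ∃ c' τ' : ℝ, τ ≤ τ' ∧ τ' ≤ (1 + θ) * τ ∧ II c' τ' ⊆ II c τ ∧
      ∀ ξ ∈ II c' τ', Ctl α H ε ξ τ τ' ∧ δ * θ * τ ≤ ‖SS β h₀ ξ τ' - SS β h₀ ξ τ‖

lemma small_of_stages {s : ℝ → ℂ} {τ b η : ℕ → ℝ} {C : ℝ} (_hC : 0 < C)
    (hs : ∀ t, 1 ≤ t → ‖s t‖ ≤ C * t)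
    (hτ : Tendsto τ atTop atTop) (h1 : ∀ n, 1 ≤ τ n) (hτb : ∀ n, τ n ≤ b n)
    (hb : ∀ n : ℕ, ((n : ℝ) + 1) * b n ≤ τ (n + 1)) (hη : Tendsto η atTop (𝓝 0))
    (hA : ∀ᶠ n in atTop, ∀ t, τ n ≤ t → t ≤ b n → ‖s t - s (τ n)‖ ≤ η n * t)
    (hB : ∀ᶠ n in atTop, ∀ t, b n ≤ t → t ≤ τ (n + 1) → ‖s t - s (b n)‖ ≤ η n * t) :
    ∀ ε > 0, ∀ᶠ t in atTop, ‖s t‖ ≤ ε * t := by
  intro ε hε
  have hbτ : ∀ n, b n ≤ τ (n + 1) := fun n => by
    have := hb n; have := hτb n; have := h1 n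
    have : (0 : ℝ) ≤ n := n.cast_nonneg
    nlinarith
  have hmono : Monotone τ := monotone_nat_of_le_succ fun n => (hτb n).trans (hbτ n)
  have hη' : ∀ᶠ n in atTop, η n ≤ ε / 4 :=
    (hη.eventually (gt_mem_nhds (by positivity : (0 : ℝ) < ε / 4))).mono fun _ h => h.le
  have hC' : ∀ᶠ n : ℕ in atTop, 4 * C / ε ≤ n := tendsto_natCast_atTop_atTop.eventually_ge_atTop _
  obtain ⟨n₀, hn₀⟩ := eventually_atTop.1 (hA.and (hB.and (hη'.and hC')))
  have hend : ∀ n, n₀ ≤ n → ‖s (τ (n + 1))‖ ≤ ε / 2 * τ (n + 1) := fun n hn => by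
    obtain ⟨-, h2, h3, h4⟩ := hn₀ n hn
    have a1 := h2 _ (hbτ n) le_rfl
    have a2 := hs (b n) ((h1 n).trans (hτb n))
    have a3 : C * b n ≤ ε / 4 * τ (n + 1) := by
      rw [div_le_iff₀ hε] at h4
      have : 0 ≤ b n := by linarith [h1 n, hτb n]
      calc C * b n ≤ (ε / 4 * (n + 1)) * b n := by gcongr; nlinarith
        _ = ε / 4 * ((n + 1) * b n) := by ring
        _ ≤ _ := by gcongr; exact hb n
    have a4 : η n * τ (n + 1) ≤ ε / 4 * τ (n + 1) := by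
      have := h1 (n + 1); gcongr
    have := norm_add_le (s (τ (n + 1)) - s (b n)) (s (b n))
    rw [sub_add_cancel] at this
    linarith
  filter_upwards [eventually_ge_atTop (τ (n₀ + 1))] with t ht
  have hex : ∃ n, t < τ n := ((hτ.eventually_gt_atTop t).exists)
  classical
  obtain ⟨n, hn1, hn2, hn3⟩ : ∃ n, n₀ ≤ n ∧ τ (n + 1) ≤ t ∧ t < τ (n + 2) := by
    have h2 := Nat.find_spec hex
    have h3 : n₀ + 1 < Nat.find hex := by
      by_contra h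
      exact absurd (hmono (not_lt.1 h)) (by linarith)
    refine ⟨Nat.find hex - 2, by omega, ?_, ?_⟩
    · exact not_lt.1 (Nat.find_min hex (by omega))
    · rwa [show Nat.find hex - 2 + 2 = Nat.find hex by omega]
  have e1 := hend n hn1
  obtain ⟨h2, h3, h4, -⟩ := hn₀ (n + 1) (by omega)
  have ht1 : 1 ≤ t := (h1 _).trans hn2
  have e2 : ε / 2 * τ (n + 1) ≤ ε / 2 * t := by gcongr
  have e3 : η (n + 1) * t ≤ ε / 4 * t := by gcongr
  rcases le_total t (b (n + 1)) with h | h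
  · have a := h2 t hn2 h
    have := norm_add_le (s t - s (τ (n + 1))) (s (τ (n + 1)))
    rw [sub_add_cancel] at this
    nlinarith
  · have a := h3 t h hn3.le
    have a' := h2 _ (hτb _) le_rfl
    have e4 : η (n + 1) * b (n + 1) ≤ ε / 4 * t := by
      calc _ ≤ ε / 4 * b (n + 1) := by
            have := (h1 _).trans (hτb (n + 1)); gcongr
        _ ≤ _ := by gcongr
    have := norm_add₃_le (a := s t - s (b (n + 1))) (b := s (b (n + 1)) - s (τ (n + 1)))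
      (c := s (τ (n + 1)))
    rw [sub_add_sub_cancel, sub_add_cancel] at this
    linarith

lemma tendsto_of_jump {s : ℝ → ℂ} {τ a : ℕ → ℝ} {x : ℕ → ℕ} {δ : ℝ} (hδ : 0 < δ)
    (hτ : Tendsto τ atTop atTop) (h1 : ∀ n, τ n ≤ a n) (h2 : ∀ n, a n ≤ 2 * τ n)
    (hj : ∀ n, δ * (1 / ((x n : ℝ) + 1)) * τ n ≤ ‖s (a n) - s (τ n)‖)
    (hs : ∀ ε > 0, ∀ᶠ t in atTop, ‖s t‖ ≤ ε * t) : Tendsto x atTop atTop := by
  refine tendsto_atTop.2 fun K => ?_
  have hK : (0 : ℝ) < K + 1 := by positivity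
  obtain ⟨t₀, ht₀⟩ := eventually_atTop.1 (hs (δ / (4 * (K + 1))) (by positivity))
  filter_upwards [hτ.eventually_ge_atTop t₀, hτ.eventually_gt_atTop 0] with n hn hn0
  by_contra hlt
  rw [not_le] at hlt
  have a1 := ht₀ _ hn
  have a2 := ht₀ _ (hn.trans (h1 n))
  have a3 := norm_sub_le (s (a n)) (s (τ n))
  have a4 : δ * (1 / ((K : ℝ) + 1)) * τ n ≤ δ * (1 / ((x n : ℝ) + 1)) * τ n := by
    have : (x n : ℝ) ≤ K := by exact_mod_cast hlt.le
    gcongr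
  have a5 : δ / (4 * (K + 1)) * a n ≤ δ / (4 * (K + 1)) * (2 * τ n) := by
    gcongr; exact h2 n
  have a6 : δ * (1 / ((K : ℝ) + 1)) * τ n = 4 * (δ / (4 * (K + 1)) * τ n) := by field_simp
  have a7 : 0 < δ / (4 * (K + 1)) * τ n := by positivity
  have := hj n
  nlinarith

lemma mem_II_self (c τ : ℝ) : c ∈ II c τ := ⟨le_rfl, by linarith [Real.exp_pos (-τ)]⟩

theorem not_isD2_compl {α α' β : ℝ} (hα : 1 < |α|) (hβ : 1 < |β|) (hG : PhaseG α β)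
    (hA : PhaseB α' α) (hB : PhaseB α β) : ¬ IsD2 (NormalSet α \ NormalSet β)ᶜ := by
  rintro ⟨A, B, ⟨FA, hFA, rfl⟩, ⟨FB, hFB, rfl⟩, hD⟩
  obtain ⟨hA₀, δA, hA1, hδA, hA⟩ := hA
  obtain ⟨hB₀, δB, hB1, hδB, hB⟩ := hB
  have hε : ∀ n : ℕ, (0 : ℝ) < 1 / ((n : ℝ) + 1) := fun n => by positivity
  choose TG hTG using fun n : ℕ => hG n _ (hε n)
  choose TA hTA using fun n : ℕ => hA n _ (hε n)
  choose TB hTB using fun n : ℕ => hB n _ (hε n)
  set T : ℕ → ℝ := fun n => max (max (TG n) (TA n)) (max (TB n) (n + 1)) with hT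
  have hstep : ∀ (n : ℕ) (p : ℝ × ℝ) (x y : ℕ), ∃ (q : ℝ × ℝ) (a b : ℝ), T n ≤ p.2 → x ≤ n → y ≤ n →
      p.2 ≤ a ∧ a ≤ (1 + 1 / ((x : ℝ) + 1)) * p.2 ∧ a ≤ b ∧ b ≤ (1 + 1 / ((y : ℝ) + 1)) * a ∧
      ((n : ℝ) + 1) * b ≤ q.2 ∧ T (n + 1) ≤ q.2 ∧ II q.1 q.2 ⊆ II p.1 p.2 ∧ ∀ ξ ∈ II q.1 q.2,
        δA * (1 / ((x : ℝ) + 1)) * p.2 ≤ ‖SS α hA₀ ξ a - SS α hA₀ ξ p.2‖ ∧
        Ctl α n (1 / ((n : ℝ) + 1)) ξ a b ∧
        δB * (1 / ((y : ℝ) + 1)) * a ≤ ‖SS β hB₀ ξ b - SS β hB₀ ξ a‖ ∧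
        Ctl α n (1 / ((n : ℝ) + 1)) ξ b q.2 ∧ Ctl β n (1 / ((n : ℝ) + 1)) ξ b q.2 := by
    intro n p x y
    by_cases h : T n ≤ p.2 ∧ x ≤ n ∧ y ≤ n
    swap
    · exact ⟨p, 0, 0, fun h1 h2 h3 => absurd ⟨h1, h2, h3⟩ h⟩
    obtain ⟨h1, h2, h3⟩ := h
    simp only [hT, max_le_iff] at h1
    have h2' : (x : ℝ) ≤ n := by exact_mod_cast h2
    have h3' : (y : ℝ) ≤ n := by exact_mod_cast h3
    obtain ⟨c₁, a, a1, a2, a3, a4⟩ := hTA n p.1 p.2 (1 / ((x : ℝ) + 1)) h1.1.2 (by gcongr)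
    obtain ⟨c₂, b, b1, b2, b3, b4⟩ := hTB n c₁ a (1 / ((y : ℝ) + 1)) (h1.2.1.trans a1) (by gcongr)
    obtain ⟨c₃, d, d1, d2, d3, d4⟩ := hTG n c₂ b (max (((n : ℝ) + 1) * b) (T (n + 1)))
      (h1.1.1.trans (a1.trans b1))
    refine ⟨(c₃, d), a, b, fun _ _ _ => ⟨a1, a2, b1, b2, (le_max_left _ _).trans d2,
      (le_max_right _ _).trans d2, d3.trans (b3.trans a3), fun ξ hξ => ⟨(a4 ξ (b3 (d3 hξ))).2,
      (b4 ξ (d3 hξ)).1, (b4 ξ (d3 hξ)).2, (d4 ξ hξ).1, (d4 ξ hξ).2⟩⟩⟩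
  choose q a b hq using hstep
  let P : ℕ → (ℝ × ℝ) × (ℝ × ℝ) := fun n => Nat.rec ((0, T 0), (0, T 0))
    (fun n p => (p.2, q n p.2 (out FA n (II p.1.1 p.1.2) (II p.2.1 p.2.2))
      (out FB n (II p.1.1 p.1.2) (II p.2.1 p.2.2)))) n
  let I : ℕ → Set ℝ := fun n => II (P n).1.1 (P n).1.2
  let x : ℕ → ℕ := fun n => out FA n (I n) (I (n + 1))
  let y : ℕ → ℕ := fun n => out FB n (I n) (I (n + 1))
  let τ : ℕ → ℝ := fun n => (P n).2.2
  have hP : ∀ n, (P (n + 1)).2 = q n (P n).2 (x n) (y n) := fun n => rfl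
  have hI1 : ∀ n, I (n + 1) = II (P n).2.1 (τ n) := fun n => rfl
  have hTτ : ∀ n, T n ≤ τ n := by
    intro n
    induction n with
    | zero => exact le_rfl
    | succ n ih => exact (hq n (P n).2 (x n) (y n) ih (out_le _ _ _ _) (out_le _ _ _ _)).2.2.2.2.2.1
  have hQ := fun n => hq n (P n).2 (x n) (y n) (hTτ n) (out_le _ _ _ _) (out_le _ _ _ _)
  set A : ℕ → ℝ := fun n => a n (P n).2 (x n) (y n) with hAdef
  set B : ℕ → ℝ := fun n => b n (P n).2 (x n) (y n) with hBdef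
  have hτn : ∀ n : ℕ, (n : ℝ) + 1 ≤ τ n := fun n =>
    le_trans (le_trans (le_max_right _ _) (le_max_right _ _)) (hTτ n)
  have hτ1 : ∀ n, 1 ≤ τ n := fun n => by linarith [hτn n, (n.cast_nonneg : (0 : ℝ) ≤ n)]
  have hτ : Tendsto τ atTop atTop :=
    tendsto_atTop_mono (fun n => by linarith [hτn n]) tendsto_natCast_atTop_atTop
  have hI : ∀ n, I (n + 1) ⊆ I n := by
    intro n
    cases n with
    | zero => exact subset_rfl
    | succ n => exact (hQ n).2.2.2.2.2.2.1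
  obtain ⟨ξ, hξ⟩ := IsCompact.nonempty_iInter_of_sequence_nonempty_isCompact_isClosed I hI
    (fun n => ⟨_, mem_II_self _ _⟩) isCompact_Icc (fun n => isClosed_Icc)
  rw [Set.mem_iInter] at hξ
  have hs : ∀ ε > 0, ∃ n, ∀ z ∈ I n, dist ξ z < ε := by
    intro ε hε
    have : Tendsto (fun n => Real.exp (-τ n)) atTop (𝓝 0) :=
      Real.tendsto_exp_neg_atTop_nhds_zero.comp hτ
    obtain ⟨n, hn⟩ := (this.eventually (gt_mem_nhds hε)).exists
    refine ⟨n + 1, fun z hz => lt_of_le_of_lt ?_ hn⟩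
    have h1 := hξ (n + 1)
    rw [hI1] at h1 hz
    rw [Real.dist_eq, abs_le]
    constructor <;> linarith [h1.1, h1.2, hz.1, hz.2]
  have hx := out_tendsto hFA hI hξ hs
  have hy := out_tendsto hFB hI hξ hs
  have hR := fun n => (hQ n).2.2.2.2.2.2.2 ξ (hξ (n + 2))
  have q1 : ∀ n, τ n ≤ A n := fun n => (hQ n).1
  have q2 : ∀ n, A n ≤ (1 + 1 / ((x n : ℝ) + 1)) * τ n := fun n => (hQ n).2.1
  have q3 : ∀ n, A n ≤ B n := fun n => (hQ n).2.2.1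
  have q4 : ∀ n, B n ≤ (1 + 1 / ((y n : ℝ) + 1)) * A n := fun n => (hQ n).2.2.2.1
  have q5 : ∀ n : ℕ, ((n : ℝ) + 1) * B n ≤ τ (n + 1) := fun n => (hQ n).2.2.2.2.1
  have hle1 : ∀ k : ℕ, 1 / ((k : ℝ) + 1) ≤ 1 := fun k => by
    rw [div_le_one (by positivity)]; linarith [(k.cast_nonneg : (0 : ℝ) ≤ k)]
  have hA' : Tendsto A atTop atTop := tendsto_atTop_mono q1 hτ
  have n1 : ξ ∈ NormalSet α → Tendsto x atTop atTop := fun h =>
    tendsto_of_jump (s := SS α hA₀ ξ) hδA hτ q1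
      (fun n => by have := q2 n; have := hle1 (x n); have := hτ1 n; nlinarith)
      (fun n => (hR n).1) ((normal_iff hα).1 h _ hA1)
  have n2 : ξ ∈ NormalSet β → Tendsto y atTop atTop := fun h =>
    tendsto_of_jump (s := SS β hB₀ ξ) hδB hA' q3
      (fun n => by have := q4 n; have := hle1 (y n); have := hτ1 n; have := q1 n; nlinarith)
      (fun n => (hR n).2.2.1) ((normal_iff hβ).1 h _ hB1)
  have hlin : ∀ {γ : ℝ}, 1 < |γ| → ∀ h t, 1 ≤ t → ‖SS γ h ξ t‖ ≤ (1 / Real.log |γ| + 1) * t := by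
    intro γ hγ h t ht
    refine (norm_SS hγ h ξ (by linarith)).trans ?_
    rw [add_mul, div_mul_eq_mul_div, one_mul]; linarith
  have hinv : ∀ {z : ℕ → ℕ}, Tendsto z atTop atTop →
      Tendsto (fun n => 1 / ((z n : ℝ) + 1)) atTop (𝓝 0) := fun hz =>
    tendsto_one_div_add_atTop_nhds_zero_nat.comp hz
  have hone : ∀ (n : ℕ) (t : ℝ), τ n ≤ t → 1 ≤ 1 / ((n : ℝ) + 1) * t := fun n t ht => by
    rw [div_mul_eq_mul_div, one_mul, le_div_iff₀ (by positivity)]; linarith [hτn n]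
  have hpush : ∀ {γ : ℝ}, 1 < |γ| → ∀ (h n k : ℕ) (u v t t' : ℝ), τ n ≤ u →
      v ≤ (1 + 1 / ((k : ℝ) + 1)) * u → u ≤ t → t ≤ v → t ≤ t' →
      ‖SS γ h ξ t - SS γ h ξ u‖ ≤
        (1 / ((k : ℝ) + 1) / Real.log |γ| + 1 / ((n : ℝ) + 1)) * t' := by
    intro γ hγ h n k u v t t' h1 h2 h3 h4 h5
    have hL := Real.log_pos hγ
    refine (norm_SS_sub hγ h ξ (by linarith [hτ1 n]) h3).trans ?_
    have a1 := hone n t' (by linarith)
    have a2 : (t - u) / Real.log |γ| ≤ 1 / ((k : ℝ) + 1) / Real.log |γ| * t' := by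
      rw [div_mul_eq_mul_div]
      refine div_le_div_of_nonneg_right ?_ hL.le
      have : 1 / ((k : ℝ) + 1) * u ≤ 1 / ((k : ℝ) + 1) * t' := by
        have := hε k; gcongr; linarith
      linarith
    linarith
  have n3 : Tendsto x atTop atTop → ξ ∈ NormalSet α := by
    intro hx
    have hL := Real.log_pos hα
    rw [normal_iff hα]
    intro h hh
    refine small_of_stages (η := fun n => 1 / ((x n : ℝ) + 1) / Real.log |α| + 1 / ((n : ℝ) + 1) +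
      1 / ((n : ℝ) + 1)) (by positivity) (hlin hα h) hτ hτ1 (fun n => (q1 n).trans (q3 n)) q5 ?_
      ?_ ?_
    · simpa using (((hinv hx).div_const (Real.log |α|)).add (hinv tendsto_id)).add (hinv tendsto_id)
    · filter_upwards [eventually_ge_atTop h] with n hn t h1 h2
      have ht : 0 ≤ 1 / ((n : ℝ) + 1) * t := by linarith [hone n t h1]
      rcases le_total t (A n) with h3 | h3
      · have := hpush hα h n (x n) (τ n) (A n) t t le_rfl (q2 n) h1 h3 le_rfl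
        linarith
      · have a1 := hpush hα h n (x n) (τ n) (A n) (A n) t le_rfl (q2 n) (q1 n) le_rfl h3
        have a2 := (hR n).2.1 h hh hn t h3 h2
        have := norm_add_le (SS α h ξ t - SS α h ξ (A n)) (SS α h ξ (A n) - SS α h ξ (τ n))
        rw [sub_add_sub_cancel] at this
        linarith
    · filter_upwards [eventually_ge_atTop h] with n hn t h1 h2
      refine ((hR n).2.2.2.1 h hh hn t h1 h2).trans ?_
      have : 0 ≤ t := by linarith [hτ1 n, q1 n, q3 n]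
      gcongr
      have : 0 ≤ 1 / ((x n : ℝ) + 1) / Real.log |α| + 1 / ((n : ℝ) + 1) := by positivity
      linarith
  have n4 : Tendsto x atTop atTop → Tendsto y atTop atTop → ξ ∈ NormalSet β := by
    intro hx hy
    have hL := Real.log_pos hβ
    rw [normal_iff hβ]
    intro h hh
    refine small_of_stages (η := fun n => (1 / ((x n : ℝ) + 1) / Real.log |β| + 1 / ((n : ℝ) + 1)) +
      (1 / ((y n : ℝ) + 1) / Real.log |β| + 1 / ((n : ℝ) + 1))) (by positivity) (hlin hβ h) hτ hτ1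
      (fun n => (q1 n).trans (q3 n)) q5 ?_ ?_ ?_
    · simpa using (((hinv hx).div_const (Real.log |β|)).add (hinv tendsto_id)).add
        (((hinv hy).div_const (Real.log |β|)).add (hinv tendsto_id))
    · refine Eventually.of_forall fun n t h1 h2 => ?_
      have ht0 : 0 ≤ t := by linarith [hτ1 n]
      rcases le_total t (A n) with h3 | h3
      · have := hpush hβ h n (x n) (τ n) (A n) t t le_rfl (q2 n) h1 h3 le_rfl
        have : 0 ≤ (1 / ((y n : ℝ) + 1) / Real.log |β| + 1 / ((n : ℝ) + 1)) * t := by positivity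
        linarith
      · have a1 := hpush hβ h n (x n) (τ n) (A n) (A n) t le_rfl (q2 n) (q1 n) le_rfl h3
        have a2 := hpush hβ h n (y n) (A n) (B n) t t (q1 n) (q4 n) h3 h2 le_rfl
        have := norm_add_le (SS β h ξ t - SS β h ξ (A n)) (SS β h ξ (A n) - SS β h ξ (τ n))
        rw [sub_add_sub_cancel] at this
        linarith
    · filter_upwards [eventually_ge_atTop h] with n hn t h1 h2
      refine ((hR n).2.2.2.2 h hh hn t h1 h2).trans ?_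
      have : 0 ≤ t := by linarith [hτ1 n, q1 n, q3 n]
      gcongr
      have : 0 ≤ 1 / ((x n : ℝ) + 1) / Real.log |β| + 1 / ((n : ℝ) + 1) := by positivity
      have : 0 ≤ 1 / ((y n : ℝ) + 1) / Real.log |β| := by positivity
      linarith
  have key : ξ ∈ (NormalSet α \ NormalSet β)ᶜ ↔ ξ ∈ NormalSet α \ NormalSet β := by
    rw [hD, Set.mem_sdiff, ← hx, ← hy]
    exact ⟨fun h => ⟨n3 h.1, fun h' => h.2 (n2 h')⟩, fun h => ⟨n1 h.1, fun h' => h.2 (n4 (n1 h.1) h')⟩⟩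
  exact not_iff_self key

end Pool.Agent.Lib.MP_3974fb_lc
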