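import Pool.Agent.Lib.MP_3974fb_lc.JointAlg0

/-! The algebraic block, neutral for dependent and for independent bases at once. -/

namespace Pool.Agent.Lib.MP_3974fb_lc

open Filter Topology Finset

theorem blockT_alg {β γ : ℝ} {r s Q₀ : ℕ} (hγ : 1 < γ) (halg : IsAlgebraic ℚ γ) (hr : 1 ≤ r)
    (hs : 1 ≤ s) (hβγ : |β| = γ ^ r) {φ : ℝ → ℂ} {h₀ : ℕ} {κ : ℂ} (hφ : PD φ)
    (hh₀ : 1 ≤ h₀) (hκ : κ ≠ 0)
    (hφβ : ∀ n, ∑ j ∈ range s, φ (h₀ * β ^ (n + j)) = κ) : BlockT β (Neu γ Q₀ φ) := by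
  classical
  have hγ0 : 0 < γ := by linarith
  have hβ : 1 < |β| := hβγ ▸ one_lt_pow₀ hγ (by omega)
  have hL := Real.log_pos hγ
  have hr' : (1 : ℝ) ≤ r := by exact_mod_cast hr
  have hs' : (1 : ℝ) ≤ s := by exact_mod_cast hs
  have hκ' : 0 < ‖κ‖ := norm_pos_iff.2 hκ
  obtain ⟨C₂, C₃, hF⟩ := exists_folner hγ halg h₀
  set C₅ : ℕ := C₂ + 2 * C₃ + 1 with hC₅
  set G₀ : ℕ := C₃ + C₅ + 1 with hG₀
  set lam : ℝ := (G₀ + 1) * r * Real.log γ with hlam
  have hlam0 : 0 < lam := by positivity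
  have hω : ‖(starRingEnd ℂ) κ / ‖κ‖‖ ≤ 1 := by
    rw [norm_div, Complex.norm_conj, Complex.norm_real, norm_norm, div_self hκ'.ne']
  refine ⟨h₀, (starRingEnd ℂ) κ / ‖κ‖, ‖κ‖ / (4 * s * lam), hh₀, hω, by positivity,
    fun S hS H ε hε w₀ => ?_⟩
  set D : ℝ := ∑ θ ∈ S, CC θ with hD
  have hD0 : 0 ≤ D := sum_nonneg fun θ h => (CC_pos (hS θ h).1).le
  have hDi : ∀ θ ∈ S, CC θ ≤ D := fun θ h =>
    single_le_sum (f := CC) (fun θ h => (CC_pos (hS θ h).1).le) h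
  set Λs : ℝ := ∑ θ ∈ S, (Real.log |θ|)⁻¹ with hΛs
  have hΛ0 : 0 ≤ Λs := sum_nonneg fun θ h => (inv_pos.2 (Real.log_pos (hS θ h).1)).le
  have hΛi : ∀ θ ∈ S, (Real.log |θ|)⁻¹ ≤ Λs := fun θ h =>
    single_le_sum (f := fun θ => (Real.log |θ|)⁻¹)
      (fun θ h => (inv_pos.2 (Real.log_pos (hS θ h).1)).le) h
  have hcw : ∀ θ ∈ S, ∀ τ w : ℝ, 0 ≤ τ → 0 ≤ w → ((win θ τ w).card : ℝ) ≤ Λs * w + 1 := by
    intro θ hθ τ w hτ hw
    refine (card_win (hS θ hθ).1 hτ (by linarith : τ ≤ τ + w)).trans ?_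
    rw [add_sub_cancel_left, div_eq_mul_inv, mul_comm]
    have := hΛi θ hθ
    gcongr
  obtain ⟨Q, hQ⟩ := exists_nat_ge (max 1 (max (8 * Q₀ * Λs / ε) (16 * r * s ^ 2 * (G₀ + 1) / ‖κ‖)))
  simp only [max_le_iff] at hQ
  obtain ⟨hQ1, hQ2, hQ3⟩ := hQ
  have hQ1' : 1 ≤ Q := by exact_mod_cast hQ1
  have hQ0 : (0 : ℝ) < Q := by linarith
  rw [div_le_iff₀ (by positivity)] at hQ2 hQ3
  have hT : Tendsto (fun N : ℕ => r * N) atTop atTop := tendsto_id.const_mul_atTop' (by omega)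
  have hcast : ∀ a : ℝ, ∀ᶠ N : ℕ in atTop, a ≤ N := fun a =>
    tendsto_natCast_atTop_atTop.eventually_ge_atTop a
  obtain ⟨K', ⟨F, hFne, hFc, hFρ, hFsep⟩, k1, k2, k3, k3', k4, k5, k6, k7, k8⟩ :=
    ((hT.eventually hF).and ((hT.eventually (eventually_lin_le_pow 0 H (one_lt_two (α := ℝ)))).and
    ((hT.eventually (eventually_lin_le_pow 0 h₀ (one_lt_two (α := ℝ)))).and
    ((hT.eventually (eventually_lin_le_pow (G₀ + 1) 2 hγ)).and
    ((hT.eventually (eventually_lin_le_pow (Λs * lam) 1 hγ)).and ((hcast (w₀ / lam)).and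
    ((hcast (2 * (D + 1 + 4 * Q₀) / (ε * lam))).and
    ((hcast ((‖κ‖ * (Q + 1) / (2 * s) + 2 * s + 2 * (r * s) + CC β + 1) / (‖κ‖ / (8 * s)))).and
    ((eventually_ge_atTop (Q + 1)).and (hT.eventually (eventually_lin_le_pow 0
      (48 * (S.card * H) * Λs / (ε * Real.log γ)) hγ))))))))))).exists
  set K := r * K' with hK
  set w : ℝ := K' * lam with hw
  have hwK : w = ((G₀ * K + K : ℕ) : ℝ) * Real.log γ := by rw [hw, hlam, hK]; push_cast; ring
  have hw0 : 0 ≤ w := by positivity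
  rw [zero_mul, zero_add] at k1 k2 k8
  have hγK : 0 < γ ^ K := pow_pos hγ0 _
  have hK0 : (0 : ℝ) ≤ (G₀ + 1) * K := by positivity
  have hKK : (K' : ℝ) ≤ K := by
    rw [hK]; push_cast; exact le_mul_of_one_le_left (Nat.cast_nonneg _) hr'
  have hγK2 : 2 ≤ γ ^ K := by linarith
  set E : ℝ := (γ ^ K)⁻¹ with hE
  set G : ℝ := γ ^ (C₅ * K) with hG
  have hG0 : 0 < G := pow_pos hγ0 _
  -- the exceptional frequencies
  set V : Finset ℝ := ((F ×ˢ F).image fun p => p.1 - p.2).erase 0 with hV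
  have hVm : ∀ v ∈ V, (γ ^ (C₂ * K))⁻¹ ≤ |v| := by
    intro v hv
    obtain ⟨h0, hv⟩ := mem_erase.1 hv
    obtain ⟨p, hp, rfl⟩ := mem_image.1 hv
    have := hFsep _ (mem_product.1 hp).1 _ (mem_product.1 hp).2 (sub_ne_zero.1 h0) 0 0 0 0
      (by simp) (by simp) (by omega) (by simpa using h0)
    rw [pow_zero, one_mul, zero_sub, abs_neg] at this
    rw [inv_le_iff_one_le_mul₀ (by positivity)]
    exact this
  have hVc : (V.card : ℝ) ≤ γ ^ (2 * C₃ * K) := by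
    have h1 : V.card ≤ F.card * F.card :=
      card_erase_le.trans (card_image_le.trans (card_product F F).le)
    have h2 : (V.card : ℝ) ≤ F.card * F.card := by exact_mod_cast h1
    refine h2.trans ?_
    rw [show 2 * C₃ * K = C₃ * K + C₃ * K by ring, pow_add]
    gcongr
  have hGe : G = γ ^ (C₂ * K) * γ ^ (2 * C₃ * K) * γ ^ K := by
    rw [hG, ← pow_add, ← pow_add]; congr 1; rw [hC₅]; ring
  have hηm : 2 * G⁻¹ ≤ (γ ^ (C₂ * K))⁻¹ := by
    have h1 : 1 ≤ γ ^ (2 * C₃ * K) := one_le_pow₀ hγ.le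
    rw [← div_eq_mul_inv, div_le_iff₀ hG0, hGe, mul_assoc, inv_mul_cancel_left₀ (by positivity)]
    exact hγK2.trans (le_mul_of_one_le_left hγK.le h1)
  obtain ⟨Bad, hBad⟩ : ∃ Bad : ℝ → ℕ → ℕ → Prop, ∀ θ h n, Bad θ h n ↔
      Irrational (Real.log |θ| / Real.log γ) ∧ ∃ j : ℕ, ∃ v ∈ V, |h * θ ^ n / γ ^ j - v| < G⁻¹ :=
    ⟨_, fun _ _ _ => Iff.rfl⟩
  have hcount : ∀ θ ∈ S, ∀ h ∈ Icc 1 H, ∃ C : ℝ, ∀ τ w' : ℝ, 0 ≤ τ → 0 ≤ w' →
      (((win θ τ w').filter (Bad θ h)).card : ℝ) ≤ 24 / (γ ^ K * Real.log γ) * Λs * w' + C := by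
    intro θ hθ h hh
    by_cases hirr : Irrational (Real.log |θ| / Real.log γ)
    · obtain ⟨C, hC⟩ := bad_count (hS θ hθ).1 hγ hirr (mem_Icc.1 hh).1 V (inv_pos.2 hG0) hηm hVm
      refine ⟨24 / (γ ^ K * Real.log γ) + C, fun τ w' hτ hw' => ?_⟩
      refine (hC _ _ _ (filter_subset _ _) fun n hn =>
        ((hBad _ _ _).1 (mem_filter.1 hn).2).2).trans ?_
      have h1 : (V.card : ℝ) * (24 * G⁻¹ / ((γ ^ (C₂ * K))⁻¹ * Real.log γ)) ≤
          24 / (γ ^ K * Real.log γ) := by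
        calc _ ≤ γ ^ (2 * C₃ * K) * (24 * G⁻¹ / ((γ ^ (C₂ * K))⁻¹ * Real.log γ)) := by gcongr
          _ = _ := by rw [hGe]; field_simp
      have h2 := hcw θ hθ τ w' hτ hw'
      calc _ ≤ 24 / (γ ^ K * Real.log γ) * (Λs * w' + 1) + C := by
            gcongr
            exact h2
        _ = _ := by ring
    · refine ⟨0, fun τ w' _ hw' => ?_⟩
      rw [filter_eq_empty_iff.2 fun n _ h => hirr ((hBad _ _ _).1 h).1, card_empty, Nat.cast_zero]
      positivity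
  choose! Cb hCb using hcount
  refine ⟨w, by rwa [div_le_iff₀ hlam0] at k4,
    fun τ => ∑ θ ∈ S, ∑ h ∈ Icc 1 H, 2 * (((win θ τ w).filter (Bad θ h)).card : ℝ),
    ∑ θ ∈ S, ∑ h ∈ Icc 1 H, 2 * Cb θ h, fun τ hτ L => ?_, fun c τ hτ => ?_⟩
  · rw [sum_comm]
    have h1 : ∀ θ ∈ S, ∑ k ∈ range L, ∑ h ∈ Icc 1 H,
        2 * (((win θ (τ + k * w) w).filter (Bad θ h)).card : ℝ) ≤
        ∑ h ∈ Icc 1 H, (48 / (γ ^ K * Real.log γ) * Λs * (L * w) + 2 * Cb θ h) := by
      intro θ hθ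
      rw [sum_comm]
      refine sum_le_sum fun h hh => ?_
      rw [← mul_sum, sum_card_win (hS θ hθ).1 _ τ hw0]
      have := hCb θ hθ h hh τ (L * w) hτ (by positivity)
      have e : 48 / (γ ^ K * Real.log γ) * Λs * (L * w) =
          2 * (24 / (γ ^ K * Real.log γ) * Λs * (L * w)) := by ring
      linarith
    refine (sum_le_sum h1).trans ?_
    simp only [sum_add_distrib, sum_const, nsmul_eq_mul, Nat.card_Icc, Nat.add_sub_cancel]
    refine add_le_add ?_ le_rfl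
    rw [div_le_iff₀ (by positivity)] at k8
    have e : (S.card : ℝ) * (H * (48 / (γ ^ K * Real.log γ) * Λs * (L * w))) =
        48 * (S.card * H) * Λs / (γ ^ K * Real.log γ) * (L * w) := by ring
    rw [e]
    gcongr
    rw [div_le_iff₀ (by positivity)]
    linarith
  set M₀ : ℕ := ⌈τ / Real.log γ⌉₊ with hM₀
  set M : ℕ := M₀ + G₀ * K with hM
  have hM₀1 : Real.exp τ ≤ γ ^ M₀ := by
    have := (NN_le (γ := γ) (by rwa [abs_of_pos hγ0]) (τ := τ) (n := M₀)).1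
      (by rw [NN, abs_of_pos hγ0])
    rwa [abs_of_pos hγ0] at this
  have hM₀2 : γ ^ M₀ < Real.exp τ * γ := by
    have h1 := Nat.ceil_lt_add_one (div_nonneg hτ hL.le)
    rw [← Real.exp_log (pow_pos hγ0 M₀), Real.log_pow]
    conv_rhs => rw [← Real.exp_log hγ0, ← Real.exp_add]
    rw [Real.exp_lt_exp, ← lt_div_iff₀ hL, add_div, div_self hL.ne']
    exact h1
  have hew : Real.exp (τ + w) = Real.exp τ * γ ^ (G₀ * K + K) := by
    rw [Real.exp_add, hwK, ← Real.log_pow, Real.exp_log (pow_pos hγ0 _)]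
  have hEM : F.card * Real.exp τ * G ≤ E * γ ^ M := by
    rw [hE, inv_mul_eq_div, le_div_iff₀ hγK]
    calc F.card * Real.exp τ * G * γ ^ K ≤ γ ^ (C₃ * K) * γ ^ M₀ * G * γ ^ K := by gcongr
      _ = γ ^ M := by
        rw [hG, ← pow_add, ← pow_add, ← pow_add]; congr 1; rw [hM, hG₀]; ring
  set a : ℝ := (Q : ℝ)⁻¹ with ha
  have ha0 : 0 < a := inv_pos.2 hQ0
  have hall : ∀ (h m : ℕ) (y : ℝ), (h : ℝ) ≤ 2 ^ K → |y| = h * γ ^ m → m ≤ M + K →
      ‖BB c τ (dens φ F γ M Q) y - a * ∑ l ∈ range Q, φ y * rho F (y / γ ^ (M + l))‖ ≤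
        Real.exp τ / |y| + E := by
    intro h m y h1 h2 h3
    refine dens_one hφ hFne hγ hQ1' hG0 c τ hEM fun l _ u hu v hv huv hne => ?_
    refine (hFsep u hu v hv huv h m _ y h1 h2 (by omega) hne).trans ?_
    rw [hG]
    gcongr
    · exact hγ.le
    · omega
  have hwin : ∀ {θ : ℝ} {q : ℕ}, 1 ≤ q → |θ| = γ ^ q → ∀ h : ℕ, 1 ≤ h → (h : ℝ) ≤ 2 ^ K →
      ‖∑ n ∈ win θ τ w, BB c τ (dens φ F γ M Q) (h * θ ^ n) -
        a * ∑ l ∈ range Q, ∑ n ∈ win θ τ w, φ (h * θ ^ n) * rho F (h * θ ^ n / γ ^ (M + l))‖ ≤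
        CC θ + 1 := by
    intro θ q hq hθγ h hh hh2
    have hθ : 1 < |θ| := hθγ ▸ one_lt_pow₀ hγ (by omega)
    rw [sum_comm, mul_sum, ← sum_sub_distrib]
    refine (norm_sum_le _ _).trans ((sum_le_sum fun n hn => hall h (q * n) _ hh2
      (by rw [abs_mul, abs_pow, hθγ, Nat.abs_cast, pow_mul]) ?_).trans ?_)
    · have h1 := (lt_NN hθ).1 (mem_Ico.1 hn).2
      rw [hew, hθγ, ← pow_mul] at h1
      have h2 : γ ^ (q * n) < γ ^ (M + K) := by
        calc _ < _ := h1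
          _ ≤ γ ^ M₀ * γ ^ (G₀ * K + K) := by gcongr
          _ = _ := by rw [← pow_add, hM, add_assoc]
      exact ((pow_lt_pow_iff_right₀ hγ).1 h2).le
    · rw [sum_add_distrib, sum_const, nsmul_eq_mul]
      refine add_le_add (sum_win_inv hθ hh τ w) ?_
      have h1 := card_win hθ hτ (by linarith : τ ≤ τ + w)
      have hq' : (1 : ℝ) ≤ q := by exact_mod_cast hq
      have e : (τ + w - τ) / Real.log |θ| = ((G₀ * K + K : ℕ) : ℝ) / q := by
        rw [add_sub_cancel_left, log_abs_eq hθγ, hwK, mul_div_mul_right _ _ hL.ne']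
      rw [e] at h1
      rw [hE, ← div_eq_mul_inv, div_le_one hγK]
      refine h1.trans (le_trans ?_ k3)
      have : ((G₀ * K + K : ℕ) : ℝ) / q ≤ (G₀ * K + K : ℕ) := div_le_self (Nat.cast_nonneg _) hq'
      push_cast at this ⊢
      linarith
  have habsρ : ∀ y, |rho F y| ≤ 1 := fun y => by
    rw [abs_of_nonneg (rho_nonneg F y)]; exact rho_le_one F y
  have hshift : ∀ {θ : ℝ} {p : ℕ}, |θ| = γ ^ p → ∀ h i l n : ℕ,
      rho F (h * θ ^ (n + i) / γ ^ (M + (l + p * i))) = rho F (h * θ ^ n / γ ^ (M + l)) := by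
    intro θ p hθγ h i l n
    refine rho_abs F ?_
    simp only [abs_div, abs_mul, abs_pow, hθγ, abs_of_pos hγ0, pow_add, pow_mul]
    field_simp
  have hzero : ‖BB c τ (dens φ F γ M Q) 0 - 1‖ ≤ 1 / 2 := by
    have := hall 0 0 0 (by simp) (by simp) (by omega)
    simp only [zero_div, rho_zero hFne, hφ.zero, Complex.ofReal_one, mul_one, sum_const,
      nsmul_eq_mul, abs_zero, div_zero, zero_add, card_range] at this
    have e : (a : ℂ) * (Q : ℂ) = 1 := by exact_mod_cast inv_mul_cancel₀ hQ0.ne'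
    rw [e] at this
    refine this.trans ?_
    rw [hE, inv_eq_one_div]
    gcongr
  refine ⟨dens φ F γ M Q, continuous_dens _ _ _ _ _, dens_nonneg hφ _ _ _ _, hzero,
    fun θ hθS h hh hH => ?_, ?_⟩
  · have hb : 2 * (((win θ τ w).filter (Bad θ h)).card : ℝ) ≤
        ∑ θ ∈ S, ∑ h ∈ Icc 1 H, 2 * (((win θ τ w).filter (Bad θ h)).card : ℝ) :=
      (single_le_sum (f := fun h => 2 * (((win θ τ w).filter (Bad θ h)).card : ℝ))
        (fun _ _ => mul_nonneg zero_le_two (Nat.cast_nonneg _)) (mem_Icc.2 ⟨hh, hH⟩)).trans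
      (single_le_sum (f := fun θ => ∑ h ∈ Icc 1 H, 2 * (((win θ τ w).filter (Bad θ h)).card : ℝ))
        (fun _ _ => sum_nonneg fun _ _ => mul_nonneg zero_le_two (Nat.cast_nonneg _)) hθS)
    rw [div_le_iff₀ (by positivity)] at k5
    have e : ε * w = K' * (ε * lam) := by rw [hw]; ring
    have hc := hcw θ hθS τ w hτ hw0
    have hCD := hDi θ hθS
    have hQ₀ : (0 : ℝ) ≤ Q₀ := Nat.cast_nonneg _
    obtain ⟨hθ, hirr | ⟨p, q, hp, hq, hpq, hθγ, -, hφθ⟩⟩ := hS θ hθS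
    · have h1 : ∀ n ∈ win θ τ w, ‖BB c τ (dens φ F γ M Q) (h * θ ^ n)‖ ≤
          Real.exp τ / |h * θ ^ n| + E + if Bad θ h n then 2 else 0 := by
        intro n _
        split_ifs with hbad
        · have a1 := norm_BB_le c τ (continuous_dens φ F γ M Q) (dens_nonneg hφ F γ M Q)
            (h * θ ^ n)
          have h4 := abs_le.1 ((Complex.abs_re_le_norm _).trans hzero)
          rw [Complex.sub_re, Complex.one_re] at h4
          have : 0 ≤ Real.exp τ / |h * θ ^ n| + E := by positivity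
          linarith
        · have hgood : ∀ l : ℕ, ∀ u ∈ F, ∀ v ∈ F, u ≠ v →
              G⁻¹ ≤ |h * θ ^ n / γ ^ (M + l) - (u - v)| := fun l u hu v hv huv =>
            not_lt.1 fun hlt => hbad ((hBad _ _ _).2 ⟨hirr, M + l, u - v, mem_erase.2
              ⟨sub_ne_zero.2 huv, mem_image.2 ⟨(u, v), mem_product.2 ⟨hu, hv⟩, rfl⟩⟩, hlt⟩)
          have a1 := dens_one hφ hFne hγ hQ1' hG0 c τ hEM (y := h * θ ^ n)
            fun l _ u hu v hv huv _ => by
              have b1 := hgood l u hu v hv huv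
              have b2 : 0 < γ ^ (M + l) := pow_pos hγ0 _
              rw [div_sub' b2.ne', abs_div, abs_of_pos b2, le_div_iff₀ b2,
                inv_mul_le_iff₀ hG0] at b1
              rwa [mul_comm _ G]
          rw [sum_eq_zero fun l _ => by
            rw [rho_eq_zero fun u hu v hv he => ?_, Complex.ofReal_zero, mul_zero]
            by_cases huv : u = v
            · rw [huv, sub_self] at he
              exact div_ne_zero (freq_ne_zero hθ hh n) (pow_pos hγ0 _).ne' he.symm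
            · have b1 := hgood l u hu v hv huv
              rw [he, sub_self, abs_zero] at b1
              exact absurd b1 (not_le.2 (inv_pos.2 hG0)), mul_zero, sub_zero] at a1
          rwa [add_zero]
      refine (norm_sum_le _ _).trans ((sum_le_sum h1).trans ?_)
      rw [sum_add_distrib, sum_add_distrib, sum_const, nsmul_eq_mul, ← sum_filter, sum_const,
        nsmul_eq_mul]
      have a1 := sum_win_inv hθ hh τ w
      have a2 : ((win θ τ w).card : ℝ) * E ≤ 1 := by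
        rw [hE, ← div_eq_mul_inv, div_le_one hγK]
        refine hc.trans (le_trans ?_ k3')
        rw [hw, mul_comm (K' : ℝ), ← mul_assoc]
        gcongr
      linarith
    · have h1 := hwin hp hθγ h hh (le_trans (by exact_mod_cast hH) k1)
      have hq' : (1 : ℝ) ≤ q := by exact_mod_cast hq
      have hpq' : (p : ℝ) * q = Q₀ := by exact_mod_cast hpq
      have hqQ : (q : ℝ) ≤ Q₀ := by
        have : (1 : ℝ) ≤ p := by exact_mod_cast hp
        exact hpq' ▸ le_mul_of_one_le_left (by linarith) this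
      have h2 := shift2 (q := q) (p := p) (Q := Q) (φ := fun n => φ (h * θ ^ n))
        (ρ := fun l n => rho F (h * θ ^ n / γ ^ (M + l))) (κ := 0) (fun n => hφ.norm_le _)
        (fun l n => habsρ _) (fun i l n => hshift hθγ h i l n) (hφθ h hh) (NN θ τ) (NN θ (τ + w))
      rw [zero_mul, sub_zero, norm_mul, Complex.norm_natCast, hpq'] at h2
      replace h2 := le_of_mul_le_mul_left h2 (by linarith)
      change ‖∑ l ∈ range Q, ∑ n ∈ win θ τ w, _‖ ≤ _ + _ * ((win θ τ w).card : ℝ) at h2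
      have h3 : ‖(a : ℂ) * ∑ l ∈ range Q, ∑ n ∈ win θ τ w,
          φ (h * θ ^ n) * rho F (h * θ ^ n / γ ^ (M + l))‖ ≤ 4 * Q₀ + ε * w / 4 := by
        rw [norm_mul, Complex.norm_real, Real.norm_eq_abs, abs_of_pos ha0, ha,
          inv_mul_le_iff₀ hQ0]
        refine h2.trans ?_
        have b1 : 2 * (Q₀ : ℝ) * (win θ τ w).card ≤ 2 * Q₀ * (Λs * w + 1) := by gcongr
        have b2 : 8 * Q₀ * Λs * w ≤ Q * ε * w := by gcongr
        have b3 : (q : ℝ) * Q ≤ Q₀ * Q := by gcongr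
        have b4 : (Q₀ : ℝ) * 1 ≤ Q₀ * Q := by gcongr
        linarith
      have := norm_le_norm_sub_add (∑ n ∈ win θ τ w, BB c τ (dens φ F γ M Q) (h * θ ^ n))
        ((a : ℂ) * ∑ l ∈ range Q, ∑ n ∈ win θ τ w, φ (h * θ ^ n) * rho F (h * θ ^ n / γ ^ (M + l)))
      have : (0 : ℝ) ≤ 2 * (((win θ τ w).filter (Bad θ h)).card : ℝ) :=
        mul_nonneg zero_le_two (Nat.cast_nonneg _)
      have : 0 ≤ ε * w := by positivity
      linarith
  · have h1 := hwin hr hβγ h₀ hh₀ k2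
    set R : ℕ → ℝ := fun l => ∑ n ∈ win β τ w, rho F (h₀ * β ^ n / γ ^ (M + l)) with hR
    have hcβ : ((win β τ w).card : ℝ) ≤ (G₀ + 1) * K' + 1 := by
      refine (card_win hβ hτ (by linarith : τ ≤ τ + w)).trans (le_of_eq ?_)
      rw [add_sub_cancel_left, log_abs_eq hβγ, hw, hlam]; field_simp
    have h2 : ‖(a : ℂ) * ∑ l ∈ range Q, ∑ n ∈ win β τ w,
        φ (h₀ * β ^ n) * rho F (h₀ * β ^ n / γ ^ (M + l)) -
        κ * (a / s * ∑ l ∈ range Q, R l : ℝ)‖ ≤ 2 * s + 2 * (r * s) + K' * (‖κ‖ / (8 * s)) := by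
      have b1 := shift2 (q := s) (p := r) (Q := Q) (φ := fun n => φ (h₀ * β ^ n))
        (ρ := fun l n => rho F (h₀ * β ^ n / γ ^ (M + l))) (κ := κ) (fun n => hφ.norm_le _)
        (fun l n => habsρ _) (fun i l n => hshift hβγ h₀ i l n) hφβ (NN β τ) (NN β (τ + w))
      change ‖_ * ∑ l ∈ range Q, ∑ n ∈ win β τ w, _ - _ * ∑ l ∈ range Q, ∑ n ∈ win β τ w, _‖ ≤
        _ * (_ + _ * ((win β τ w).card : ℝ)) at b1
      have hsC : (s : ℂ) ≠ 0 := by exact_mod_cast (by omega : s ≠ 0)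
      have e : (a : ℂ) * ∑ l ∈ range Q, ∑ n ∈ win β τ w,
          φ (h₀ * β ^ n) * rho F (h₀ * β ^ n / γ ^ (M + l)) -
          κ * (a / s * ∑ l ∈ range Q, R l : ℝ) = ((a / s : ℝ) : ℂ) *
          ((s : ℂ) * ∑ l ∈ range Q, ∑ n ∈ win β τ w,
            φ (h₀ * β ^ n) * rho F (h₀ * β ^ n / γ ^ (M + l)) -
            κ * ∑ l ∈ range Q, ∑ n ∈ win β τ w, (rho F (h₀ * β ^ n / γ ^ (M + l)) : ℂ)) := by
        rw [hR]
        push_cast
        field_simp
      rw [e, norm_mul, Complex.norm_real, Real.norm_eq_abs, abs_of_pos (by positivity)]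
      calc _ ≤ a / s * (s * (2 * s * Q + 2 * (r * s) * ((G₀ + 1) * K' + 1))) := by
            gcongr
            exact b1.trans (by gcongr)
        _ = 2 * s + 2 * (r * s) * a + K' * (2 * (r * s) * (G₀ + 1) / Q) := by
            rw [ha]; field_simp; ring
        _ ≤ _ := by
            have c1 : a ≤ 1 := inv_le_one_of_one_le₀ hQ1
            have c2 : 2 * ((r : ℝ) * s) * (G₀ + 1) / Q ≤ ‖κ‖ / (8 * s) := by
              rw [div_le_div_iff₀ hQ0 (by positivity)]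
              linarith
            have c3 : 2 * ((r : ℝ) * s) * a ≤ 2 * (r * s) :=
              mul_le_of_le_one_right (by positivity) c1
            gcongr
    have h3 : ∀ l ∈ range Q, ((K' : ℝ) - (Q + 1)) / 2 ≤ R l := by
      intro l hl
      rw [mem_range] at hl
      have hd1 := Nat.div_add_mod M r
      have hd2 := Nat.mod_lt M (show 0 < r by omega)
      have hrQ : Q ≤ r * Q := Nat.le_mul_of_pos_left _ (by omega)
      have hn : ∀ n ∈ Ico (M / r + Q + 1) (M / r + K'), M + l ≤ r * n ∧ r * n + 1 ≤ M + K := by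
        intro n hn
        obtain ⟨b1, b2⟩ := mem_Ico.1 hn
        have b3 := Nat.mul_le_mul_left r b1
        have b4 := Nat.mul_le_mul_left r (Nat.succ_le_of_lt b2)
        simp only [Nat.succ_eq_add_one, mul_add, mul_one] at b3 b4
        constructor <;> omega
      have hsub : Ico (M / r + Q + 1) (M / r + K') ⊆ win β τ w := by
        intro n hn'
        obtain ⟨b1, b2⟩ := hn n hn'
        refine mem_Ico.2 ⟨(NN_le hβ).2 ?_, (lt_NN hβ).2 ?_⟩
        · rw [hβγ, ← pow_mul]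
          exact hM₀1.trans (pow_le_pow_right₀ hγ.le (by omega))
        · rw [hβγ, ← pow_mul, hew]
          refine lt_of_mul_lt_mul_right ?_ hγ0.le
          calc γ ^ (r * n) * γ = γ ^ (r * n + 1) := (pow_succ _ _).symm
            _ ≤ γ ^ (M₀ + (G₀ * K + K)) := pow_le_pow_right₀ hγ.le (by omega)
            _ = γ ^ M₀ * γ ^ (G₀ * K + K) := pow_add _ _ _
            _ < Real.exp τ * γ * γ ^ (G₀ * K + K) := by gcongr
            _ = _ := by ring
      refine le_trans ?_ (sum_le_sum_of_subset_of_nonneg hsub fun _ _ _ => rho_nonneg _ _)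
      refine le_trans (le_of_eq ?_) (sum_le_sum (f := fun _ => (1 / 2 : ℝ)) fun n hn' => ?_)
      · rw [sum_const, Nat.card_Ico, nsmul_eq_mul,
          show M / r + K' - (M / r + Q + 1) = K' - (Q + 1) by omega, Nat.cast_sub k7]
        push_cast; ring
      · obtain ⟨b1, b2⟩ := hn n hn'
        refine (hFρ (r * n - (M + l)) (by omega)).trans (le_of_eq (rho_abs F ?_))
        simp only [abs_div, abs_mul, abs_pow, hβγ, abs_of_pos hγ0]
        rw [← pow_mul, pow_sub₀ _ hγ0.ne' b1]; ring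
    have h4 : ((K' : ℝ) - (Q + 1)) / (2 * s) ≤ a / s * ∑ l ∈ range Q, R l := by
      refine le_trans (le_of_eq ?_) (mul_le_mul_of_nonneg_left (sum_le_sum h3) (by positivity))
      rw [sum_const, card_range, nsmul_eq_mul, ha]; field_simp
    set X := ∑ n ∈ win β τ w, BB c τ (dens φ F γ M Q) (h₀ * β ^ n) with hX
    set Y : ℝ := a / s * ∑ l ∈ range Q, R l with hY
    have h5 : ‖X - κ * Y‖ ≤ CC β + 1 + (2 * s + 2 * (r * s) + K' * (‖κ‖ / (8 * s))) :=
      (norm_sub_le_norm_sub_add_norm_sub _ _ _).trans (add_le_add h1 h2)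
    have h6 := (abs_le.1 ((abs_re_le hω).trans h5)).1
    have h7 : (starRingEnd ℂ) κ / ‖κ‖ * (κ * Y) = ((‖κ‖ * Y : ℝ) : ℂ) := by
      have : ((‖κ‖ : ℝ) : ℂ) ≠ 0 := by exact_mod_cast hκ'.ne'
      rw [← mul_assoc, div_mul_eq_mul_div, Complex.conj_mul', Complex.ofReal_mul ‖κ‖]
      field_simp
    rw [mul_sub, Complex.sub_re, h7, Complex.ofReal_re] at h6
    rw [div_le_iff₀ (by positivity)] at k6
    have h8 : ‖κ‖ * ((K' - (Q + 1)) / (2 * s)) ≤ ‖κ‖ * Y := by gcongr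
    have e1 : ‖κ‖ / (4 * s * lam) * w = 2 * (K' * (‖κ‖ / (8 * s))) := by
      rw [hw]; field_simp; ring
    have e2 : ‖κ‖ * ((K' - (Q + 1)) / (2 * s)) =
        4 * (K' * (‖κ‖ / (8 * s))) - ‖κ‖ * (Q + 1) / (2 * s) := by field_simp; ring
    linarith

end Pool.Agent.Lib.MP_3974fb_lc
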