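import Pool.Agent.Lib.MP_3974fb_lc.Cases

/-! Visits of an irrational rotation to short arcs, uniformly in the starting point. -/

namespace Pool.Agent.Lib.MP_3974fb_lc

open Filter Topology Finset

lemma rot_count {t : ℝ} (ht : Irrational t) {ρ : ℝ} (hρ : 0 < ρ) :
    ∃ C : ℝ, ∀ (x₀ : ℝ) (a b : ℕ) (S : Finset ℕ), S ⊆ Ico a b →
      (∀ n ∈ S, ∃ j : ℤ, |n * t - j - x₀| < ρ) → (S.card : ℝ) ≤ 12 * ρ * (Ico a b).card + C := by
  rcases le_or_gt (1 / 4) ρ with h4 | h4
  · refine ⟨0, fun x₀ a b S hS _ => ?_⟩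
    have h1 : (S.card : ℝ) ≤ (Ico a b).card := by exact_mod_cast card_le_card hS
    have h2 : (0 : ℝ) ≤ (Ico a b).card := Nat.cast_nonneg _
    nlinarith
  obtain ⟨n₁, hn₁⟩ := exists_nat_one_div_lt hρ
  obtain ⟨q, hq0, -, hq⟩ := Real.exists_nat_abs_mul_sub_round_le t (n := n₁ + 1) (by omega)
  set p := round ((q : ℝ) * t) with hp
  set d := |(q : ℝ) * t - p| with hd
  have hd0 : 0 < d := by
    refine abs_pos.2 (sub_ne_zero.2 ?_)
    exact (ht.natCast_mul hq0.ne').ne_int p
  have hdρ : d < ρ := by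
    refine hq.trans_lt (lt_of_le_of_lt ?_ hn₁)
    gcongr
    linarith
  set N := ⌊1 / (2 * d)⌋₊ with hN
  have hN1 : (N : ℝ) ≤ 1 / (2 * d) := Nat.floor_le (by positivity)
  have hN2 : 1 / (2 * d) < N + 1 := Nat.lt_floor_add_one _
  have hN3 : 2 ≤ 1 / (2 * d) := by rw [le_div_iff₀ (by positivity)]; linarith
  have hN4 : (1 : ℝ) < N := by linarith
  have hN0 : 0 < N := by exact_mod_cast (by linarith : (0 : ℝ) < N)
  have hNd : 1 ≤ 4 * (N * d) := by
    rw [div_lt_iff₀ (by positivity)] at hN2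
    nlinarith
  have hNd' : N * d ≤ 1 / 2 := by
    rw [le_div_iff₀ (by positivity)] at hN1
    linarith
  set R := ⌊2 * ρ / d⌋₊ + 1 with hR
  have hR1 : (R : ℝ) ≤ 3 * ρ / d := by
    have h1 : (⌊2 * ρ / d⌋₊ : ℝ) ≤ 2 * ρ / d := Nat.floor_le (by positivity)
    have h2 : 1 ≤ ρ / d := by rw [le_div_iff₀ hd0]; linarith
    have e : 3 * ρ / d = 2 * ρ / d + ρ / d := by ring
    rw [hR, e]; push_cast; linarith
  refine ⟨R * q, fun x₀ a b S hS hnear => ?_⟩
  have h1 : S.card ≤ R * (range q ×ˢ range ((b - a) / (q * N) + 1)).card := by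
    refine card_le_mul_card_image_of_maps_to (f := fun n => ((n - a) % q, (n - a) / (q * N)))
      (fun n hn => ?_) R fun z _ => ?_
    · have := mem_Ico.1 (hS hn)
      exact mem_product.2 ⟨mem_range.2 (Nat.mod_lt _ hq0),
        mem_range.2 (Nat.lt_succ_of_le (Nat.div_le_div_right (by omega)))⟩
    · set T := S.filter fun n => ((n - a) % q, (n - a) / (q * N)) = z with hT
      rcases T.eq_empty_or_nonempty with h | h
      · rw [h]; simp
      have key : ∀ n ∈ T, ∃ u, u < R ∧ n = T.min' h + q * u := by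
        intro n hn
        have hn₀ := T.min'_mem h
        have hle := T.min'_le n hn
        set n₀ := T.min' h with hn₀def
        obtain ⟨b1, b2⟩ := mem_filter.1 hn
        obtain ⟨c1, c2⟩ := mem_filter.1 hn₀
        obtain ⟨e1, e2⟩ := Prod.ext_iff.1 (b2.trans c2.symm)
        simp only at e1 e2
        have a1 := (mem_Ico.1 (hS c1)).1
        obtain ⟨u, hu⟩ : q ∣ (n - a) - (n₀ - a) :=
          (Nat.modEq_iff_dvd' (by omega)).1 e1.symm
        have hnu : n = n₀ + q * u := by omega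
        have huN : u < N := by
          have f1 := Nat.div_add_mod (n - a) (q * N)
          have f2 := Nat.div_add_mod (n₀ - a) (q * N)
          have f3 := Nat.mod_lt (n - a) (Nat.mul_pos hq0 hN0)
          rw [e2] at f1
          have : q * u < q * N := by omega
          exact lt_of_mul_lt_mul_left this (Nat.zero_le _)
        refine ⟨u, ?_, hnu⟩
        obtain ⟨j, hj⟩ := hnear n b1
        obtain ⟨j₀, hj₀⟩ := hnear n₀ c1
        have hu' : (u : ℝ) ≤ N := by exact_mod_cast huN.le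
        have g1 : |u * ((q : ℝ) * t - p) - ((j - j₀ - u * p : ℤ) : ℝ)| < 2 * ρ := by
          have : u * ((q : ℝ) * t - p) - ((j - j₀ - u * p : ℤ) : ℝ) =
              (n * t - j - x₀) - (n₀ * t - j₀ - x₀) := by
            rw [hnu]; push_cast; ring
          rw [this]
          exact (abs_sub _ _).trans_lt (by linarith)
        have g2 : |u * ((q : ℝ) * t - p)| = u * d := by rw [abs_mul, Nat.abs_cast]
        have g3 : (u : ℝ) * d ≤ 1 / 2 := le_trans (by gcongr) hNd'
        have g4 : j - j₀ - u * p = 0 := by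
          rw [← Int.abs_lt_one_iff]
          have g5 := abs_sub_abs_le_abs_sub ((j - j₀ - u * p : ℤ) : ℝ) (u * ((q : ℝ) * t - p))
          rw [abs_sub_comm, g2] at g5
          have : |((j - j₀ - u * p : ℤ) : ℝ)| < 1 := by linarith
          exact_mod_cast this
        rw [g4, Int.cast_zero, sub_zero, g2] at g1
        exact Nat.lt_succ_of_le (Nat.le_floor (by rw [le_div_iff₀ hd0]; exact g1.le))
      calc T.card ≤ ((range R).image fun u => T.min' h + q * u).card := card_le_card fun n hn => by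
            obtain ⟨u, h1, h2⟩ := key n hn
            exact mem_image.2 ⟨u, mem_range.2 h1, h2.symm⟩
        _ ≤ R := card_image_le.trans (card_range R).le
  rw [card_product, card_range, card_range] at h1
  have h2 : (S.card : ℝ) ≤ R * (q * (((b - a) / (q * N) : ℕ) + 1)) := by exact_mod_cast h1
  have h3 : (((b - a) / (q * N) : ℕ) : ℝ) ≤ ((b - a : ℕ) : ℝ) / (q * N) := by
    have := Nat.cast_div_le (α := ℝ) (m := b - a) (n := q * N)
    rwa [Nat.cast_mul] at this
  have hq' : (0 : ℝ) < q := by exact_mod_cast hq0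
  rw [Nat.card_Ico]
  have h5 : (0 : ℝ) ≤ ((b - a : ℕ) : ℝ) := Nat.cast_nonneg _
  have h6 : (R : ℝ) * (q * (((b - a : ℕ) : ℝ) / (q * N))) ≤ 12 * ρ * ((b - a : ℕ) : ℝ) := by
    calc _ ≤ 3 * ρ / d * (q * (((b - a : ℕ) : ℝ) / (q * N))) := by gcongr
      _ = 3 * ρ * ((b - a : ℕ) : ℝ) / (N * d) := by field_simp
      _ ≤ _ := by
        rw [div_le_iff₀ (by positivity)]
        have : 0 ≤ 3 * ρ * ((b - a : ℕ) : ℝ) := by positivity
        nlinarith
  have h7 : (R : ℝ) * (q * (((b - a) / (q * N) : ℕ) : ℝ)) ≤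
      R * (q * (((b - a : ℕ) : ℝ) / (q * N))) := by gcongr
  nlinarith

lemma abs_log_div_le {y v η : ℝ} (hv : 2 * η ≤ |v|) (h : |y - v| < η) :
    abs (Real.log |y| - Real.log |v|) < 2 * η / |v| := by
  have hη : 0 < η := (abs_nonneg _).trans_lt h
  have hv0 : 0 < |v| := by linarith
  have h1 := abs_lt.1 ((abs_abs_sub_abs_le_abs_sub y v).trans_lt h)
  have hy0 : 0 < |y| := by linarith
  rw [abs_lt]
  constructor
  · have := Real.log_le_sub_one_of_pos (div_pos hv0 hy0)
    rw [Real.log_div hv0.ne' hy0.ne'] at this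
    have h2 : |v| / |y| - 1 < 2 * η / |v| := by
      rw [div_sub_one hy0.ne', div_lt_div_iff₀ hy0 hv0]
      nlinarith
    linarith
  · have := Real.log_le_sub_one_of_pos (div_pos hy0 hv0)
    rw [Real.log_div hy0.ne' hv0.ne'] at this
    have h2 : |y| / |v| - 1 < 2 * η / |v| := by
      rw [div_sub_one hv0.ne']
      gcongr; linarith
    linarith

lemma bad_count {θ γ : ℝ} (hθ : 1 < |θ|) (hγ : 1 < γ) (hirr : Irrational (Real.log |θ| / Real.log γ))
    {h : ℕ} (hh : 1 ≤ h) (V : Finset ℝ) {η m : ℝ} (hη : 0 < η) (hm : 2 * η ≤ m)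
    (hV : ∀ v ∈ V, m ≤ |v|) :
    ∃ C : ℝ, ∀ (a b : ℕ) (S : Finset ℕ), S ⊆ Ico a b →
      (∀ n ∈ S, ∃ j : ℕ, ∃ v ∈ V, |h * θ ^ n / γ ^ j - v| < η) →
      (S.card : ℝ) ≤ V.card * (24 * η / (m * Real.log γ)) * (Ico a b).card + C := by
  classical
  have hL := Real.log_pos hγ
  have hm0 : 0 < m := by linarith
  have hγ0 : 0 < γ := by linarith
  have hθ0 : θ ≠ 0 := by rintro rfl; norm_num at hθ
  have hh' : (0 : ℝ) < h := by exact_mod_cast hh
  obtain ⟨C, hC⟩ := rot_count hirr (ρ := 2 * η / (m * Real.log γ)) (by positivity)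
  refine ⟨V.card * C, fun a b S hS hnear => ?_⟩
  set A : ℝ → Finset ℕ := fun v => S.filter fun n => ∃ j : ℕ, |h * θ ^ n / γ ^ j - v| < η with hA
  have hsub : S ⊆ V.biUnion A := fun n hn => by
    obtain ⟨j, v, hv, hlt⟩ := hnear n hn
    exact mem_biUnion.2 ⟨v, hv, mem_filter.2 ⟨hn, j, hlt⟩⟩
  have hAv : ∀ v ∈ V, ((A v).card : ℝ) ≤ 24 * η / (m * Real.log γ) * (Ico a b).card + C := by
    intro v hv
    refine (hC ((Real.log |v| - Real.log h) / Real.log γ) a b (A v)
      ((filter_subset _ _).trans hS) fun n hn => ?_).trans (le_of_eq (by ring))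
    obtain ⟨j, hj⟩ := (mem_filter.1 hn).2
    refine ⟨j, ?_⟩
    have h1 := abs_log_div_le (hm.trans (hV v hv)) hj
    rw [Real.log_abs (h * θ ^ n / γ ^ j), Real.log_div (by positivity) (by positivity),
      Real.log_mul hh'.ne' (by positivity), Real.log_pow, Real.log_pow, ← Real.log_abs θ] at h1
    have e : n * (Real.log |θ| / Real.log γ) - ((j : ℤ) : ℝ) -
        (Real.log |v| - Real.log h) / Real.log γ =
        (Real.log h + n * Real.log |θ| - j * Real.log γ - Real.log |v|) / Real.log γ := by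
      push_cast; field_simp; ring
    rw [e, abs_div, abs_of_pos hL, ← div_div]
    refine div_lt_div_of_pos_right (h1.trans_le ?_) hL
    have := hV v hv
    gcongr
  have h1 : (S.card : ℝ) ≤ ∑ v ∈ V, ((A v).card : ℝ) := by
    exact_mod_cast (card_le_card hsub).trans card_biUnion_le
  refine h1.trans ((sum_le_sum hAv).trans (le_of_eq ?_))
  rw [sum_const, nsmul_eq_mul]; ring

end Pool.Agent.Lib.MP_3974fb_lc
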