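import Pool.Agent.Lib.MP_3974fb_lc.JointTrans
import Pool.Agent.Lib.MP_3974fb_lc.JointRot

/-! Tools for the algebraic block of a family of bases. -/

namespace Pool.Agent.Lib.MP_3974fb_lc

open Filter Topology Finset

lemma shift2 {q p Q : ℕ} {φ : ℕ → ℂ} {ρ : ℕ → ℕ → ℝ} {κ : ℂ} (hφ : ∀ n, ‖φ n‖ ≤ 1)
    (hρ : ∀ l n, |ρ l n| ≤ 1) (hs : ∀ i l n, ρ (l + p * i) (n + i) = ρ l n)
    (hκ : ∀ n, ∑ i ∈ range q, φ (n + i) = κ) (a b : ℕ) :
    ‖(q : ℂ) * ∑ l ∈ range Q, ∑ n ∈ Ico a b, φ n * ρ l n -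
      κ * ∑ l ∈ range Q, ∑ n ∈ Ico a b, (ρ l n : ℂ)‖ ≤
      q * (2 * q * Q + 2 * (p * q) * (Ico a b).card) := by
  have h1 : ∀ l n, ‖φ n * ρ l n‖ ≤ 1 := fun l n => by
    rw [norm_mul, Complex.norm_real, Real.norm_eq_abs]
    exact mul_le_one₀ (hφ _) (abs_nonneg _) (hρ _ _)
  have e : κ * ∑ l ∈ range Q, ∑ n ∈ Ico a b, (ρ l n : ℂ) =
      ∑ i ∈ range q, ∑ l ∈ range Q, ∑ n ∈ Ico a b, φ (n + i) * ρ (l + p * i) (n + i) := by
    rw [sum_comm (s := range q), mul_sum]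
    refine sum_congr rfl fun l _ => ?_
    rw [sum_comm, mul_sum]
    refine sum_congr rfl fun n _ => ?_
    simp only [hs]
    rw [← sum_mul, hκ]
  have e' : (q : ℂ) * ∑ l ∈ range Q, ∑ n ∈ Ico a b, φ n * ρ l n =
      ∑ _i ∈ range q, ∑ l ∈ range Q, ∑ n ∈ Ico a b, φ n * ρ l n := by
    rw [sum_const, card_range, nsmul_eq_mul]
  rw [e, e', ← sum_sub_distrib]
  refine (norm_sum_le _ _).trans ((sum_le_sum
    (g := fun _ => 2 * (q : ℝ) * Q + 2 * (p * q) * (Ico a b).card) fun i hi => ?_).trans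
    (le_of_eq (by rw [sum_const, card_range, nsmul_eq_mul])))
  have hi' : (i : ℝ) ≤ q := by exact_mod_cast (mem_range.1 hi).le
  refine (norm_sub_le_norm_sub_add_norm_sub _
    (∑ l ∈ range Q, ∑ n ∈ Ico a b, φ n * ρ (l + p * i) n) _).trans ?_
  rw [add_comm]
  refine add_le_add ?_ ?_
  · rw [← sum_sub_distrib]
    refine (norm_sum_le _ _).trans ((sum_le_sum (g := fun _ => 2 * (q : ℝ)) fun l _ => ?_).trans
      (le_of_eq (by rw [sum_const, card_range, nsmul_eq_mul]; ring)))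
    rw [sum_Ico_eq_sum_range, sum_Ico_eq_sum_range, norm_sub_rev]
    have := shift_sum (f := fun m => φ (a + m) * ρ (l + p * i) (a + m)) (fun m => h1 _ _) i (b - a)
    simp only [add_comm i, ← add_assoc] at this
    linarith
  · rw [sum_comm, sum_comm (s := range Q), ← sum_sub_distrib]
    refine (norm_sum_le _ _).trans ((sum_le_sum (g := fun _ => 2 * ((p : ℝ) * q))
      fun n _ => ?_).trans (le_of_eq (by rw [sum_const, nsmul_eq_mul]; ring)))
    have := shift_sum (f := fun l => φ n * ρ l n) (fun l => h1 _ _) (p * i) Q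
    simp only [add_comm (p * i)] at this
    rw [norm_sub_rev]
    refine this.trans ?_
    push_cast
    gcongr

lemma norm_BB_le (c τ : ℝ) {p : ℝ → ℝ} (hp : Continuous p) (hp0 : ∀ x, 0 ≤ p x) (y : ℝ) :
    ‖BB c τ p y‖ ≤ (BB c τ p 0).re := by
  rw [re_BB_zero, BB, norm_mul, Complex.norm_real, Real.norm_eq_abs, abs_of_pos (Real.exp_pos _)]
  gcongr
  refine intervalIntegral.norm_integral_le_of_norm_le (by linarith [Real.exp_pos (-τ)])
    (Eventually.of_forall fun t _ => ?_) (hp.intervalIntegrable _ _)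
  rw [norm_mul, norm_ee, mul_one, Complex.norm_real, Real.norm_eq_abs, abs_of_nonneg (hp0 t)]

noncomputable def dens (φ : ℝ → ℂ) (F : Finset ℝ) (γ : ℝ) (M Q : ℕ) (x : ℝ) : ℝ :=
  (Q : ℝ)⁻¹ * ∑ l ∈ range Q, pF φ F (γ ^ (M + l)) x

lemma continuous_dens (φ : ℝ → ℂ) (F : Finset ℝ) (γ : ℝ) (M Q : ℕ) :
    Continuous (dens φ F γ M Q) :=
  continuous_const.mul (continuous_finsetSum _ fun _ _ => continuous_pF φ F _)

lemma dens_nonneg {φ : ℝ → ℂ} (hφ : PD φ) (F : Finset ℝ) (γ : ℝ) (M Q : ℕ) (x : ℝ) :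
    0 ≤ dens φ F γ M Q x :=
  mul_nonneg (by positivity) (sum_nonneg fun _ _ => pF_nonneg hφ F _ x)

lemma dens_one {φ : ℝ → ℂ} (hφ : PD φ) {F : Finset ℝ} (hF : F.Nonempty) {γ G E y : ℝ}
    (hγ : 1 < γ) {M Q : ℕ} (hQ : 1 ≤ Q) (hG : 0 < G) (c τ : ℝ)
    (hE : F.card * Real.exp τ * G ≤ E * γ ^ M)
    (hsep : ∀ l < Q, ∀ u ∈ F, ∀ v ∈ F, u ≠ v → γ ^ (M + l) * (u - v) ≠ y →
      γ ^ (M + l) ≤ |y - γ ^ (M + l) * (u - v)| * G) :
    ‖BB c τ (dens φ F γ M Q) y - ((Q : ℝ)⁻¹ : ℝ) * ∑ l ∈ range Q, φ y * rho F (y / γ ^ (M + l))‖ ≤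
      Real.exp τ / |y| + E := by
  have hγ0 : 0 < γ := by linarith
  have hQ' : (0 : ℝ) < Q := by exact_mod_cast hQ
  have hE0 : 0 ≤ E := by
    have : 0 ≤ E * γ ^ M := le_trans (by positivity) hE
    exact nonneg_of_mul_nonneg_left this (by positivity)
  have e : dens φ F γ M Q = fun x => (Q : ℝ)⁻¹ * ∑ l ∈ range Q, pF φ F (γ ^ (M + l)) x := rfl
  rw [e, BB_sum c τ _ (range Q) (fun l => continuous_pF φ F _), ← mul_sub, ← sum_sub_distrib,
    norm_mul, Complex.norm_real, Real.norm_eq_abs, abs_of_pos (inv_pos.2 hQ')]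
  calc _ ≤ (Q : ℝ)⁻¹ * ∑ l ∈ range Q, (Real.exp τ / |y| + E) := by
        gcongr
        refine (norm_sum_le _ _).trans (sum_le_sum fun l hl => ?_)
        refine (BB_pF hφ hF (pow_pos hγ0 _) hG (hsep l (mem_range.1 hl)) c τ).trans ?_
        gcongr
        rw [div_le_iff₀ (pow_pos hγ0 _)]
        refine hE.trans ?_
        gcongr
        · exact hγ.le
        · omega
    _ = _ := by rw [sum_const, card_range, nsmul_eq_mul, ← mul_assoc, inv_mul_cancel₀ hQ'.ne',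
        one_mul]

lemma sum_card_win {θ : ℝ} (hθ : 1 < |θ|) (P : ℕ → Prop) [DecidablePred P] (τ : ℝ) {w : ℝ}
    (hw : 0 ≤ w) (L : ℕ) : ∑ k ∈ range L, (((win θ (τ + k * w) w).filter P).card : ℝ) =
      ((win θ τ (L * w)).filter P).card := by
  induction L with
  | zero => simp [win]
  | succ L ih =>
    rw [sum_range_succ, ih]
    have e : τ + ((L + 1 : ℕ) : ℝ) * w = τ + L * w + w := by push_cast; ring
    simp only [win, e, card_filter, Nat.cast_sum]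
    exact sum_Ico_consecutive _ (NN_mono hθ (le_add_of_nonneg_right (by positivity)))
      (NN_mono hθ (by linarith))

lemma rho_eq_zero {F : Finset ℝ} {y : ℝ} (h : ∀ u ∈ F, ∀ v ∈ F, u - v ≠ y) : rho F y = 0 := by
  classical
  rw [rho, filter_eq_empty_iff.2 fun p hp => h _ (mem_product.1 hp).1 _ (mem_product.1 hp).2]
  simp

end Pool.Agent.Lib.MP_3974fb_lc
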