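import Pool.Agent.Lib.MP_3974fb_lc.Defs

/-! Iterated differences and the finite levels `D_n(Π⁰₃)` of the difference hierarchy. -/

namespace Pool.Agent.Lib.MP_3974fb_lc

/-- `nest n A = A 0 \ (A 1 \ (⋯ \ A (n - 1)))`. -/
def nest : ℕ → (ℕ → Set ℝ) → Set ℝ
  | 0, _ => ∅
  | n + 1, A => A 0 \ nest n fun i => A (i + 1)

/-- iterated differences of `n` sets of class `Π⁰₃`. -/
def IsDn (n : ℕ) (D : Set ℝ) : Prop := ∃ A : ℕ → Set ℝ, (∀ i, IsPi03 (A i)) ∧ D = nest n A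

end Pool.Agent.Lib.MP_3974fb_lc
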