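import Pool.Agent.Lib.MP_3974fb_lc.JointPhase

/-! A nested interval scheme controlling normality to several bases. -/

namespace Pool.Agent.Lib.MP_3974fb_lc

open Filter Topology Finset

lemma le_of_jump {s : ℝ → ℂ} {δ : ℝ} (hδ : 0 < δ)
    (hs : ∀ ε > 0, ∀ᶠ t in atTop, ‖s t‖ ≤ ε * t) (K : ℕ) :
    ∃ t₀ : ℝ, ∀ (τ a : ℝ) (x : ℕ), t₀ ≤ τ → τ ≤ a → a ≤ 2 * τ →
      δ * (1 / ((x : ℝ) + 1)) * τ ≤ ‖s a - s τ‖ → K ≤ x := by
  have hK : (0 : ℝ) < K + 1 := by positivity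
  obtain ⟨t₀, ht₀⟩ := eventually_atTop.1 (hs (δ / (4 * (K + 1))) (by positivity))
  refine ⟨max t₀ 1, fun τ a x hn h1 h2 hj => ?_⟩
  have hn0 : 0 < τ := lt_of_lt_of_le one_pos ((le_max_right _ _).trans hn)
  have hn' := (le_max_left _ _).trans hn
  by_contra hlt
  rw [not_le] at hlt
  have a1 := ht₀ _ hn'
  have a2 := ht₀ _ (hn'.trans h1)
  have a3 := norm_sub_le (s a) (s τ)
  have a4 : δ * (1 / ((K : ℝ) + 1)) * τ ≤ δ * (1 / ((x : ℝ) + 1)) * τ := by
    have : (x : ℝ) ≤ K := by exact_mod_cast hlt.le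
    gcongr
  have a5 : δ / (4 * (K + 1)) * a ≤ δ / (4 * (K + 1)) * (2 * τ) := by gcongr
  have a6 : δ * (1 / ((K : ℝ) + 1)) * τ = 4 * (δ / (4 * (K + 1)) * τ) := by field_simp
  have a7 : 0 < δ / (4 * (K + 1)) * τ := by positivity
  nlinarith

def PhaseJ {ι : Type} (α : ι → ℝ) (r : ι → ι → Prop) (j : ι) : Prop :=
  ∃ (h₀ : ℕ) (δ : ℝ), 1 ≤ h₀ ∧ 0 < δ ∧ ∀ S : Finset ℝ, (∀ γ ∈ S, ∃ i, r i j ∧ γ = α i) →
    ∀ (H : ℕ) (ε : ℝ), 0 < ε → ∃ τ₀ : ℝ, ∀ c τ θ : ℝ,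
      τ₀ ≤ τ → ε ≤ θ → ∃ c' τ' : ℝ, τ ≤ τ' ∧ τ' ≤ (1 + θ) * τ ∧ II c' τ' ⊆ II c τ ∧
        ∀ ξ ∈ II c' τ', (∀ γ ∈ S, Ctl γ H ε ξ τ τ') ∧
          δ * θ * τ ≤ ‖SS (α j) h₀ ξ τ' - SS (α j) h₀ ξ τ‖

theorem joint_game {ι : Type} (α : ι → ℝ) (hα : ∀ i, 1 < |α i|) (r : ι → ι → Prop)
    (hB : ∀ j, PhaseJ α r j)
    (s : ℕ → ι) (hs : Function.Surjective s) (c₀ τ₀ : ℝ) :
    ∃ P : (ℕ → ℕ) → ℕ → ℝ × ℝ,
      (∀ x, (P x 0).1 = c₀ ∧ τ₀ ≤ (P x 0).2) ∧
      (∀ x y n, (∀ k < n, x k = y k) → P x n = P y n) ∧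
      (∀ x n, II (P x (n + 1)).1 (P x (n + 1)).2 ⊆ II (P x n).1 (P x n).2) ∧
      (∀ x (n : ℕ), (n : ℝ) + 1 ≤ (P x n).2) ∧
      ∀ x ξ, (∀ n, ξ ∈ II (P x n).1 (P x n).2) → ∀ j,
        (ξ ∈ NormalSet (α j) → ∀ K : ℕ, ∀ᶠ n in atTop, s n = j → K ≤ x n) ∧
        ((∀ K : ℕ, ∀ᶠ n in atTop, ¬ r j (s n) → K ≤ x n) → ξ ∈ NormalSet (α j)) := by
  classical
  choose h₀ δ hh₀ hδ hB using hB
  have hε : ∀ n : ℕ, (0 : ℝ) < 1 / ((n : ℝ) + 1) := fun n => by positivity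
  set SG : ℕ → Finset ℝ := fun n => (range (n + 1)).image fun k => α (s k) with hSG
  set SB : ℕ → Finset ℝ := fun n =>
    ((range (n + 1)).filter fun k => r (s k) (s n)).image fun k => α (s k) with hSB
  choose TG hTG using fun n : ℕ => phaseG_fin (SG n) (fun γ hγ => by
    obtain ⟨k, -, rfl⟩ := mem_image.1 hγ
    exact hα _) n (hε n)
  choose TB hTB using fun n : ℕ => hB (s n) (SB n) (fun γ hγ => by
    obtain ⟨k, hk, rfl⟩ := mem_image.1 hγ
    exact ⟨_, (mem_filter.1 hk).2, rfl⟩) n _ (hε n)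
  set T : ℕ → ℝ := fun n => max (max (TG n) (TB n)) (max τ₀ (n + 1)) with hT
  have hstep : ∀ (n : ℕ) (p : ℝ × ℝ) (x : ℕ), ∃ (q : ℝ × ℝ) (a : ℝ), T n ≤ p.2 → x ≤ n →
      p.2 ≤ a ∧ a ≤ (1 + 1 / ((x : ℝ) + 1)) * p.2 ∧
      ((n : ℝ) + 1) * a ≤ q.2 ∧ T (n + 1) ≤ q.2 ∧ II q.1 q.2 ⊆ II p.1 p.2 ∧ ∀ ξ ∈ II q.1 q.2,
        δ (s n) * (1 / ((x : ℝ) + 1)) * p.2 ≤ 
          ‖SS (α (s n)) (h₀ (s n)) ξ a - SS (α (s n)) (h₀ (s n)) ξ p.2‖ ∧
        (∀ γ ∈ SB n, Ctl γ n (1 / ((n : ℝ) + 1)) ξ p.2 a) ∧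
        ∀ γ ∈ SG n, Ctl γ n (1 / ((n : ℝ) + 1)) ξ a q.2 := by
    intro n p x
    by_cases h : T n ≤ p.2 ∧ x ≤ n
    swap
    · exact ⟨p, 0, fun h1 h2 => absurd ⟨h1, h2⟩ h⟩
    obtain ⟨h1, h2⟩ := h
    simp only [hT, max_le_iff] at h1
    have h2' : (x : ℝ) ≤ n := by exact_mod_cast h2
    obtain ⟨c₁, a, a1, a2, a3, a4⟩ := hTB n p.1 p.2 (1 / ((x : ℝ) + 1)) h1.1.2 (by gcongr)
    obtain ⟨c₃, d, d1, d2, d3, d4⟩ := hTG n c₁ a (max (((n : ℝ) + 1) * a) (T (n + 1)))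
      (h1.1.1.trans a1)
    exact ⟨(c₃, d), a, fun _ _ => ⟨a1, a2, (le_max_left _ _).trans d2,
      (le_max_right _ _).trans d2, d3.trans a3, fun ξ hξ => ⟨(a4 ξ (d3 hξ)).2,
      (a4 ξ (d3 hξ)).1, d4 ξ hξ⟩⟩⟩
  choose q a hq using hstep
  let P : (ℕ → ℕ) → ℕ → ℝ × ℝ := fun x n => Nat.rec (c₀, T 0)
    (fun n p => q n p (min (x n) n)) n
  have hP : ∀ x n, P x (n + 1) = q n (P x n) (min (x n) n) := fun x n => rfl
  have hTτ : ∀ x n, T n ≤ (P x n).2 := by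
    intro x n
    induction n with
    | zero => exact le_rfl
    | succ n ih => exact (hq n (P x n) _ ih (min_le_right _ _)).2.2.2.1
  have hQ := fun (x : ℕ → ℕ) n => hq n (P x n) (min (x n) n) (hTτ x n) (min_le_right _ _)
  have hτn : ∀ x (n : ℕ), (n : ℝ) + 1 ≤ (P x n).2 := fun x n =>
    le_trans (le_trans (le_max_right _ _) (le_max_right _ _)) (hTτ x n)
  refine ⟨P, fun x => ⟨rfl, le_trans (le_trans (le_max_left _ _) (le_max_right _ _)) (hTτ x 0)⟩,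
    fun x y n h => ?_, fun x n => (hQ x n).2.2.2.2.1, hτn, fun x ξ hξ j => ?_⟩
  · induction n with
    | zero => rfl
    | succ n ih => rw [hP, hP, ih fun k hk => h k (by omega), h n (by omega)]
  set τ : ℕ → ℝ := fun n => (P x n).2 with hτdef
  set z : ℕ → ℕ := fun n => min (x n) n with hz
  set A : ℕ → ℝ := fun n => a n (P x n) (z n) with hAdef
  have hτ1 : ∀ n, 1 ≤ τ n := fun n => by linarith [hτn x n, (n.cast_nonneg : (0 : ℝ) ≤ n)]
  have hτ : Tendsto τ atTop atTop :=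
    tendsto_atTop_mono (fun n => by linarith [hτn x n]) tendsto_natCast_atTop_atTop
  have hR := fun n => (hQ x n).2.2.2.2.2 ξ (hξ (n + 1))
  have q1 : ∀ n, τ n ≤ A n := fun n => (hQ x n).1
  have q2 : ∀ n, A n ≤ (1 + 1 / ((z n : ℝ) + 1)) * τ n := fun n => (hQ x n).2.1
  have q5 : ∀ n : ℕ, ((n : ℝ) + 1) * A n ≤ τ (n + 1) := fun n => (hQ x n).2.2.1
  have hle1 : ∀ k : ℕ, 1 / ((k : ℝ) + 1) ≤ 1 := fun k => by
    rw [div_le_one (by positivity)]; linarith [(k.cast_nonneg : (0 : ℝ) ≤ k)]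
  have hL := Real.log_pos (hα j)
  rw [normal_iff (hα j)]
  constructor
  · intro H K
    obtain ⟨t₀, ht₀⟩ := le_of_jump (hδ j) (H _ (hh₀ j)) K
    filter_upwards [hτ.eventually_ge_atTop t₀] with n hn hj
    subst hj
    exact (ht₀ (τ n) (A n) (z n) hn (q1 n)
      (by have := q2 n; have := hle1 (z n); have := hτ1 n; nlinarith) (hR n).1).trans
      (min_le_left _ _)
  · intro H h hh
    obtain ⟨k₀, rfl⟩ := hs j
    have hone : ∀ (n : ℕ) (t : ℝ), τ n ≤ t → 1 ≤ 1 / ((n : ℝ) + 1) * t := fun n t ht => by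
      rw [div_mul_eq_mul_div, one_mul, le_div_iff₀ (by positivity)]; linarith [hτn x n]
    set ζ : ℕ → ℝ := fun n => if ¬ r (s k₀) (s n) then 1 / ((z n : ℝ) + 1) / Real.log |α (s k₀)| else 0
      with hζ
    have hζ0 : ∀ n, 0 ≤ ζ n := fun n => by
      simp only [hζ]; split_ifs <;> positivity
    have hζt : Tendsto ζ atTop (𝓝 0) := by
      rw [Metric.tendsto_nhds]
      intro ε hε'
      obtain ⟨K, hK⟩ := exists_nat_one_div_lt (mul_pos hε' hL)
      filter_upwards [H K, eventually_ge_atTop K] with n h1 h2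
      rw [Real.dist_eq, sub_zero, abs_of_nonneg (hζ0 n)]
      simp only [hζ]
      by_cases h3 : ¬ r (s k₀) (s n)
      · have h4 : (K : ℝ) ≤ z n := by exact_mod_cast le_min (h1 h3) h2
        rw [if_pos h3, div_lt_iff₀ hL]
        exact lt_of_le_of_lt (by gcongr) hK
      · rw [if_neg h3]; exact hε'
    refine small_of_stages (C := 1 / Real.log |α (s k₀)| + 1)
      (η := fun n => ζ n + 1 / ((n : ℝ) + 1)) (by positivity)
      (fun t ht => ?_) hτ hτ1 q1 q5 ?_ ?_ ?_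
    · refine (norm_SS (hα _) h ξ (by linarith)).trans ?_
      rw [add_mul, div_mul_eq_mul_div, one_mul]; linarith
    · simpa using hζt.add tendsto_one_div_add_atTop_nhds_zero_nat
    · filter_upwards [eventually_ge_atTop h, eventually_ge_atTop k₀] with n hn hk t h1 h2
      have ht0 : 0 ≤ t := by linarith [hτ1 n]
      by_cases h3 : ¬ r (s k₀) (s n)
      · refine (norm_SS_sub (hα _) h ξ (by linarith [hτ1 n]) h1).trans ?_
        have a1 := hone n t h1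
        have a2 : (t - τ n) / Real.log |α (s k₀)| ≤ ζ n * t := by
          simp only [hζ, if_pos h3]
          rw [div_mul_eq_mul_div]
          refine div_le_div_of_nonneg_right ?_ hL.le
          have : 1 / ((z n : ℝ) + 1) * τ n ≤ 1 / ((z n : ℝ) + 1) * t := by
            have := hε (z n); gcongr
          linarith [q2 n]
        linarith
      · refine ((hR n).2.1 _ (mem_image.2 ⟨k₀, mem_filter.2 ⟨mem_range.2 (by omega),
          not_not.1 h3⟩, rfl⟩) h hh hn t h1 h2).trans ?_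
        gcongr
        linarith [hζ0 n]
    · filter_upwards [eventually_ge_atTop h, eventually_ge_atTop k₀] with n hn hk t h1 h2
      refine ((hR n).2.2 _ (mem_image.2 ⟨k₀, mem_range.2 (by omega), rfl⟩) h hh hn t h1 h2).trans ?_
      have : 0 ≤ t := by linarith [hτ1 n, q1 n]
      gcongr
      linarith [hζ0 n]

lemma exists_fix (val : ℕ → (ℕ → ℕ) → ℕ)
    (h : ∀ k y z, (∀ i < k, y i = z i) → val k y = val k z) : ∃ x : ℕ → ℕ, ∀ k, x k = val k x := by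
  let x : ℕ → ℕ := WellFounded.fix (wellFounded_lt (α := ℕ))
    fun k ih => val k fun i => if hi : i < k then ih i hi else 0
  refine ⟨x, fun k => ?_⟩
  have e : x k = val k fun i => if _hi : i < k then x i else 0 := WellFounded.fix_eq _ _ k
  rw [e]
  exact h _ _ _ fun i hi => dif_pos hi

theorem chain_fix {N : ℕ} (hN : 0 < N) (α : Fin N → ℝ) (hα : ∀ i, 1 < |α i|)
    (hB : ∀ j, PhaseJ α (· < ·) j) (B : Fin N → Set ℝ) (hP : ∀ i, IsPi03 (B i)) :
    ∃ ξ : ℝ, ∀ j, (∀ i < j, ξ ∈ NormalSet (α i)) → (ξ ∈ NormalSet (α j) ↔ ξ ∈ B j) := by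
  choose F hF hBF using hP
  set s : ℕ → Fin N := fun k => ⟨k % N, Nat.mod_lt _ hN⟩ with hs
  obtain ⟨P, -, h1, h2, h3, h4⟩ := joint_game α hα _ hB s
    (fun j => ⟨j, Fin.ext (Nat.mod_eq_of_lt j.2)⟩) 0 0
  obtain ⟨x, hx⟩ := exists_fix (fun k y => out (F (s k)) (k / N - 1)
    (II (P y (k - N)).1 (P y (k - N)).2) (II (P y k).1 (P y k).2)) fun k y z h => by
      rw [h1 y z k h, h1 y z (k - N) fun i hi => h i (by omega)]
  set I : ℕ → Set ℝ := fun k => II (P x k).1 (P x k).2 with hI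
  have hanti : Antitone I := antitone_nat_of_succ_le (h2 x)
  obtain ⟨ξ, hξ⟩ := IsCompact.nonempty_iInter_of_sequence_nonempty_isCompact_isClosed I (h2 x)
    (fun n => ⟨_, mem_II_self _ _⟩) isCompact_Icc (fun n => isClosed_Icc)
  rw [Set.mem_iInter] at hξ
  have key : ∀ j : Fin N, (∀ K : ℕ, ∀ᶠ n in atTop, s n = j → K ≤ x n) ↔ ξ ∈ B j := by
    intro j
    have hj := j.2
    have hmono : ∀ m, N * m + j ≤ N * (m + 1) + j := fun m => by rw [mul_add]; omega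
    rw [hBF j, ← out_tendsto (hF j) (I := fun m => I (N * m + j)) (fun m => hanti (hmono m))
      (fun m => hξ _) fun ε hε => ?_]
    · have e : ∀ m, out (F j) m (I (N * m + j)) (I (N * (m + 1) + j)) = x (N * (m + 1) + j) := by
        intro m
        have e1 : s (N * (m + 1) + j) = j := Fin.ext (by
          simp only [hs, Nat.mul_add_mod, Nat.mod_eq_of_lt hj])
        have e2 : (N * (m + 1) + j) / N - 1 = m := by
          rw [Nat.mul_add_div hN, Nat.div_eq_of_lt hj]; omega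
        have e3 : N * (m + 1) + j - N = N * m + j := by rw [mul_add]; omega
        rw [hx, e1, e2, e3]
      simp only [e, tendsto_atTop]
      refine forall_congr' fun K => ⟨fun H => ?_, fun H => ?_⟩
      · have ht : Tendsto (fun m => N * (m + 1) + j) atTop atTop :=
          tendsto_atTop_mono (fun m => by
            have := Nat.le_mul_of_pos_left (m + 1) hN
            simp only [id]; omega) tendsto_id
        filter_upwards [ht.eventually H] with m hm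
        exact hm (Fin.ext (by simp only [hs, Nat.mul_add_mod, Nat.mod_eq_of_lt hj]))
      · obtain ⟨M, hM⟩ := eventually_atTop.1 H
        filter_upwards [eventually_ge_atTop (N * (M + 1))] with n hn hsn
        have a1 : M + 1 ≤ n / N := (Nat.le_div_iff_mul_le hN).2 (by rwa [mul_comm])
        have a2 : n % N = j := congrArg Fin.val hsn
        have a3 := hM (n / N - 1) (by omega)
        rwa [Nat.sub_add_cancel (by omega), ← a2, Nat.div_add_mod] at a3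
    · have ht : Tendsto (fun n : ℕ => Real.exp (-(n : ℝ))) atTop (𝓝 0) :=
        Real.tendsto_exp_neg_atTop_nhds_zero.comp tendsto_natCast_atTop_atTop
      obtain ⟨n, hn⟩ := (ht.eventually (gt_mem_nhds hε)).exists
      refine ⟨n, fun z hz => lt_of_le_of_lt ?_ hn⟩
      have a0 : n ≤ N * n + j := by
        have := Nat.le_mul_of_pos_left n hN
        omega
      have a1 := hanti a0 hz
      have a2 := hξ n
      have a3 : Real.exp (-(P x n).2) ≤ Real.exp (-(n : ℝ)) :=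
        Real.exp_le_exp.2 (by linarith [h3 x n])
      rw [Real.dist_eq, abs_le]
      constructor <;> linarith [a1.1, a1.2, a2.1, a2.2]
  refine ⟨ξ, fun j hj => ⟨fun h => (key j).1 ((h4 x ξ hξ j).1 h), fun h => (h4 x ξ hξ j).2 ?_⟩⟩
  intro K
  have : ∀ i : Fin N, ∀ᶠ n in atTop, i ≤ j → s n = i → K ≤ x n := fun i => by
    rcases lt_trichotomy i j with hi | rfl | hi
    · exact ((h4 x ξ hξ i).1 (hj i hi) K).mono fun _ h _ => h
    · exact ((key i).2 h K).mono fun _ h _ => h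
    · exact Eventually.of_forall fun _ h => absurd h (not_le.2 hi)
  filter_upwards [eventually_all.2 this] with n hn h
  exact hn _ (not_lt.1 h) rfl

end Pool.Agent.Lib.MP_3974fb_lc
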