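import Pool.Agent.Lib.MP_3974fb_lc.JointAlg
import Pool.Agent.Lib.MP_3974fb_lc.JointDefs

/-! Assembly: a biased phase for one base of a finite family; the difference classes. -/

namespace Pool.Agent.Lib.MP_3974fb_lc

open Filter Topology Finset

lemma exists_common {β : ℝ} (hβ : 1 < |β|) (D : Finset ℝ)
    (hD : ∀ θ ∈ D, 1 < |θ| ∧ ¬ Irrational (Real.log |θ| / Real.log |β|)) :
    ∃ r : ℕ, 1 ≤ r ∧ ∀ θ ∈ D, ∃ p : ℕ, 1 ≤ p ∧ r * Real.log |θ| = p * Real.log |β| := by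
  classical
  have hLβ := Real.log_pos hβ
  induction D using Finset.induction_on with
  | empty => exact ⟨1, le_rfl, by simp⟩
  | insert θ D _ ih =>
    obtain ⟨r, hr, h⟩ := ih fun θ' h' => hD θ' (mem_insert_of_mem h')
    obtain ⟨hθ, hirr⟩ := hD θ (mem_insert_self _ _)
    have hLθ := Real.log_pos hθ
    obtain ⟨x, hx⟩ := not_not.1 hirr
    have hx0 : 0 < x := by
      have : (0 : ℝ) < x := by rw [hx]; positivity
      exact_mod_cast this
    obtain ⟨p, hp⟩ : ∃ p : ℕ, x.num = p := ⟨x.num.toNat, by have := Rat.num_pos.2 hx0; omega⟩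
    have hp0 : 1 ≤ p := by have := Rat.num_pos.2 hx0; omega
    have hq' : (0 : ℝ) < x.den := by exact_mod_cast x.den_pos
    rw [Rat.cast_def, hp, div_eq_div_iff hq'.ne' hLβ.ne'] at hx
    push_cast at hx
    refine ⟨r * x.den, Nat.mul_pos hr x.den_pos, fun θ' h' => ?_⟩
    rcases mem_insert.1 h' with rfl | h'
    · refine ⟨r * p, Nat.mul_pos hr hp0, ?_⟩
      push_cast
      linear_combination (-(r : ℝ)) * hx
    · obtain ⟨p', hp', he⟩ := h θ' h'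
      refine ⟨p' * x.den, Nat.mul_pos hp' x.den_pos, ?_⟩
      push_cast
      linear_combination (x.den : ℝ) * he

theorem blockT_family {β : ℝ} (hβ : 1 < |β|) (D : Finset ℝ)
    (hD : ∀ θ ∈ D, 1 < |θ| ∧ ¬ Irrational (Real.log |θ| / Real.log |β|)) {ξ : ℝ}
    (hξ : ξ ∉ NormalSet β) (hξD : ∀ θ ∈ D, ξ ∈ NormalSet θ) :
    ∃ Ne : ℝ → Prop, BlockT β Ne ∧ (∀ θ ∈ D, Ne θ) ∧
      ∀ θ, 1 < |θ| → Irrational (Real.log |θ| / Real.log |β|) → Ne θ := by
  classical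
  have hLβ := Real.log_pos hβ
  obtain ⟨r, hr, hp⟩ := exists_common hβ D hD
  choose! p hp1 hp using hp
  have hr' : (0 : ℝ) < r := by exact_mod_cast hr
  set γ := Real.exp (Real.log |β| / r) with hγdef
  have hγ : 1 < γ := Real.one_lt_exp_iff.2 (by positivity)
  have hβγ : |β| = γ ^ r := by
    rw [hγdef, ← Real.exp_nat_mul, mul_div_cancel₀ _ hr'.ne', Real.exp_log (by linarith)]
  have hθγ : ∀ θ ∈ D, |θ| = γ ^ p θ := fun θ hθ => by
    rw [hγdef, ← Real.exp_nat_mul, ← Real.exp_log (show 0 < |θ| by linarith [(hD θ hθ).1])]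
    congr 1
    field_simp
    linarith [hp θ hθ]
  set s := 2 * ∏ θ ∈ D, p θ with hsdef
  have hs : 1 ≤ s := Nat.mul_pos two_pos (prod_pos fun θ hθ => hp1 θ hθ)
  have hβs : β ^ s = γ ^ (r * s) := by
    rw [pow_mul γ, ← hβγ, hsdef, (even_two_mul _).pow_abs β]
  obtain ⟨φ, h₀, κ, hφ, hh₀, hκ, h1, h2⟩ := exists_phi_multi hs hξ
  refine ⟨Neu γ (r * s) φ, ?_, fun θ hθ => ⟨(hD θ hθ).1, Or.inr ?_⟩,
    fun θ hθ hirr => ⟨hθ, Or.inl ?_⟩⟩
  · by_cases halg : IsAlgebraic ℚ γ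
    · exact blockT_alg hγ halg hr hs hβγ hφ hh₀ hκ h2
    · exact blockT_trans hγ halg hr hs hβγ hβs hφ hh₀ hκ h2
  · have e : p θ * (2 * (r * ∏ θ' ∈ D.erase θ, p θ')) = r * s := by
      rw [hsdef, ← mul_prod_erase D p hθ]; ring
    have hq : 1 ≤ 2 * (r * ∏ θ' ∈ D.erase θ, p θ') := Nat.mul_pos two_pos
      (Nat.mul_pos hr (prod_pos fun θ' h' => hp1 θ' (mem_of_mem_erase h')))
    have e2 : θ ^ (2 * (r * ∏ θ' ∈ D.erase θ, p θ')) = γ ^ (r * s) := by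
      rw [← (even_two_mul _).pow_abs θ, hθγ θ hθ, ← pow_mul, e]
    exact ⟨p θ, _, hp1 θ hθ, hq, e, hθγ θ hθ, e2,
      h1 θ _ hq (e2.trans hβs.symm) (hξD θ hθ)⟩
  · have e : Real.log |θ| / Real.log γ = r * (Real.log |θ| / Real.log |β|) := by
      rw [hγdef, Real.log_exp]; field_simp
    rw [e]
    exact hirr.natCast_mul (by omega)

theorem phaseJ_family {ι : Type} [Fintype ι] {α : ι → ℝ} (hα : ∀ i, 1 < |α i|) {j : ι}
    {r : ι → ι → Prop} {ξ : ℝ} (hξ : ξ ∉ NormalSet (α j))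
    (hξD : ∀ i, r i j → ¬ Irrational (Real.log |α i| / Real.log |α j|) → ξ ∈ NormalSet (α i)) :
    PhaseJ α r j := by
  classical
  obtain ⟨Ne, h1, h2, h3⟩ := blockT_family (hα j) ((univ.filter fun i => r i j ∧
      ¬ Irrational (Real.log |α i| / Real.log |α j|)).image α)
    (fun θ hθ => by
      obtain ⟨i, hi, rfl⟩ := mem_image.1 hθ
      exact ⟨hα i, (mem_filter.1 hi).2.2⟩) hξ (fun θ hθ => by
      obtain ⟨i, hi, rfl⟩ := mem_image.1 hθ
      exact hξD i (mem_filter.1 hi).2.1 (mem_filter.1 hi).2.2)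
  refine phaseJ_of_blockT hα (fun i hi => ?_) h1
  by_cases hirr : Irrational (Real.log |α i| / Real.log |α j|)
  · exact h3 _ (hα i) hirr
  · exact h2 _ (mem_image.2 ⟨i, mem_filter.2 ⟨mem_univ _, hi, hirr⟩, rfl⟩)

lemma isPi03_univ : IsPi03 Set.univ := ⟨fun _ _ => Set.univ, fun _ _ => isClosed_univ, by ext; simp⟩

lemma isPi03_empty : IsPi03 ∅ := ⟨fun _ _ => ∅, fun _ _ => isClosed_empty, by ext; simp⟩

lemma IsPi03.inter {A B : Set ℝ} (hA : IsPi03 A) (hB : IsPi03 B) : IsPi03 (A ∩ B) := by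
  obtain ⟨F, hF, rfl⟩ := hA
  obtain ⟨G, hG, rfl⟩ := hB
  refine ⟨fun k m => F k m.unpair.1 ∩ G k m.unpair.2, fun k m => (hF _ _).inter (hG _ _), ?_⟩
  ext x
  simp only [Set.mem_inter_iff, Set.mem_iInter, Set.mem_iUnion]
  refine ⟨fun h k => ?_, fun h => ⟨fun k => ?_, fun k => ?_⟩⟩
  · obtain ⟨a, ha⟩ := h.1 k
    obtain ⟨b, hb⟩ := h.2 k
    exact ⟨Nat.pair a b, by simpa using ⟨ha, hb⟩⟩
  · obtain ⟨m, hm⟩ := h k
    exact ⟨_, hm.1⟩
  · obtain ⟨m, hm⟩ := h k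
    exact ⟨_, hm.2⟩

lemma nest_congr {x : ℝ} : ∀ (n : ℕ) (A B : ℕ → Set ℝ),
    (∀ j < n, (∀ i < j, x ∈ A i) → (x ∈ A j ↔ x ∈ B j)) → (x ∈ nest n A ↔ x ∈ nest n B)
  | 0, _, _, _ => Iff.rfl
  | n + 1, A, B, h => by
    have h0 := h 0 (by omega) (by simp)
    simp only [nest, Set.mem_sdiff, ← h0]
    refine and_congr_right fun hx => not_congr (nest_congr n _ _ fun j hj hi => ?_)
    refine h (j + 1) (by omega) fun i hi' => ?_
    cases i with
    | zero => exact hx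
    | succ i => exact hi i (by omega)

lemma IsDn.cons {n : ℕ} {A D : Set ℝ} (hA : IsPi03 A) (hD : IsDn n D) : IsDn (n + 1) (A \ D) := by
  obtain ⟨B, hB, rfl⟩ := hD
  exact ⟨fun i => Nat.casesOn i A B, fun i => by cases i; exacts [hA, hB _], rfl⟩

lemma IsDn.inter {n : ℕ} {A D : Set ℝ} (hA : IsPi03 A) (hD : IsDn n D) : IsDn n (A ∩ D) := by
  obtain ⟨B, hB, rfl⟩ := hD
  cases n with
  | zero => exact ⟨B, hB, by simp [nest]⟩
  | succ n =>
    rw [nest, ← Set.inter_sdiff_assoc]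
    exact IsDn.cons (hA.inter (hB 0)) ⟨_, fun i => hB _, rfl⟩

lemma IsDn.succ : ∀ {n : ℕ} {D : Set ℝ}, IsDn n D → IsDn (n + 1) D
  | 0, _, ⟨_, _, h⟩ => ⟨fun _ => ∅, fun _ => isPi03_empty, by simp [h, nest]⟩
  | _ + 1, _, ⟨B, hB, h⟩ => by
    rw [h, nest]
    exact IsDn.cons (hB 0) (IsDn.succ ⟨_, fun i => hB _, rfl⟩)

lemma nest_collapse : ∀ (j n : ℕ) (A : ℕ → Set ℝ) (T : Set ℝ), (∀ i, IsPi03 (A i)) → IsPi03 T →
    j ≤ n → (∀ x ∈ T, (∀ i ≤ j, x ∈ A i) → x ∈ A (j + 1)) → IsDn n (T ∩ nest (n + 2) A)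
  | 0, n, A, T, hA, hT, _, h => by
    have e : T ∩ nest (n + 2) A = (T ∩ A 0) ∩ nest n fun i => A (i + 1 + 1) := by
      ext x
      simp only [nest, Set.mem_inter_iff, Set.mem_sdiff, not_and, not_not]
      exact ⟨fun a => ⟨⟨a.1, a.2.1⟩, a.2.2 (h x a.1 fun i hi => by
        obtain rfl : i = 0 := by omega
        exact a.2.1)⟩, fun a => ⟨a.1.1, a.1.2, fun _ => a.2⟩⟩
    rw [e]
    exact IsDn.inter (hT.inter (hA 0)) ⟨_, fun i => hA _, rfl⟩
  | j + 1, 0, _, _, _, _, hj, _ => absurd hj (by omega)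
  | j + 1, n + 1, A, T, hA, hT, hj, h => by
    have e : T ∩ nest (n + 1 + 2) A =
        (T ∩ A 0) \ ((T ∩ A 0) ∩ nest (n + 2) fun i => A (i + 1)) := by
      rw [Set.sdiff_self_inter, Set.inter_sdiff_assoc]; rfl
    rw [e]
    refine IsDn.cons (hT.inter (hA 0)) (nest_collapse j n _ _ (fun i => hA _) (hT.inter (hA 0))
      (by omega) fun x hx hi => h x hx.1 fun i hi' => ?_)
    cases i with
    | zero => exact hx.2
    | succ i => exact hi i (by omega)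

lemma zero_not_normal (α : ℝ) : (0 : ℝ) ∉ NormalSet α := by
  rw [normal_iff_weyl]
  intro h
  have h1 := (tendsto_avg_iff.1 (h 1 le_rfl) (1 / 2) (by norm_num)).and (eventually_ge_atTop 1)
  obtain ⟨N, h2, h3⟩ := h1.exists
  have h4 : (1 : ℝ) ≤ N := by exact_mod_cast h3
  simp only [mul_zero, ee_zero, sum_const, card_range, nsmul_eq_mul, mul_one,
    Complex.norm_natCast] at h2
  linarith

end Pool.Agent.Lib.MP_3974fb_lc
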