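import Pool.Agent.Lib.MP_3974fb_lc.Cases

/-! Phases that are neutral for finitely many bases at once. -/

namespace Pool.Agent.Lib.MP_3974fb_lc

open Filter Topology Finset

theorem phaseG_fin (S : Finset ℝ) (hS : ∀ γ ∈ S, 1 < |γ|) (H : ℕ) {ε : ℝ} (hε : 0 < ε) :
    ∃ τ₀ : ℝ, ∀ c τ τ₁ : ℝ, τ₀ ≤ τ → ∃ c' τ' : ℝ, τ ≤ τ' ∧ τ₁ ≤ τ' ∧
      II c' τ' ⊆ II c τ ∧ ∀ ξ ∈ II c' τ', ∀ γ ∈ S, Ctl γ H ε ξ τ τ' := by
  have hγ : ∀ i : S × Fin H × Fin 4, 1 < |(i.1 : ℝ)| := fun i => hS _ i.1.2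
  set D : ℝ := ∑ γ ∈ S, CC γ with hD
  have hD0 : 0 ≤ D := sum_nonneg fun γ h => (CC_pos (hS γ h)).le
  have hDi : ∀ γ ∈ S, CC γ ≤ D := fun γ h =>
    single_le_sum (f := CC) (fun γ h => (CC_pos (hS γ h)).le) h
  obtain ⟨C, hC0, hC⟩ := blackwell (ι := S × Fin H × Fin 4) (fun i => (i.1 : ℝ)) hγ
    (fun i => i.2.1 + 1) (fun i => w4 i.2.2) (fun i => norm_w4 _) (fun _ => -(ε / 8)) (by
      intro w₀
      refine ⟨max w₀ (8 * D / ε), le_max_left _ _, fun c τ _ V hV => ?_⟩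
      have h3 := le_max_right w₀ (8 * D / ε)
      refine choose_point _ hγ _ _ _ (le_trans (by positivity) h3) (p := fun _ => 1)
        continuous_const (fun _ => zero_le_one) ?_ (fun i => ?_) V hV
      · change 0 < (KK c τ 0).re
        rw [KK_zero]; simp
      · change _ * (KK c τ 0).re ≤ _
        rw [KK_zero, Complex.one_re, mul_one]
        refine le_trans ?_ (abs_le.1 ((abs_re_le (norm_w4 _)).trans ((norm_sum_le _ _).trans
          ((sum_le_sum fun n _ => norm_KK_le c τ (freq_ne_zero (hγ i) (by omega) n)).trans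
          (sum_win_inv (hγ i) (by omega) τ _))))).1
        rw [div_le_iff₀ hε] at h3
        have := hDi _ i.1.2
        nlinarith) (η := ε / 8) (by positivity)
  refine ⟨4 * C / ε, fun c τ τ₁ hτ => ?_⟩
  have hτ0 : 0 ≤ τ := le_trans (by positivity) hτ
  obtain ⟨c', τ', h1, -, h3, h4, h5⟩ := hC c τ (max 0 (τ₁ - τ + C)) hτ0 (le_max_left _ _)
  refine ⟨c', τ', h3, by linarith [le_max_right 0 (τ₁ - τ + C)], h4, fun ξ hξ γ hγS => ?_⟩
  intro h hh hH t ht1 ht2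
  have := norm_le_of_w4 (A := ε / 4 * (t - τ) + C) (z := SS γ h ξ t - SS γ h ξ τ) fun k => by
    have := h5 ξ hξ (⟨γ, hγS⟩, ⟨h - 1, by omega⟩, k) t ht1 ht2
    simp only [Nat.sub_add_cancel hh] at this
    linarith
  rw [div_le_iff₀ hε] at hτ
  nlinarith

end Pool.Agent.Lib.MP_3974fb_lc
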