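import Pool.Agent.Lib.MP_3974fb_lc.JointGame

/-! Blocks whose neutrality error depends on the position but is small on average. -/

namespace Pool.Agent.Lib.MP_3974fb_lc

open Filter Topology Finset

lemma superblock {ι : Type} [Fintype ι] (γ : ι → ℝ) (hγ : ∀ i, 1 < |γ i|) (h : ι → ℕ)
    (ω : ι → ℂ) (hω : ∀ i, ‖ω i‖ ≤ 1) (A : ι → ℝ → ℝ) {w E : ℝ} (hw : 0 ≤ w)
    (hE : ∀ i, 7 * h i * CC (γ i) ≤ E)
    (hblk : ∀ c τ, 0 ≤ τ → ∀ V : ι → ℝ, (∀ i, 0 ≤ V i) → ∃ ξ ∈ II c τ, 0 ≤ ∑ i, V i *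
      ((ω i * (SS (γ i) (h i) ξ (τ + w) - SS (γ i) (h i) ξ τ)).re - A i τ))
    (L : ℕ) (c τ : ℝ) (hτ : 0 ≤ τ) (V : ι → ℝ) (hV : ∀ i, 0 ≤ V i) :
    ∃ c', II c' (τ + L * w) ⊆ II c τ ∧ ∀ ξ ∈ II c' (τ + L * w), 0 ≤ ∑ i, V i *
      ((ω i * (SS (γ i) (h i) ξ (τ + L * w) - SS (γ i) (h i) ξ τ)).re -
        (∑ k ∈ range L, A i (τ + k * w) - L * E)) := by
  induction L with
  | zero => exact ⟨c, by simp, fun ξ _ => by simp⟩
  | succ k ih =>
    obtain ⟨c₁, h1, h3⟩ := ih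
    have hτk : 0 ≤ τ + k * w := by positivity
    obtain ⟨ξ₀, hξ₀, hV'⟩ := hblk c₁ (τ + k * w) hτk V hV
    have e : τ + ((k + 1 : ℕ) : ℝ) * w = τ + k * w + w := by push_cast; ring
    obtain ⟨c₂, h4, h5⟩ := exists_sub_II (τ' := τ + k * w + w) (by linarith) hξ₀
    rw [e]
    refine ⟨c₂, h4.trans h1, fun ξ hξ => ?_⟩
    refine (add_nonneg (h3 ξ (h4 hξ)) hV').trans ?_
    rw [← sum_add_distrib]
    refine sum_le_sum fun i _ => ?_
    rw [← mul_add]
    refine mul_le_mul_of_nonneg_left ?_ (hV i)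
    have b2 := (abs_re_le (hω i)).trans (SS_perturb (hγ i) (h i) (ξ := ξ) (ξ' := ξ₀)
      (by linarith : τ + k * w ≤ τ + k * w + w) (by
        rw [abs_le]; constructor <;> linarith [hξ.1, hξ.2, h5.1, h5.2]))
    have b3 := (abs_le.1 b2).1
    have b4 := hE i
    rw [sum_range_succ]
    simp only [mul_sub, Complex.sub_re] at b3 ⊢
    push_cast
    linarith

def BlockT (β : ℝ) (Ne : ℝ → Prop) : Prop :=
  ∃ (h₀ : ℕ) (ω : ℂ) (δ : ℝ), 1 ≤ h₀ ∧ ‖ω‖ ≤ 1 ∧ 0 < δ ∧ ∀ S : Finset ℝ, (∀ θ ∈ S, Ne θ) →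
    ∀ (H : ℕ) (ε : ℝ), 0 < ε → ∀ w₀ : ℝ, ∃ w, w₀ ≤ w ∧ ∃ (b : ℝ → ℝ) (C : ℝ),
      (∀ τ, 0 ≤ τ → ∀ L : ℕ, ∑ k ∈ range L, b (τ + k * w) ≤ ε * (L * w) + C) ∧
      ∀ c τ : ℝ, 0 ≤ τ → ∃ p : ℝ → ℝ, Continuous p ∧ (∀ x, 0 ≤ p x) ∧ ‖BB c τ p 0 - 1‖ ≤ 1 / 2 ∧
        (∀ θ ∈ S, ∀ h : ℕ, 1 ≤ h → h ≤ H →
          ‖∑ n ∈ win θ τ w, BB c τ p (h * θ ^ n)‖ ≤ ε * w + b τ) ∧
        δ * w ≤ (ω * ∑ n ∈ win β τ w, BB c τ p (h₀ * β ^ n)).re

theorem phaseJ_of_blockT {ι : Type} {α : ι → ℝ} (hα : ∀ i, 1 < |α i|) {j : ι} {Ne : ℝ → Prop}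
    {r : ι → ι → Prop} (hNe : ∀ i, r i j → Ne (α i)) (hB : BlockT (α j) Ne) : PhaseJ α r j := by
  obtain ⟨h₀, ω, δ, hh₀, hω, hδ, hB⟩ := hB
  set β := α j with hβdef
  have hβ : 1 < |β| := hα j
  refine ⟨h₀, δ / 12, hh₀, by positivity, fun S hS H ε hε => ?_⟩
  have hγ : ∀ i : Option (S × Fin H × Fin 4), 1 < |i.elim β fun j => (j.1 : ℝ)| := fun i => by
    cases i with
    | none => exact hβ
    | some j =>
      obtain ⟨i, -, hi⟩ := hS _ j.1.2
      simp only [Option.elim_some, hi]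
      exact hα i
  have hω' : ∀ i : Option (S × Fin H × Fin 4), ‖i.elim ω fun j => w4 j.2.2‖ ≤ 1 := fun i => by
    cases i with
    | none => exact hω
    | some j => exact norm_w4 _
  set E : ℝ := ∑ i : Option (S × Fin H × Fin 4),
    7 * ((i.elim h₀ fun j => j.2.1 + 1 : ℕ) : ℝ) * CC (i.elim β fun j => (j.1 : ℝ)) with hE
  have hEi : ∀ i : Option (S × Fin H × Fin 4),
      7 * ((i.elim h₀ fun j => j.2.1 + 1 : ℕ) : ℝ) * CC (i.elim β fun j => (j.1 : ℝ)) ≤ E :=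
    fun i => single_le_sum (f := fun i : Option (S × Fin H × Fin 4) =>
      7 * ((i.elim h₀ fun j => j.2.1 + 1 : ℕ) : ℝ) * CC (i.elim β fun j => (j.1 : ℝ)))
      (fun j _ => by have := CC_pos (hγ j); positivity) (mem_univ i)
  obtain ⟨C, hC0, hC⟩ := blackwell (ι := Option (S × Fin H × Fin 4))
    (fun i => i.elim β fun j => (j.1 : ℝ)) hγ
    (fun i => i.elim h₀ fun j => j.2.1 + 1) (fun i => i.elim ω fun j => w4 j.2.2) hω'
    (fun i => i.elim (δ / 3) fun _ => -(ε / 8))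
    (by
      intro w₀
      obtain ⟨w, hw, b, C₀, hb, hblk⟩ := hB S (fun θ hθ => by
        obtain ⟨i, hi, rfl⟩ := hS θ hθ
        exact hNe i hi) H (ε / 64) (by positivity) (max 1 (max (3 * E / δ) (32 * E / ε)))
      simp only [max_le_iff] at hw
      obtain ⟨hw1, hw2, hw3⟩ := hw
      rw [div_le_iff₀ (by positivity)] at hw2 hw3
      have hw0 : 0 ≤ w := by linarith
      obtain ⟨L, hL⟩ := exists_nat_ge (max w₀ (64 * C₀ / ε))
      simp only [max_le_iff] at hL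
      obtain ⟨hL1, hL2⟩ := hL
      rw [div_le_iff₀ hε] at hL2
      have hL0 : (0 : ℝ) ≤ L := Nat.cast_nonneg _
      refine ⟨L * w, by nlinarith, fun c τ hτ V hV => ?_⟩
      obtain ⟨c', h1, h2⟩ := superblock (ι := Option (S × Fin H × Fin 4))
        (fun i => i.elim β fun j => (j.1 : ℝ)) hγ
        (fun i => i.elim h₀ fun j => j.2.1 + 1) (fun i => i.elim ω fun j => w4 j.2.2) hω'
        (fun i τ => i.elim (2 * δ / 3 * w) fun _ => -(2 * (ε / 64 * w + b τ))) hw0 hEi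
        (fun c τ hτ V hV => by
          obtain ⟨p, hp, hp0, h1, h2, h3⟩ := hblk c τ hτ
          have h4 := abs_le.1 ((Complex.abs_re_le_norm _).trans h1)
          rw [Complex.sub_re, Complex.one_re] at h4
          refine choose_point _ hγ _ _ _ hw0 hp hp0 (by linarith) (fun i => ?_) V hV
          cases i with
          | none =>
            refine le_trans ?_ h3
            have : 0 ≤ δ * w := by positivity
            simp only [Option.elim_none]
            nlinarith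
          | some j =>
            have h5 := h2 _ j.1.2 (j.2.1 + 1) (by omega) (by omega)
            refine le_trans ?_ (abs_le.1 ((abs_re_le (norm_w4 _)).trans h5)).1
            have := (norm_nonneg _).trans h5
            simp only [Option.elim_some]
            nlinarith) L c τ hτ V hV
      refine ⟨c', h1 (mem_II_self _ _), (h2 c' (mem_II_self _ _)).trans
        (sum_le_sum fun i _ => mul_le_mul_of_nonneg_left (sub_le_sub_left ?_ _) (hV i))⟩
      cases i with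
      | none =>
        simp only [Option.elim_none, sum_const, card_range, nsmul_eq_mul]
        nlinarith
      | some j =>
        simp only [Option.elim_some, sum_neg_distrib, ← mul_sum, sum_add_distrib, sum_const,
          card_range, nsmul_eq_mul]
        have a1 := hb τ hτ L
        have a2 : L * E ≤ ε / 32 * (L * w) := by nlinarith
        have a3 : 2 * C₀ ≤ ε / 32 * (L * w) := by nlinarith [mul_nonneg hL0 hε.le]
        nlinarith) (η := min (ε / 8) (δ / 6)) (by positivity)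
  refine ⟨max (4 * C / ε) (max (C / ε) (12 * (δ / 6 * C + C) / (δ * ε))), fun c τ θ hτ hθ => ?_⟩
  simp only [max_le_iff] at hτ
  obtain ⟨t1, t2, t3⟩ := hτ
  have hτ0 : 0 ≤ τ := le_trans (by positivity) t1
  have hθ0 : 0 < θ := hε.trans_le hθ
  obtain ⟨c', τ', h1, h2, h3, h4, h5⟩ := hC c τ (θ * τ) hτ0 (by positivity)
  have m1 := min_le_left (ε / 8) (δ / 6)
  have m2 := min_le_right (ε / 8) (δ / 6)
  refine ⟨c', τ', h3, by linarith, h4, fun ξ hξ => ⟨fun γ hγS h hh hH t ht1 ht2 => ?_, ?_⟩⟩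
  · have := norm_le_of_w4 (A := ε / 4 * (t - τ) + C) (z := SS γ h ξ t - SS γ h ξ τ) fun k => by
      have := h5 ξ hξ (some (⟨γ, hγS⟩, ⟨h - 1, by omega⟩, k)) t ht1 ht2
      simp only [Option.elim_some, Nat.sub_add_cancel hh] at this
      nlinarith
    rw [div_le_iff₀ hε] at t1
    nlinarith
  · have a := h5 ξ hξ none τ' h3 le_rfl
    simp only [Option.elim_none] at a
    refine le_trans ?_ ((a.trans (le_abs_self _)).trans (abs_re_le hω))
    rw [div_le_iff₀ (by positivity)] at t2 t3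
    have b1 : δ / 6 * (τ' - τ) ≤ (δ / 3 - min (ε / 8) (δ / 6)) * (τ' - τ) := by
      gcongr; linarith
    have b2 : δ / 6 * (θ * τ - C) ≤ δ / 6 * (τ' - τ) :=
      mul_le_mul_of_nonneg_left (by linarith) (by positivity)
    have b3 : τ * (δ * ε) ≤ τ * (δ * θ) := by gcongr
    nlinarith

end Pool.Agent.Lib.MP_3974fb_lc
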