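import Pool.Agent.Lib.MP_3974fb_lc.JointSuper

/-! The limit function for several dependent bases; Riesz product blocks for families. -/

namespace Pool.Agent.Lib.MP_3974fb_lc

open Filter Topology Finset

theorem exists_phi_multi {β : ℝ} {s : ℕ} (hs : 1 ≤ s) {ξ : ℝ} (hβ : ξ ∉ NormalSet β) :
    ∃ (φ : ℝ → ℂ) (h₀ : ℕ) (κ : ℂ), PD φ ∧ 1 ≤ h₀ ∧ κ ≠ 0 ∧
      (∀ (α : ℝ) (r : ℕ), 1 ≤ r → α ^ r = β ^ s → ξ ∈ NormalSet α →
        ∀ h : ℕ, 1 ≤ h → ∀ n, ∑ i ∈ range r, φ (h * α ^ (n + i)) = 0) ∧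
      (∀ n, ∑ j ∈ range s, φ (h₀ * β ^ (n + j)) = κ) := by
  rw [normal_iff_weyl] at hβ
  simp only [tendsto_avg_iff, not_forall] at hβ
  obtain ⟨h₀, hh₀, δ, hδ, hβ⟩ := hβ
  have hs' : (0 : ℝ) < s := by exact_mod_cast hs
  have hfr : ∃ᶠ N : ℕ in atTop,
      δ / 2 * N ≤ ‖∑ m ∈ range (s * N), ee (h₀ * β ^ m * ξ)‖ := by
    by_contra hcon
    rw [not_frequently] at hcon
    apply hβ
    have hT : Tendsto (fun M : ℕ => M / s) atTop atTop := Nat.tendsto_div_const_atTop (by omega)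
    filter_upwards [hT.eventually hcon,
      tendsto_natCast_atTop_atTop.eventually_ge_atTop (2 * (s : ℝ) / δ)] with M h1 h2
    rw [not_le] at h1
    have e : M = s * (M / s) + M % s := (Nat.div_add_mod M s).symm
    have h3 := norm_sum_le_card (f := fun m => ee (h₀ * β ^ (s * (M / s) + m) * ξ))
      (fun m => by simp) (range (M % s))
    rw [card_range] at h3
    have h4 : ((M % s : ℕ) : ℝ) ≤ s := by exact_mod_cast (Nat.mod_lt M (by omega)).le
    have h5 : ((M / s : ℕ) : ℝ) ≤ M := by exact_mod_cast Nat.div_le_self M s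
    rw [div_le_iff₀ hδ] at h2
    conv_lhs => rw [e, sum_range_add]
    refine (norm_add_le _ _).trans ?_
    nlinarith
  have hne : (atTop ⊓ 𝓟 {N : ℕ | δ / 2 * N ≤ ‖∑ m ∈ range (s * N), ee (h₀ * β ^ m * ξ)‖}).NeBot :=
    frequently_iff_neBot.1 hfr
  set U := Ultrafilter.of
    (atTop ⊓ 𝓟 {N : ℕ | δ / 2 * N ≤ ‖∑ m ∈ range (s * N), ee (h₀ * β ^ m * ξ)‖}) with hU
  have hU1 : (U : Filter ℕ) ≤ atTop := (Ultrafilter.of_le _).trans inf_le_left
  have hU2 : ∀ᶠ N : ℕ in U, δ / 2 * N ≤ ‖∑ m ∈ range (s * N), ee (h₀ * β ^ m * ξ)‖ :=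
    le_principal_iff.1 ((Ultrafilter.of_le _).trans inf_le_right)
  set Φ : ℕ → ℝ → ℂ := fun N t => (∑ l ∈ range N, ee (t * ((β ^ s) ^ l * ξ))) / N with hΦ
  have hΦ1 : ∀ N t, ‖Φ N t‖ ≤ 1 := fun N t => by
    have := norm_sum_le_card (f := fun l => ee (t * ((β ^ s) ^ l * ξ))) (fun m => by simp) (range N)
    rw [card_range] at this
    rw [hΦ, norm_div, Complex.norm_natCast]
    exact div_le_one_of_le₀ this (Nat.cast_nonneg _)
  have hex : ∀ t, ∃ z, Tendsto (fun N => Φ N t) U (𝓝 z) := fun t => by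
    obtain ⟨z, -, hz⟩ := (isCompact_closedBall (0 : ℂ) 1).ultrafilter_le_nhds
      (U.map fun N => Φ N t) (by
        rw [le_principal_iff, Ultrafilter.coe_map, Filter.mem_map]
        exact univ_mem' fun N => by simpa using hΦ1 N t)
    exact ⟨z, hz⟩
  choose φ hφ using hex
  -- block sums
  have hblock : ∀ {θ : ℝ} {q : ℕ}, θ ^ q = β ^ s → ∀ (h n : ℕ),
      Tendsto (fun N : ℕ => (∑ m ∈ range (q * N), ee (h * θ ^ m * ξ)) / N) U
        (𝓝 (∑ i ∈ range q, φ (h * θ ^ (n + i)))) := by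
    intro θ q hq h n
    have h1 : Tendsto (fun N : ℕ => ∑ i ∈ range q, Φ N (h * θ ^ (n + i))) U
        (𝓝 (∑ i ∈ range q, φ (h * θ ^ (n + i)))) := tendsto_finsetSum _ fun i _ => hφ _
    have h2 : Tendsto (fun N : ℕ => (∑ m ∈ range (q * N), ee (h * θ ^ (n + m) * ξ) -
        ∑ m ∈ range (q * N), ee (h * θ ^ m * ξ)) / N) U (𝓝 0) := by
      refine Tendsto.mono_left ?_ hU1
      rw [tendsto_avg_iff]
      intro ε hε
      filter_upwards [tendsto_natCast_atTop_atTop.eventually_ge_atTop (2 * (n : ℝ) / ε)] with N hN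
      refine (shift_sum (f := fun m => ee (h * θ ^ m * ξ)) (fun m => by simp) n _).trans ?_
      rw [div_le_iff₀ hε] at hN; linarith
    have h3 := h1.sub h2
    rw [sub_zero] at h3
    refine h3.congr fun N => ?_
    simp only [hΦ]
    rw [← sum_div, sum_comm, ← sub_div,
      ← block_sum (fun m => ee (h * θ ^ (n + m) * ξ)) q N]
    congr 1
    rw [sub_sub_eq_add_sub, sub_eq_iff_eq_add, add_comm]
    congr 1
    refine sum_congr rfl fun l _ => sum_congr rfl fun i _ => ?_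
    rw [← hq, ← pow_mul]; congr 1; ring
  refine ⟨φ, h₀, ∑ j ∈ range s, φ (h₀ * β ^ (0 + j)), ⟨?_, fun t => ?_, fun t => ?_, ?_⟩, hh₀, ?_,
    fun α r hr hrs hα h hh n => ?_,
    fun n => tendsto_nhds_unique (hblock rfl h₀ n) (hblock rfl h₀ 0)⟩
  · refine tendsto_nhds_unique (hφ 0) (tendsto_const_nhds.congr' ?_)
    filter_upwards [hU1 (eventually_ge_atTop 1)] with N hN
    have : (N : ℂ) ≠ 0 := by exact_mod_cast (by omega : N ≠ 0)
    simp [hΦ, div_self this]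
  · exact le_of_tendsto' (hφ t).norm fun N => hΦ1 N t
  · refine tendsto_nhds_unique (hφ (-t)) (((Complex.continuous_conj.tendsto _).comp (hφ t)).congr
      fun N => ?_)
    simp only [Function.comp, hΦ, map_div₀, map_sum, Complex.conj_natCast, ← ee_neg, neg_mul]
  · intro F σ x
    have h1 : Tendsto (fun N : ℕ => ∑ u ∈ F, ∑ v ∈ F, Φ N (σ * (u - v)) * ee (-(σ * (u - v) * x)))
        U (𝓝 (∑ u ∈ F, ∑ v ∈ F, φ (σ * (u - v)) * ee (-(σ * (u - v) * x)))) :=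
      tendsto_finsetSum _ fun u _ => tendsto_finsetSum _ fun v _ => (hφ _).mul_const _
    have h2 : ∀ N : ℕ, ∑ u ∈ F, ∑ v ∈ F, Φ N (σ * (u - v)) * ee (-(σ * (u - v) * x)) =
        (((∑ l ∈ range N, Complex.normSq (∑ u ∈ F, ee (σ * u * ((β ^ s) ^ l * ξ - x)))) / N : ℝ) :
          ℂ) := fun N => by
      simp only [hΦ, div_mul_eq_mul_div, ← sum_div]
      push_cast
      congr 1
      simp only [sum_mul]
      rw [sum_congr rfl fun u _ => sum_comm, sum_comm]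
      refine sum_congr rfl fun l _ => ?_
      rw [← Complex.mul_conj, map_sum, sum_mul_sum]
      refine sum_congr rfl fun u _ => sum_congr rfl fun v _ => ?_
      rw [← ee_neg, ← ee_add, ← ee_add]; congr 1; ring
    simp only [h2] at h1
    constructor
    · refine ge_of_tendsto' ((Complex.continuous_re.tendsto _).comp h1) fun N => ?_
      simp only [Function.comp, Complex.ofReal_re]
      exact div_nonneg (sum_nonneg fun _ _ => Complex.normSq_nonneg _) (Nat.cast_nonneg _)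
    · refine tendsto_nhds_unique ((Complex.continuous_im.tendsto _).comp h1)
        (tendsto_const_nhds.congr fun N => ?_)
      simp only [Function.comp, Complex.ofReal_im]
  · have h1 := (hblock rfl h₀ 0).norm
    have h2 : δ / 2 ≤ ‖∑ j ∈ range s, φ (h₀ * β ^ (0 + j))‖ := by
      refine ge_of_tendsto h1 ?_
      filter_upwards [hU2, hU1 (eventually_ge_atTop 1)] with N h2 hN
      have : (0 : ℝ) < N := by exact_mod_cast hN
      rwa [norm_div, Complex.norm_natCast, le_div_iff₀ this]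
    intro h0
    rw [h0, norm_zero] at h2
    linarith
  · rw [normal_iff_weyl] at hα
    simp only [tendsto_avg_iff] at hα
    refine tendsto_nhds_unique (hblock hrs h n) (Tendsto.mono_left ?_ hU1)
    rw [tendsto_avg_iff]
    intro ε hε
    have hr' : (0 : ℝ) < r := by exact_mod_cast hr
    have hT : Tendsto (fun N : ℕ => r * N) atTop atTop :=
      tendsto_id.const_mul_atTop' (by omega)
    filter_upwards [hT.eventually (hα h hh (ε / r) (by positivity))] with N hN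
    refine hN.trans (le_of_eq ?_)
    push_cast; field_simp

variable {U : Finset ℝ} {cf : ℝ → ℂ} {f : ℝ → ℝ} {a s₀ M Λ : ℝ}

lemma blockT_of_riesz (R : RD U cf f a s₀ M Λ) {β : ℝ} {Ne : ℝ → Prop} (hβ : 1 < |β|)
    {q q₀ h₀ : ℕ}
    (hq : β ^ q = Λ) (hq₀ : q₀ ≤ q) (hh₀ : 1 ≤ h₀) (hU1 : ∀ i < q₀, h₀ * β ^ i ∈ U)
    (hU2 : ∀ e : ℤ, h₀ * β ^ e ∈ U → 0 ≤ e ∧ e < q₀)
    (hκ : 5 * q * a ^ 2 < ‖∑ i ∈ range q₀, cf (h₀ * β ^ i)‖)
    (hα : ∀ α, Ne α → ∀ h : ℕ, 1 ≤ h → ∀ ε > 0, ∀ᶠ J : ℕ in atTop, ∀ c τ, 0 ≤ τ →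
      ‖∑ n ∈ win α τ (4 * J * Real.log Λ), BB c τ (PP f Λ J (Λ ^ kk Λ τ J)) (h * α ^ n)‖ ≤ ε * J) :
    BlockT β Ne := by
  set κ := ∑ i ∈ range q₀, cf (h₀ * β ^ i) with hκdef
  have hL := Real.log_pos R.big3
  have hΛ0 : 0 < Λ := by linarith [R.big3]
  have hκ' : 0 < ‖κ‖ := lt_of_le_of_lt (by positivity) hκ
  have hω : ‖(starRingEnd ℂ) κ / ‖κ‖‖ ≤ 1 := by
    rw [norm_div, Complex.norm_conj, Complex.norm_real, norm_norm, div_self hκ'.ne']
  set d := (‖κ‖ - 5 * q * a ^ 2) / 2 with hd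
  have hd0 : 0 < d := by rw [hd]; linarith
  refine ⟨h₀, (starRingEnd ℂ) κ / ‖κ‖, d / (4 * Real.log Λ), hh₀, hω, by positivity,
    fun S hS H ε hε w₀ => ?_⟩
  obtain ⟨C', -, hb⟩ := R.bound 0 one_pos
  obtain ⟨J, k1, k2, k3, k4⟩ := ((R.sum_exact 0 hβ hq hq₀ hh₀ hU1 hU2 hd0).and
    (((eventually_all_finset S).2 fun α hαS => (eventually_all_finset (Icc 1 H)).2 fun h hh =>
      hα α (hS α hαS) h (mem_Icc.1 hh).1
      (ε * (4 * Real.log Λ)) (by positivity)).and ((R.err_le (ε := 1 / 2) (by positivity)).and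
      (tendsto_natCast_atTop_atTop.eventually_ge_atTop (w₀ / (4 * Real.log Λ)))))).exists
  rw [div_le_iff₀ (by positivity)] at k4
  refine ⟨4 * J * Real.log Λ, by linarith, fun _ => 0, 0, fun τ _ L => by
    rw [sum_const_zero]; positivity, fun c τ hτ => ⟨PP f Λ J (Λ ^ kk Λ τ J),
    R.continuous_PP _ _, R.PP_nonneg _ _, (hb J _ c τ _ (by positivity) (k3 τ)).1,
    fun α hαS h h1 h2 => (k2 α hαS h (mem_Icc.2 ⟨h1, h2⟩) c τ hτ).trans (le_of_eq (by ring)), ?_⟩⟩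
  have h6 := (abs_le.1 ((abs_re_le hω).trans (k1 c τ hτ))).1
  have h7 : (starRingEnd ℂ) κ / ‖κ‖ * (J * κ) = ((‖κ‖ * J : ℝ) : ℂ) := by
    have : ((‖κ‖ : ℝ) : ℂ) ≠ 0 := by exact_mod_cast hκ'.ne'
    rw [mul_comm (J : ℂ), ← mul_assoc, div_mul_eq_mul_div, Complex.conj_mul',
      Complex.ofReal_mul ‖κ‖, Complex.ofReal_natCast]
    field_simp
  rw [mul_sub, Complex.sub_re, h7, Complex.ofReal_re] at h6
  have e1 : d / (4 * Real.log Λ) * (4 * J * Real.log Λ) = d * J := by field_simp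
  have e2 : ‖κ‖ * J = 2 * (d * J) + 5 * q * a ^ 2 * J := by rw [hd]; ring
  rw [zero_add] at h6
  linarith

/-- bases for which a block built from `γ`, `Q`, `φ` can be made neutral. -/
def Neu (γ : ℝ) (Q : ℕ) (φ : ℝ → ℂ) (θ : ℝ) : Prop :=
  1 < |θ| ∧ (Irrational (Real.log |θ| / Real.log γ) ∨ ∃ p q : ℕ, 1 ≤ p ∧ 1 ≤ q ∧ p * q = Q ∧
    |θ| = γ ^ p ∧ θ ^ q = γ ^ Q ∧ ∀ h : ℕ, 1 ≤ h → ∀ n, ∑ i ∈ range q, φ (h * θ ^ (n + i)) = 0)

theorem blockT_trans {β γ : ℝ} {r s : ℕ} (hγ : 1 < γ) (htr : Transcendental ℚ γ) (hr : 1 ≤ r)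
    (hs : 1 ≤ s) (hβγ : |β| = γ ^ r)
    (hβs : β ^ s = γ ^ (r * s)) {φ : ℝ → ℂ} {h₀ : ℕ} {κ : ℂ} (hφ : PD φ)
    (hh₀ : 1 ≤ h₀) (hκ : κ ≠ 0)
    (hφβ : ∀ n, ∑ j ∈ range s, φ (h₀ * β ^ (n + j)) = κ) : BlockT β (Neu γ (r * s) φ) := by
  classical
  have hγ0 : 0 < γ := by linarith
  have hβ : 1 < |β| := hβγ ▸ one_lt_pow₀ hγ (by omega)
  have hh₀' : (0 : ℝ) < h₀ := by exact_mod_cast hh₀
  have hκ' : 0 < ‖κ‖ := norm_pos_iff.2 hκ
  set U : Finset ℝ := ((range (r * s)).image fun i => h₀ * γ ^ i) ∪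
    ((range (r * s)).image fun i => -(h₀ * γ ^ i)) with hUdef
  have hU : ∀ x, x ∈ U ↔ ∃ i < r * s, |x| = h₀ * γ ^ i := fun x => by
    simp only [hUdef, mem_union, mem_image, mem_range]
    constructor
    · rintro (⟨i, hi, rfl⟩ | ⟨i, hi, rfl⟩)
      · exact ⟨i, hi, abs_of_pos (by positivity)⟩
      · exact ⟨i, hi, by rw [abs_neg, abs_of_pos (by positivity)]⟩
    · rintro ⟨i, hi, h⟩
      rcases (abs_eq (by positivity)).1 h with h | h
      exacts [Or.inl ⟨i, hi, h.symm⟩, Or.inr ⟨i, hi, h.symm⟩]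
  obtain ⟨s₀, M, Λ₀, hR⟩ := exists_RD U (fun h => by
      obtain ⟨i, -, h⟩ := (hU 0).1 h
      rw [abs_zero] at h
      exact absurd h (by positivity)) (fun u hu => by rwa [hU, abs_neg, ← hU]) φ hφ.norm_le hφ.neg
  obtain ⟨N, hN⟩ := pow_unbounded_of_one_lt Λ₀ hγ
  have hrs : 1 ≤ r * s := Nat.mul_pos hr hs
  have hs' : (0 : ℝ) < (s * (N + 1) : ℕ) := by exact_mod_cast Nat.mul_pos hs (by omega)
  set a : ℝ := min (1 / (U.card + 2)) (‖κ‖ / (10 * (s * (N + 1) : ℕ))) with ha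
  have ha0 : 0 < a := by positivity
  obtain ⟨cf, f, R, hcf⟩ := hR (γ ^ (r * s * (N + 1)))
    (hN.trans_le (pow_le_pow_right₀ hγ.le (by nlinarith))) a ha0.le (by
      rw [← le_div_iff₀ (by positivity)]; exact min_le_left _ _)
  have hmem : ∀ {θ : ℝ} {p q : ℕ}, |θ| = γ ^ p → 1 ≤ p → p * q = r * s → ∀ i < q,
      h₀ * θ ^ i ∈ U := by
    intro θ p q h1 h2 h3 i hi
    refine (hU _).2 ⟨p * i, ?_, by rw [abs_mul, abs_pow, h1, Nat.abs_cast, pow_mul]⟩
    rw [← h3]; exact Nat.mul_lt_mul_of_pos_left hi h2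
  have hrange : ∀ {p q i : ℕ} {e : ℤ}, 1 ≤ p → p * q = r * s → i < r * s → p * e = i →
      0 ≤ e ∧ e < q := by
    intro p q i e h1 h2 h3 h4
    have h5 : (i : ℤ) < p * q := by exact_mod_cast h2 ▸ h3
    have h6 : (0 : ℤ) < p := by exact_mod_cast h1
    exact ⟨nonneg_of_mul_nonneg_right (by rw [h4]; positivity) h6 |> fun h => h,
      lt_of_mul_lt_mul_left (by rw [h4]; exact h5) h6.le⟩
  have habs : ∀ {θ : ℝ} {p : ℕ}, |θ| = γ ^ p → ∀ (h : ℕ) (e : ℤ),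
      |h * θ ^ e| = h * γ ^ ((p : ℤ) * e) := by
    intro θ p h1 h e
    rw [abs_mul, abs_zpow, h1, Nat.abs_cast, zpow_mul, zpow_natCast]
  refine blockT_of_riesz R hβ (q := s * (N + 1)) (q₀ := s) (h₀ := h₀)
    (by rw [pow_mul, hβs, ← pow_mul]) (by nlinarith) hh₀ (hmem hβγ hr rfl) (fun e he => ?_) ?_
    fun α hN h hh ε hε => ?_
  · obtain ⟨i, hi, h1⟩ := (hU _).1 he
    rw [habs hβγ, ← zpow_natCast] at h1
    exact hrange hr rfl hi (zpow_right_injective₀ hγ0 hγ.ne' (mul_left_cancel₀ hh₀'.ne' h1))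
  · rw [sum_congr rfl fun i hi => hcf _ (hmem hβγ hr rfl i (mem_range.1 hi)), ← mul_sum]
    have := hφβ 0
    simp only [zero_add] at this
    rw [this, norm_mul, Complex.norm_real, Real.norm_eq_abs, abs_of_pos ha0, sq, ← mul_assoc,
      mul_comm a]
    gcongr
    have h1 : a ≤ ‖κ‖ / (10 * (s * (N + 1) : ℕ)) := min_le_right _ _
    rw [le_div_iff₀ (by positivity)] at h1
    nlinarith
  · obtain ⟨hα, hirr | ⟨s', r', hs₁, hr₁, hsr, hαγ, hαr, hφα⟩⟩ := hN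
    · refine R.sum_sparse hα (fun g hg i he => ?_) hh hε
      refine hirr ⟨(i * (r * s * (N + 1) : ℕ) : ℤ) / (g : ℕ), ?_⟩
      have hL := Real.log_pos hγ
      have hg' : (0 : ℝ) < g := by exact_mod_cast hg
      rw [Real.log_pow] at he
      push_cast at he ⊢
      rw [div_eq_div_iff hg'.ne' hL.ne']
      linarith
    have hq : (0 : ℝ) < (r' * (N + 1) : ℕ) := by exact_mod_cast Nat.mul_pos hr₁ (by omega)
    obtain ⟨m, hm⟩ := R.exists_m (ε := ε / (10 * (r' * (N + 1) : ℕ))) (by positivity)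
    have := R.sum_exact m hα (q := r' * (N + 1)) (q₀ := if h = h₀ then r' else 0) (h := h)
      (by rw [pow_mul, hαr, ← pow_mul]) (by split_ifs <;> nlinarith) hh (fun i hi => by
        split_ifs at hi with h1
        · rw [h1]; exact hmem hαγ hs₁ hsr i hi
        · omega) (fun e he => by
        obtain ⟨u, hu, i, h1, h2, h3⟩ := EE_trans hγ htr hh₀ (fun u hu => by
          obtain ⟨i, hi, h⟩ := (hU u).1 hu
          exact ⟨i, hi.trans_le (by nlinarith), h⟩) he (habs hαγ h e)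
        obtain ⟨i', hi', h4⟩ := (hU u).1 hu
        rw [h1] at h4
        obtain rfl := pow_right_injective₀ hγ0 hγ.ne' (mul_left_cancel₀ hh₀'.ne' h4)
        rw [if_pos h3]
        exact hrange hs₁ hsr hi' h2) (half_pos hε)
    have hz : ∑ i ∈ range (if h = h₀ then r' else 0), cf (h * α ^ i) = 0 := by
      split_ifs with h1
      · rw [h1, sum_congr rfl fun i hi => hcf _ (hmem hαγ hs₁ hsr i (mem_range.1 hi)),
          ← mul_sum]
        have := hφα h₀ hh₀ 0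
        simp only [zero_add] at this
        rw [this, mul_zero]
      · simp
    rw [hz] at this
    filter_upwards [this] with J hJ c τ hτ
    have h1 := hJ c τ hτ
    rw [mul_zero, sub_zero] at h1
    refine h1.trans (mul_le_mul_of_nonneg_right ?_ (Nat.cast_nonneg _))
    rw [le_div_iff₀ (by positivity)] at hm
    linarith

end Pool.Agent.Lib.MP_3974fb_lc
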