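import Pool.Agent.Lib.MP_3974fb_lc.Phi

/-! A Liouville type inequality and its consequences. -/

namespace Pool.Agent.Lib.MP_3974fb_lc

open Filter Topology Finset

structure SizeSys (γ : ℝ) (Z : ℕ → ℝ → ℝ → Prop) (B : ℝ) (D : ℕ) : Prop where
  one_le : 1 ≤ B
  zero : Z 0 0 0
  one : Z 0 1 1
  add : ∀ {K A A' x y}, Z K A x → Z K A' y → Z K (A + A') (x + y)
  neg : ∀ {K A x}, Z K A x → Z K A (-x)
  mul : ∀ {K A x}, Z K A x → Z (K + 1) A (γ * x)
  succ : ∀ {K A x}, Z K A x → Z (K + 1) A x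
  mono : ∀ {K A A' x}, A ≤ A' → Z K A x → Z K A' x
  upper : ∀ {K A x}, Z K A x → |x| ≤ A * B ^ K
  lower : ∀ {K A x}, 1 ≤ A → Z K A x → x ≠ 0 → 1 ≤ |x| * (A * B ^ K) ^ D

open NumberField in
theorem exists_sizeSys_aux {L : Type} [Field L] [NumberField L] (ι : L →+* ℝ) (g : L) :
    ∃ Z B D, SizeSys (ι g) Z B D := by
  have halg : IsAlgebraic ℤ g :=
    (IsFractionRing.isAlgebraic_iff ℤ ℚ L).2 (Algebra.IsAlgebraic.isAlgebraic g)
  obtain ⟨a, ha, hint⟩ := halg.exists_integral_multiple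
  rw [zsmul_eq_mul] at hint
  have ha1 : (1 : ℝ) ≤ |(a : ℝ)| := by exact_mod_cast Int.one_le_abs ha
  set B₀ : ℝ := max 1 (house g) with hB₀
  have hB1 : 1 ≤ B₀ := le_max_left _ _
  have hA0 : ∀ {K : ℕ} {A : ℝ} {y : L}, house y ≤ A * B₀ ^ K → 0 ≤ A := fun {K A y} h =>
    nonneg_of_mul_nonneg_left ((house_nonneg y).trans h) (by positivity)
  have haint : IsIntegral ℤ (a : L) := by simpa using isIntegral_algebraMap (R := ℤ) (A := L) (x := a)
  have hemb : ∀ y : L, |ι y| ≤ house y := fun y => by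
    simpa using norm_embedding_le_house y (Complex.ofRealHom.comp ι)
  refine ⟨fun K A x => ∃ y : L, ι y = x ∧ IsIntegral ℤ ((a : L) ^ K * y) ∧ house y ≤ A * B₀ ^ K,
    |(a : ℝ)| * B₀, Module.finrank ℚ L, by nlinarith, ⟨0, by simp, by simpa using isIntegral_zero,
      by simp [house]⟩, ⟨1, by simp, by simpa using isIntegral_one, by
        simpa using (house_intCast (K := L) 1).le⟩, ?_, ?_, ?_, ?_, ?_, ?_, ?_⟩
  · rintro K A A' _ _ ⟨x, rfl, h1, h2⟩ ⟨y, rfl, h3, h4⟩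
    exact ⟨x + y, by simp, by rw [mul_add]; exact h1.add h3,
      (house_add_le _ _).trans (by linarith)⟩
  · rintro K A _ ⟨x, rfl, h1, h2⟩
    exact ⟨-x, by simp, by rw [mul_neg]; exact h1.neg, by simpa [house] using h2⟩
  · rintro K A _ ⟨x, rfl, h1, h2⟩
    refine ⟨g * x, by simp, ?_, (house_mul_le _ _).trans ?_⟩
    · have : (a : L) ^ (K + 1) * (g * x) = (a * g) * (a ^ K * x) := by ring
      rw [this]; exact hint.mul h1
    · have h3 : house g ≤ B₀ := le_max_right _ _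
      have := house_nonneg x
      calc house g * house x ≤ B₀ * (A * B₀ ^ K) := by gcongr
        _ = _ := by ring
  · rintro K A _ ⟨x, rfl, h1, h2⟩
    refine ⟨x, rfl, ?_, h2.trans ?_⟩
    · have : (a : L) ^ (K + 1) * x = a * (a ^ K * x) := by ring
      rw [this]; exact haint.mul h1
    · have := hA0 h2
      gcongr; omega
  · rintro K A A' _ h ⟨x, rfl, h1, h2⟩
    exact ⟨x, rfl, h1, h2.trans (by gcongr)⟩
  · rintro K A _ ⟨x, rfl, h1, h2⟩
    refine (hemb x).trans (h2.trans ?_)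
    have := hA0 h2
    gcongr; nlinarith
  · rintro K A _ hA ⟨x, rfl, h1, h2⟩ hx
    have hx0 : x ≠ 0 := by rintro rfl; simp at hx
    have haL : (a : L) ≠ 0 := by exact_mod_cast ha
    have hz : (a : L) ^ K * x ≠ 0 := mul_ne_zero (pow_ne_zero _ haL) hx0
    obtain ⟨k, hk⟩ := IsIntegrallyClosed.isIntegral_iff.1 (Algebra.isIntegral_norm ℚ h1)
    have hk0 : k ≠ 0 := by
      rintro rfl
      exact (Algebra.norm_ne_zero_iff (R := ℚ)).2 hz (by rw [← hk, map_zero])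
    have h3 := norm_norm_le_norm_mul_house_pow ((a : L) ^ K * x) (Complex.ofRealHom.comp ι)
    rw [← hk] at h3
    have h4 : (1 : ℝ) ≤ ‖algebraMap ℤ ℚ k‖ := by
      have : (1 : ℝ) ≤ |(k : ℝ)| := by exact_mod_cast Int.one_le_abs hk0
      simpa [← Rat.norm_cast_real] using this
    have h5 : ‖(Complex.ofRealHom.comp ι) ((a : L) ^ K * x)‖ = |(a : ℝ)| ^ K * |ι x| := by simp
    have h6 : house ((a : L) ^ K * x) ≤ A * (|(a : ℝ)| * B₀) ^ K := by
      refine (house_mul_le _ _).trans ?_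
      have := (house_pow_le (a : L) K)
      rw [house_intCast] at this
      push_cast at this
      have := house_nonneg x
      calc _ ≤ |(a : ℝ)| ^ K * (A * B₀ ^ K) := by gcongr
        _ = _ := by rw [mul_pow]; ring
    have h7 : |(a : ℝ)| ^ K ≤ A * (|(a : ℝ)| * B₀) ^ K := by
      calc _ ≤ (|(a : ℝ)| * B₀) ^ K := by gcongr; nlinarith
        _ ≤ _ := le_mul_of_one_le_left (by positivity) hA
    obtain ⟨d, hd⟩ : ∃ d, Module.finrank ℚ L = d + 1 :=
      ⟨_, (Nat.succ_pred_eq_of_pos Module.finrank_pos).symm⟩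
    rw [h5, hd, Nat.add_sub_cancel] at h3
    rw [hd]
    have := house_nonneg ((a : L) ^ K * x)
    calc 1 ≤ |(a : ℝ)| ^ K * |ι x| * house ((a : L) ^ K * x) ^ d := h4.trans h3
      _ ≤ (A * (|(a : ℝ)| * B₀) ^ K) * |ι x| * (A * (|(a : ℝ)| * B₀) ^ K) ^ d := by gcongr
      _ = _ := by ring

open IntermediateField in
theorem exists_sizeSys {γ : ℝ} (hγ : IsAlgebraic ℚ γ) : ∃ Z B D, SizeSys γ Z B D := by
  have : FiniteDimensional ℚ ℚ⟮γ⟯ := adjoin.finiteDimensional hγ.isIntegral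
  have : NumberField ℚ⟮γ⟯ := NumberField.mk
  exact exists_sizeSys_aux (algebraMap ℚ⟮γ⟯ ℝ) (AdjoinSimple.gen ℚ γ)

namespace SizeSys

variable {γ : ℝ} {Z : ℕ → ℝ → ℝ → Prop} {B : ℝ} {D : ℕ} (S : SizeSys γ Z B D)
include S

lemma monoK {K K' : ℕ} {A x : ℝ} (h : K ≤ K') (hx : Z K A x) : Z K' A x := by
  induction K', h using Nat.le_induction with
  | base => exact hx
  | succ n _ ih => exact S.succ ih

lemma pow_mul {K : ℕ} {A x : ℝ} (m : ℕ) (hx : Z K A x) : Z (K + m) A (γ ^ m * x) := by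
  induction m with
  | zero => simpa using hx
  | succ m ih =>
    have := S.mul ih
    rwa [← mul_assoc, ← pow_succ'] at this

lemma nat (h : ℕ) : Z 0 h h := by
  induction h with
  | zero => simpa using S.zero
  | succ h ih => push_cast; exact S.add ih S.one

lemma of_abs {h : ℕ} {g : ℝ} (hg : |g| = h) : Z 0 h g := by
  rcases (abs_eq (Nat.cast_nonneg h)).1 hg with rfl | rfl
  exacts [S.nat h, S.neg (S.nat h)]

lemma sub {K : ℕ} {A A' x y : ℝ} (hx : Z K A x) (hy : Z K A' y) : Z K (A + A') (x - y) := by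
  rw [sub_eq_add_neg]; exact S.add hx (S.neg hy)

lemma sep (hγ : 1 < γ) : ∃ C : ℕ, ∀ K : ℕ, 1 ≤ K → ∀ v, Z K (2 ^ K) v → v ≠ 0 →
    ∀ (h m M : ℕ) (y : ℝ), (h : ℝ) ≤ 2 ^ K → |y| = h * γ ^ m → m ≤ M + K → γ ^ M * v ≠ y →
      γ ^ M ≤ |y - γ ^ M * v| * γ ^ (C * K) := by
  have hB := S.one_le
  obtain ⟨c₁, hc₁⟩ := pow_unbounded_of_one_lt (4 * (2 * B) ^ D) hγ
  obtain ⟨c₂, hc₂⟩ := pow_unbounded_of_one_lt ((4 * B ^ (1 + c₁)) ^ D) hγ
  refine ⟨c₁ + c₂, fun K hK v hv hv0 h m M y hh hy hm hne => ?_⟩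
  have hγ0 : 0 < γ := by linarith
  have h2K : (2 : ℝ) ≤ 2 ^ K := le_self_pow₀ (by norm_num) (by omega)
  have hc₂' : 1 ≤ γ ^ (c₂ * K) := one_le_pow₀ hγ.le
  rcases le_or_gt M (m + c₁ * K) with hc | hc
  · -- Liouville
    have hg : Z 0 h (y / γ ^ m) := S.of_abs (by
      rw [abs_div, hy, abs_of_pos (pow_pos hγ0 _), mul_div_cancel_right₀ _ (pow_pos hγ0 _).ne'])
    have h1 : Z (K + c₁ * K) (2 ^ K + 2 ^ K) (γ ^ (m - M) * (y / γ ^ m) - γ ^ (M - m) * v) :=
      S.sub (S.monoK (by omega) (S.mono hh (S.pow_mul _ hg))) (S.monoK (by omega) (S.pow_mul _ hv))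
    have e : γ ^ (m - M) * (y / γ ^ m) - γ ^ (M - m) * v =
        (y - γ ^ M * v) * γ ^ (M - m) / γ ^ M := by
      have : γ ^ (m - M) * γ ^ M = γ ^ (M - m) * γ ^ m := by
        rw [← pow_add, ← pow_add]; congr 1; omega
      field_simp
      linear_combination y * this
    rw [e] at h1
    have hne' : y - γ ^ M * v ≠ 0 := sub_ne_zero.2 (Ne.symm hne)
    have h2 := S.lower (by linarith) h1 (by positivity)
    rw [abs_div, abs_mul, abs_of_pos (pow_pos hγ0 _), abs_of_pos (pow_pos hγ0 _),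
      div_mul_eq_mul_div, le_div_iff₀ (pow_pos hγ0 _), one_mul] at h2
    refine h2.trans ?_
    rw [mul_assoc, add_mul c₁, pow_add γ]
    gcongr
    · exact hγ.le
    · omega
    · calc ((2 ^ K + 2 ^ K) * B ^ (K + c₁ * K)) ^ D ≤ (4 ^ K * B ^ (K + c₁ * K)) ^ D := by
            gcongr
            rw [show (4 : ℝ) = 2 * 2 by norm_num, mul_pow]; nlinarith
        _ = ((4 * B ^ (1 + c₁)) ^ D) ^ K := by
            rw [← _root_.pow_mul, mul_comm D K, _root_.pow_mul, mul_pow 4, ← _root_.pow_mul,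
              add_mul, one_mul]
        _ ≤ (γ ^ c₂) ^ K := by gcongr
        _ = _ := by rw [← _root_.pow_mul]
  · have h1 := S.lower (by linarith) hv hv0
    have h2 : 2 * 2 ^ K * (2 ^ K * B ^ K) ^ D ≤ γ ^ (c₁ * K) := by
      calc 2 * 2 ^ K * (2 ^ K * B ^ K) ^ D ≤ 2 ^ K * 2 ^ K * (2 ^ K * B ^ K) ^ D := by gcongr
        _ = (4 * (2 * B) ^ D) ^ K := by
            rw [← mul_pow, ← mul_pow, ← _root_.pow_mul, mul_comm K D, _root_.pow_mul, ← mul_pow]
            norm_num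
        _ ≤ (γ ^ c₁) ^ K := by gcongr
        _ = _ := by rw [← _root_.pow_mul]
    have h3 : 2 * 2 ^ K ≤ |v| * γ ^ (c₁ * K) := by
      calc 2 * 2 ^ K = 2 * 2 ^ K * (1 : ℝ) := by ring
        _ ≤ 2 * 2 ^ K * (|v| * (2 ^ K * B ^ K) ^ D) := by gcongr
        _ = |v| * (2 * 2 ^ K * (2 ^ K * B ^ K) ^ D) := by ring
        _ ≤ _ := by gcongr
    have h4 : γ ^ m * γ ^ (c₁ * K) ≤ γ ^ M := by
      rw [← pow_add]; exact pow_le_pow_right₀ hγ.le hc.le
    have h5 : |y| * γ ^ (c₁ * K) ≤ 2 ^ K * γ ^ M := by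
      rw [hy, mul_assoc]; gcongr
    have h6 : γ ^ M * |v| - |y| ≤ |y - γ ^ M * v| := by
      have := abs_sub_abs_le_abs_sub (γ ^ M * v) y
      rwa [abs_mul, abs_of_pos (pow_pos hγ0 _), abs_sub_comm] at this
    have h7 : γ ^ M * (2 * 2 ^ K) ≤ γ ^ M * (|v| * γ ^ (c₁ * K)) := by gcongr
    have h8 : (γ ^ M * |v| - |y|) * γ ^ (c₁ * K) ≤ |y - γ ^ M * v| * γ ^ (c₁ * K) := by gcongr
    have h9 : γ ^ M ≤ 2 ^ K * γ ^ M := le_mul_of_one_le_left (by positivity) (by linarith)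
    rw [add_mul, pow_add, ← mul_assoc]
    refine le_trans ?_ (le_mul_of_one_le_right (by positivity) hc₂')
    nlinarith

end SizeSys

lemma card_le_of_sep {F : Finset ℝ} {M G : ℝ} (hM : 0 ≤ M) (hG : 0 < G) (h1 : ∀ u ∈ F, |u| ≤ M)
    (h2 : ∀ u ∈ F, ∀ v ∈ F, u ≠ v → 1 ≤ |u - v| * G) : (F.card : ℝ) ≤ 2 * M * G + 1 := by
  have h : F.card ≤ (range (⌊2 * M * G⌋₊ + 1)).card := by
    refine card_le_card_of_injOn (fun u => ⌊(u + M) * G⌋₊) (fun u hu => ?_) fun u hu v hv huv => ?_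
    · have := abs_le.1 (h1 u hu)
      simp only [coe_range, Set.mem_Iio]
      exact Nat.lt_succ_of_le (Nat.floor_mono (by gcongr; linarith))
    · by_contra hne
      have a1 := abs_le.1 (h1 u hu)
      have a2 := abs_le.1 (h1 v hv)
      have b1 := Nat.floor_le (show 0 ≤ (u + M) * G from mul_nonneg (by linarith) hG.le)
      have b2 := Nat.floor_le (show 0 ≤ (v + M) * G from mul_nonneg (by linarith) hG.le)
      have b3 := Nat.lt_floor_add_one ((u + M) * G)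
      have b4 := Nat.lt_floor_add_one ((v + M) * G)
      simp only at huv
      rw [huv] at b1 b3
      have := h2 u hu v hv hne
      rw [← abs_of_pos hG, ← abs_mul, le_abs] at this
      rcases this with h | h <;> linarith
  rw [card_range] at h
  have h' : (F.card : ℝ) ≤ ⌊2 * M * G⌋₊ + 1 := by exact_mod_cast h
  have := Nat.floor_le (show 0 ≤ 2 * M * G by positivity)
  linarith

lemma eventually_lin_le_pow (a b : ℝ) {x : ℝ} (hx : 1 < x) :
    ∀ᶠ K : ℕ in atTop, a * K + b ≤ x ^ K := by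
  have h1 := (tendsto_pow_const_div_const_pow_of_one_lt 1 hx).const_mul a
  have h2 := (tendsto_pow_const_div_const_pow_of_one_lt 0 hx).const_mul b
  have h3 := h1.add h2
  simp only [mul_zero, add_zero, pow_one, pow_zero] at h3
  filter_upwards [h3.eventually (gt_mem_nhds one_pos)] with K hK
  have : 0 < x ^ K := by positivity
  rw [← mul_div_assoc, ← mul_div_assoc, ← add_div, div_lt_one this, mul_one] at hK
  exact hK.le

end Pool.Agent.Lib.MP_3974fb_lc
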