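import Pool.Agent.Lib.MP_3974fb_lc.Av

/-! A positive definite limit function attached to a point of `N(α) \ N(β)`. -/

namespace Pool.Agent.Lib.MP_3974fb_lc

open Filter Topology Finset

lemma block_sum (f : ℕ → ℂ) (r N : ℕ) :
    ∑ l ∈ range N, ∑ i ∈ range r, f (r * l + i) = ∑ m ∈ range (r * N), f m := by
  induction N with
  | zero => simp
  | succ N ih => rw [sum_range_succ, ih, Nat.mul_succ, sum_range_add]

lemma norm_sum_le_card {f : ℕ → ℂ} (hf : ∀ n, ‖f n‖ ≤ 1) (S : Finset ℕ) :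
    ‖∑ m ∈ S, f m‖ ≤ S.card :=
  (norm_sum_le _ _).trans ((sum_le_sum fun n _ => hf n).trans (by simp))

lemma shift_sum {f : ℕ → ℂ} (hf : ∀ n, ‖f n‖ ≤ 1) (n M : ℕ) :
    ‖∑ m ∈ range M, f (n + m) - ∑ m ∈ range M, f m‖ ≤ 2 * n := by
  have h1 := sum_range_add f n M
  have h2 := sum_range_add f M n
  rw [add_comm M n, h1] at h2
  have : ∑ m ∈ range M, f (n + m) - ∑ m ∈ range M, f m =
      ∑ m ∈ range n, f (M + m) - ∑ m ∈ range n, f m := by linear_combination h2
  rw [this]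
  refine (norm_sub_le _ _).trans ?_
  have a := norm_sum_le_card (f := fun m => f (M + m)) (fun m => hf _) (range n)
  have b := norm_sum_le_card hf (range n)
  rw [card_range] at a b
  linarith

structure PD (φ : ℝ → ℂ) : Prop where
  zero : φ 0 = 1
  norm_le : ∀ t, ‖φ t‖ ≤ 1
  neg : ∀ t, φ (-t) = (starRingEnd ℂ) (φ t)
  pos : ∀ (F : Finset ℝ) (σ x : ℝ),
    0 ≤ (∑ u ∈ F, ∑ v ∈ F, φ (σ * (u - v)) * ee (-(σ * (u - v) * x))).re ∧
      (∑ u ∈ F, ∑ v ∈ F, φ (σ * (u - v)) * ee (-(σ * (u - v) * x))).im = 0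

theorem exists_phi {α β : ℝ} {r s : ℕ} (hr : 1 ≤ r) (hs : 1 ≤ s) (hrs : α ^ r = β ^ s) {ξ : ℝ}
    (hα : ξ ∈ NormalSet α) (hβ : ξ ∉ NormalSet β) :
    ∃ (φ : ℝ → ℂ) (h₀ : ℕ) (κ : ℂ), PD φ ∧ 1 ≤ h₀ ∧ κ ≠ 0 ∧
      (∀ h : ℕ, 1 ≤ h → ∀ n, ∑ i ∈ range r, φ (h * α ^ (n + i)) = 0) ∧
      (∀ n, ∑ j ∈ range s, φ (h₀ * β ^ (n + j)) = κ) := by
  rw [normal_iff_weyl] at hα hβ
  simp only [tendsto_avg_iff, not_forall] at hα hβ
  obtain ⟨h₀, hh₀, δ, hδ, hβ⟩ := hβ
  have hs' : (0 : ℝ) < s := by exact_mod_cast hs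
  have hfr : ∃ᶠ N : ℕ in atTop,
      δ / 2 * N ≤ ‖∑ m ∈ range (s * N), ee (h₀ * β ^ m * ξ)‖ := by
    by_contra hcon
    rw [not_frequently] at hcon
    apply hβ
    have hT : Tendsto (fun M : ℕ => M / s) atTop atTop := Nat.tendsto_div_const_atTop (by omega)
    filter_upwards [hT.eventually hcon,
      tendsto_natCast_atTop_atTop.eventually_ge_atTop (2 * (s : ℝ) / δ)] with M h1 h2
    rw [not_le] at h1
    have e : M = s * (M / s) + M % s := (Nat.div_add_mod M s).symm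
    have h3 := norm_sum_le_card (f := fun m => ee (h₀ * β ^ (s * (M / s) + m) * ξ))
      (fun m => by simp) (range (M % s))
    rw [card_range] at h3
    have h4 : ((M % s : ℕ) : ℝ) ≤ s := by exact_mod_cast (Nat.mod_lt M (by omega)).le
    have h5 : ((M / s : ℕ) : ℝ) ≤ M := by exact_mod_cast Nat.div_le_self M s
    rw [div_le_iff₀ hδ] at h2
    conv_lhs => rw [e, sum_range_add]
    refine (norm_add_le _ _).trans ?_
    nlinarith
  have hne : (atTop ⊓ 𝓟 {N : ℕ | δ / 2 * N ≤ ‖∑ m ∈ range (s * N), ee (h₀ * β ^ m * ξ)‖}).NeBot :=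
    frequently_iff_neBot.1 hfr
  set U := Ultrafilter.of
    (atTop ⊓ 𝓟 {N : ℕ | δ / 2 * N ≤ ‖∑ m ∈ range (s * N), ee (h₀ * β ^ m * ξ)‖}) with hU
  have hU1 : (U : Filter ℕ) ≤ atTop := (Ultrafilter.of_le _).trans inf_le_left
  have hU2 : ∀ᶠ N : ℕ in U, δ / 2 * N ≤ ‖∑ m ∈ range (s * N), ee (h₀ * β ^ m * ξ)‖ :=
    le_principal_iff.1 ((Ultrafilter.of_le _).trans inf_le_right)
  set Φ : ℕ → ℝ → ℂ := fun N t => (∑ l ∈ range N, ee (t * ((α ^ r) ^ l * ξ))) / N with hΦ
  have hΦ1 : ∀ N t, ‖Φ N t‖ ≤ 1 := fun N t => by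
    have := norm_sum_le_card (f := fun l => ee (t * ((α ^ r) ^ l * ξ))) (fun m => by simp) (range N)
    rw [card_range] at this
    rw [hΦ, norm_div, Complex.norm_natCast]
    exact div_le_one_of_le₀ this (Nat.cast_nonneg _)
  have hex : ∀ t, ∃ z, Tendsto (fun N => Φ N t) U (𝓝 z) := fun t => by
    obtain ⟨z, -, hz⟩ := (isCompact_closedBall (0 : ℂ) 1).ultrafilter_le_nhds
      (U.map fun N => Φ N t) (by
        rw [le_principal_iff, Ultrafilter.coe_map, Filter.mem_map]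
        exact univ_mem' fun N => by simpa using hΦ1 N t)
    exact ⟨z, hz⟩
  choose φ hφ using hex
  -- block sums
  have hblock : ∀ {θ : ℝ} {q : ℕ}, θ ^ q = α ^ r → ∀ (h n : ℕ),
      Tendsto (fun N : ℕ => (∑ m ∈ range (q * N), ee (h * θ ^ m * ξ)) / N) U
        (𝓝 (∑ i ∈ range q, φ (h * θ ^ (n + i)))) := by
    intro θ q hq h n
    have h1 : Tendsto (fun N : ℕ => ∑ i ∈ range q, Φ N (h * θ ^ (n + i))) U
        (𝓝 (∑ i ∈ range q, φ (h * θ ^ (n + i)))) := tendsto_finsetSum _ fun i _ => hφ _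
    have h2 : Tendsto (fun N : ℕ => (∑ m ∈ range (q * N), ee (h * θ ^ (n + m) * ξ) -
        ∑ m ∈ range (q * N), ee (h * θ ^ m * ξ)) / N) U (𝓝 0) := by
      refine Tendsto.mono_left ?_ hU1
      rw [tendsto_avg_iff]
      intro ε hε
      filter_upwards [tendsto_natCast_atTop_atTop.eventually_ge_atTop (2 * (n : ℝ) / ε)] with N hN
      refine (shift_sum (f := fun m => ee (h * θ ^ m * ξ)) (fun m => by simp) n _).trans ?_
      rw [div_le_iff₀ hε] at hN; linarith
    have h3 := h1.sub h2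
    rw [sub_zero] at h3
    refine h3.congr fun N => ?_
    simp only [hΦ]
    rw [← sum_div, sum_comm, ← sub_div,
      ← block_sum (fun m => ee (h * θ ^ (n + m) * ξ)) q N]
    congr 1
    rw [sub_sub_eq_add_sub, sub_eq_iff_eq_add, add_comm]
    congr 1
    refine sum_congr rfl fun l _ => sum_congr rfl fun i _ => ?_
    rw [← hq, ← pow_mul]; congr 1; ring
  refine ⟨φ, h₀, ∑ j ∈ range s, φ (h₀ * β ^ (0 + j)), ⟨?_, fun t => ?_, fun t => ?_, ?_⟩, hh₀, ?_,
    fun h hh n => ?_, fun n => tendsto_nhds_unique (hblock hrs.symm h₀ n) (hblock hrs.symm h₀ 0)⟩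
  · refine tendsto_nhds_unique (hφ 0) (tendsto_const_nhds.congr' ?_)
    filter_upwards [hU1 (eventually_ge_atTop 1)] with N hN
    have : (N : ℂ) ≠ 0 := by exact_mod_cast (by omega : N ≠ 0)
    simp [hΦ, div_self this]
  · exact le_of_tendsto' (hφ t).norm fun N => hΦ1 N t
  · refine tendsto_nhds_unique (hφ (-t)) (((Complex.continuous_conj.tendsto _).comp (hφ t)).congr
      fun N => ?_)
    simp only [Function.comp, hΦ, map_div₀, map_sum, Complex.conj_natCast, ← ee_neg, neg_mul]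
  · intro F σ x
    have h1 : Tendsto (fun N : ℕ => ∑ u ∈ F, ∑ v ∈ F, Φ N (σ * (u - v)) * ee (-(σ * (u - v) * x)))
        U (𝓝 (∑ u ∈ F, ∑ v ∈ F, φ (σ * (u - v)) * ee (-(σ * (u - v) * x)))) :=
      tendsto_finsetSum _ fun u _ => tendsto_finsetSum _ fun v _ => (hφ _).mul_const _
    have h2 : ∀ N : ℕ, ∑ u ∈ F, ∑ v ∈ F, Φ N (σ * (u - v)) * ee (-(σ * (u - v) * x)) =
        (((∑ l ∈ range N, Complex.normSq (∑ u ∈ F, ee (σ * u * ((α ^ r) ^ l * ξ - x)))) / N : ℝ) :
          ℂ) := fun N => by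
      simp only [hΦ, div_mul_eq_mul_div, ← sum_div]
      push_cast
      congr 1
      simp only [sum_mul]
      rw [sum_congr rfl fun u _ => sum_comm, sum_comm]
      refine sum_congr rfl fun l _ => ?_
      rw [← Complex.mul_conj, map_sum, sum_mul_sum]
      refine sum_congr rfl fun u _ => sum_congr rfl fun v _ => ?_
      rw [← ee_neg, ← ee_add, ← ee_add]; congr 1; ring
    simp only [h2] at h1
    constructor
    · refine ge_of_tendsto' ((Complex.continuous_re.tendsto _).comp h1) fun N => ?_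
      simp only [Function.comp, Complex.ofReal_re]
      exact div_nonneg (sum_nonneg fun _ _ => Complex.normSq_nonneg _) (Nat.cast_nonneg _)
    · refine tendsto_nhds_unique ((Complex.continuous_im.tendsto _).comp h1)
        (tendsto_const_nhds.congr fun N => ?_)
      simp only [Function.comp, Complex.ofReal_im]
  · have h1 := (hblock hrs.symm h₀ 0).norm
    have h2 : δ / 2 ≤ ‖∑ j ∈ range s, φ (h₀ * β ^ (0 + j))‖ := by
      refine ge_of_tendsto h1 ?_
      filter_upwards [hU2, hU1 (eventually_ge_atTop 1)] with N h2 hN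
      have : (0 : ℝ) < N := by exact_mod_cast hN
      rwa [norm_div, Complex.norm_natCast, le_div_iff₀ this]
    intro h0
    rw [h0, norm_zero] at h2
    linarith
  · refine tendsto_nhds_unique (hblock rfl h n) (Tendsto.mono_left ?_ hU1)
    rw [tendsto_avg_iff]
    intro ε hε
    have hr' : (0 : ℝ) < r := by exact_mod_cast hr
    have hT : Tendsto (fun N : ℕ => r * N) atTop atTop :=
      tendsto_id.const_mul_atTop' (by omega)
    filter_upwards [hT.eventually (hα h hh (ε / r) (by positivity))] with N hN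
    refine hN.trans (le_of_eq ?_)
    push_cast; field_simp

end Pool.Agent.Lib.MP_3974fb_lc
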