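import Pool.Agent.Lib.MP_3974fb_lc.Alg

/-! Riesz products: the spectrum. -/

namespace Pool.Agent.Lib.MP_3974fb_lc

open Filter Topology Finset

open Classical in
structure RD (U : Finset ℝ) (cf : ℝ → ℂ) (f : ℝ → ℝ) (a s₀ M Λ : ℝ) : Prop where
  zero_not : 0 ∉ U
  cf0 : cf 0 = 1
  cfU : ∀ u ∈ U, ‖cf u‖ ≤ a
  a_nonneg : 0 ≤ a
  a_half : a ≤ 1 / 2
  s_pos : 0 < s₀
  sep : ∀ u ∈ insert 0 U, ∀ v ∈ insert 0 U, u ≠ v → s₀ ≤ |u - v|
  bdd : ∀ u ∈ insert 0 U, |u| ≤ M
  big1 : 2 * M ≤ (Λ - 1) * s₀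
  big2 : (U.card + 1 : ℝ) ≤ Λ
  big3 : 1 < Λ
  cont : Continuous f
  nonneg : ∀ x, 0 ≤ f x
  eq : ∀ x, (f x : ℂ) = ∑ u ∈ insert 0 U, cf u * ee (-(u * x))

def EE (U : Finset ℝ) (Λ : ℝ) : ℕ → Set ℝ
  | 0 => U
  | m + 1 => Set.image2 (· + ·) (EE U Λ m)
      (Set.image2 (· * ·) (insert 0 (Set.range fun i : ℕ => Λ⁻¹ ^ (i + 1))) (insert 0 (U : Set ℝ)))

lemma EE_mono (U : Finset ℝ) (Λ : ℝ) : Monotone (EE U Λ) :=
  monotone_nat_of_le_succ fun _ x hx =>
    ⟨x, hx, 0, ⟨0, Set.mem_insert _ _, 0, Set.mem_insert _ _, by simp⟩, by simp⟩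

lemma EE_countable (U : Finset ℝ) (Λ : ℝ) (m : ℕ) : (EE U Λ m).Countable := by
  induction m with
  | zero => exact U.countable_toSet
  | succ m ih =>
    exact ih.image2 (((Set.countable_range _).insert _).image2 (U.countable_toSet.insert _) _) _

lemma EE_compact (U : Finset ℝ) {Λ : ℝ} (hΛ : 1 < Λ) (m : ℕ) : IsCompact (EE U Λ m) := by
  induction m with
  | zero => exact U.finite_toSet.isCompact
  | succ m ih =>
    have h1 : Tendsto (fun i : ℕ => Λ⁻¹ ^ (i + 1)) atTop (𝓝 0) :=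
      (tendsto_pow_atTop_nhds_zero_of_lt_one (by positivity) (inv_lt_one_of_one_lt₀ hΛ)).comp
        (tendsto_add_atTop_nat 1)
    exact ih.add (h1.isCompact_insert_range.mul (U.finite_toSet.insert 0).isCompact)

variable {U : Finset ℝ} {cf : ℝ → ℂ} {f : ℝ → ℝ} {a s₀ M Λ : ℝ}

lemma RD.spec (R : RD U cf f a s₀ M Λ) (J : ℕ) : ∃ T : Finset (ℝ × ℂ),
    (∀ x, ((∏ j ∈ range J, f (Λ ^ j * x) : ℝ) : ℂ) = ∑ p ∈ T, p.2 * ee (-(p.1 * x))) ∧
    (T.card : ℝ) ≤ Λ ^ J ∧ (∀ p ∈ T, ∀ q ∈ T, p ≠ q → s₀ ≤ |p.1 - q.1|) ∧ (0, 1) ∈ T ∧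
    (∀ j < J, ∀ u ∈ U, (Λ ^ j * u, cf u) ∈ T) ∧ (∀ p ∈ T, ‖p.2‖ ≤ 1) ∧
    ∀ p ∈ T, p.1 ≠ 0 → ∃ j < J, ∃ x k, p.1 = Λ ^ j * x ∧ s₀ * (Λ ^ j + 1) ≤ 2 * |p.1| ∧
      x ∈ EE U Λ k ∧ ‖p.2‖ ≤ a ^ (k + 1) := by
  classical
  have hΛ := R.big3
  have hΛ0 : 0 < Λ := by linarith
  have hs := R.s_pos
  have hcf : ∀ u ∈ insert 0 U, ‖cf u‖ ≤ 1 := fun u hu => by
    rcases mem_insert.1 hu with rfl | hu
    · rw [R.cf0, norm_one]
    · linarith [R.cfU u hu, R.a_half]
  induction J with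
  | zero => exact ⟨{(0, 1)}, by simp, by simp, by simp, by simp, by simp, by simp, by simp⟩
  | succ J ih =>
    obtain ⟨T, h1, h2, h3, h4, h5, h6, h7⟩ := ih
    set g : ℝ × (ℝ × ℂ) → ℝ × ℂ := fun q => (q.1 + Λ * q.2.1, cf q.1 * q.2.2) with hg
    have hsep : ∀ p ∈ insert 0 U ×ˢ T, ∀ q ∈ insert 0 U ×ˢ T, p ≠ q → s₀ ≤ |(g p).1 - (g q).1| := by
      rintro ⟨u, p⟩ hp ⟨v, q⟩ hq hne
      rw [mem_product] at hp hq
      by_cases hpq : p = q
      · subst hpq
        simpa [hg] using R.sep u hp.1 v hq.1 fun h => hne (by rw [h])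
      · have a1 := h3 p hp.2 q hq.2 hpq
        have a2 := R.bdd u hp.1
        have a3 := R.bdd v hq.1
        have a4 := abs_sub_abs_le_abs_sub (Λ * (p.1 - q.1)) (v - u)
        have a5 := abs_sub v u
        have a6 : Λ * s₀ ≤ Λ * |p.1 - q.1| := by gcongr
        rw [abs_mul, abs_of_pos hΛ0] at a4
        have e : (g (u, p)).1 - (g (v, q)).1 = Λ * (p.1 - q.1) - (v - u) := by simp only [hg]; ring
        rw [e]
        linarith [R.big1]
    have hinj : Set.InjOn g (insert 0 U ×ˢ T : Finset _) := fun p hp q hq h => by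
      by_contra hne
      have := hsep p hp q hq hne
      rw [h, sub_self, abs_zero] at this
      linarith
    refine ⟨image g (insert 0 U ×ˢ T), fun x => ?_, ?_, ?_, ?_, ?_, ?_, ?_⟩
    · rw [prod_range_succ', sum_image hinj, sum_product, Complex.ofReal_mul, pow_zero, one_mul,
        R.eq x, mul_comm]
      have : ∀ j, Λ ^ (j + 1) * x = Λ ^ j * (Λ * x) := fun j => by ring
      simp only [this]
      rw [h1, sum_mul_sum]
      refine sum_congr rfl fun u _ => sum_congr rfl fun p _ => ?_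
      simp only [hg]
      rw [mul_mul_mul_comm, ← ee_add]; congr 2; ring
    · refine (Nat.cast_le.2 card_image_le).trans ?_
      rw [card_product, card_insert_of_notMem R.zero_not, pow_succ']
      push_cast
      gcongr
      exact R.big2
    · intro p hp q hq hne
      obtain ⟨p', hp', rfl⟩ := mem_image.1 hp
      obtain ⟨q', hq', rfl⟩ := mem_image.1 hq
      exact hsep p' hp' q' hq' fun h => hne (by rw [h])
    · exact mem_image.2 ⟨(0, (0, 1)), mem_product.2 ⟨mem_insert_self _ _, h4⟩, by simp [hg, R.cf0]⟩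
    · intro j hj u hu
      cases j with
      | zero =>
        exact mem_image.2 ⟨(u, (0, 1)), mem_product.2 ⟨mem_insert_of_mem hu, h4⟩, by simp [hg]⟩
      | succ j =>
        exact mem_image.2 ⟨(0, (Λ ^ j * u, cf u)), mem_product.2 ⟨mem_insert_self _ _,
          h5 j (by omega) u hu⟩, by simp [hg, R.cf0, pow_succ']; ring⟩
    · intro p hp
      obtain ⟨⟨u, p⟩, hp', rfl⟩ := mem_image.1 hp
      rw [mem_product] at hp'
      simp only [hg, norm_mul]
      exact mul_le_one₀ (hcf u hp'.1) (norm_nonneg _) (h6 p hp'.2)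
    · intro p hp hp0
      obtain ⟨⟨u, p⟩, hp', rfl⟩ := mem_image.1 hp
      rw [mem_product] at hp'
      simp only [hg] at hp0 ⊢
      by_cases hz : p.1 = 0
      · have hp1 : p = (0, 1) := by
          by_contra hne
          have := h3 p hp'.2 _ h4 hne
          simp only [hz, sub_self, abs_zero] at this
          linarith
        subst hp1
        simp only [mul_zero, add_zero, mul_one] at hp0 ⊢
        have hu : u ∈ U := (mem_insert.1 hp'.1).resolve_left hp0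
        refine ⟨0, by omega, u, 0, by simp, ?_, hu, by simpa using R.cfU u hu⟩
        have := R.sep u hp'.1 0 (mem_insert_self _ _) hp0
        rw [sub_zero] at this
        rw [pow_zero]; linarith
      · obtain ⟨j, hj, x, k, b1, b2, b3, b4⟩ := h7 p hp'.2 hz
        have hlow : s₀ * (Λ ^ (j + 1) + 1) ≤ 2 * |u + Λ * p.1| := by
          have a2 := R.bdd u hp'.1
          have a4 := abs_sub_abs_le_abs_sub (Λ * p.1) (-u)
          rw [abs_mul, abs_of_pos hΛ0, abs_neg, sub_neg_eq_add, add_comm] at a4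
          have a6 : Λ * (s₀ * (Λ ^ j + 1)) ≤ Λ * (2 * |p.1|) := by gcongr
          have := R.big1
          rw [pow_succ']
          linarith
        rcases mem_insert.1 hp'.1 with hu | hu
        · simp only at hu
          subst hu
          exact ⟨j + 1, by omega, x, k, by rw [b1]; ring, hlow, b3, by rwa [R.cf0, one_mul]⟩
        · refine ⟨j + 1, by omega, x + Λ⁻¹ ^ (j + 1) * u, k + 1, ?_, hlow,
            ⟨x, b3, _, ⟨_, Set.mem_insert_of_mem _ ⟨j, rfl⟩, u, Set.mem_insert_of_mem _ hu, rfl⟩,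
              rfl⟩, ?_⟩
          · rw [b1, inv_pow]; field_simp; ring
          · rw [norm_mul, pow_succ' a]
            have := R.a_nonneg
            gcongr
            exact R.cfU u hu

noncomputable def PP (f : ℝ → ℝ) (Λ : ℝ) (J : ℕ) (σ x : ℝ) : ℝ := ∏ j ∈ range J, f (Λ ^ j * (σ * x))

lemma RD.continuous_PP (R : RD U cf f a s₀ M Λ) (J : ℕ) (σ : ℝ) : Continuous (PP f Λ J σ) := by
  have := R.cont
  unfold PP; fun_prop

lemma RD.PP_nonneg (R : RD U cf f a s₀ M Λ) (J : ℕ) (σ x : ℝ) : 0 ≤ PP f Λ J σ x :=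
  prod_nonneg fun _ _ => R.nonneg _

lemma RD.bound (R : RD U cf f a s₀ M Λ) (m : ℕ) {η : ℝ} (hη : 0 < η) :
    ∃ C : ℝ, s₀ ≤ C ∧ ∀ (J : ℕ) (σ c τ err : ℝ), 0 < σ → 2 * Λ ^ J * Real.exp τ / (σ * s₀) ≤ err →
      ‖BB c τ (PP f Λ J σ) 0 - 1‖ ≤ err ∧
      (∀ j < J, ∀ u ∈ U, ‖BB c τ (PP f Λ J σ) (σ * (Λ ^ j * u)) - cf u‖ ≤ err) ∧
      (∀ y, ‖BB c τ (PP f Λ J σ) y‖ ≤ err + 1) ∧
      ∀ y, y ≠ 0 → ¬ (s₀ / 2 ≤ |y| / σ ∧ |y| / σ ≤ C) →
        ¬ (∃ j < J, ∃ x ∈ EE U Λ m, s₀ / 2 ≤ |x| ∧ |y / (σ * Λ ^ j) - x| < η) →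
        ‖BB c τ (PP f Λ J σ) y‖ ≤ err + Real.exp τ / |y| + a ^ (m + 2) := by
  classical
  have hΛ := R.big3
  have hΛ0 : 0 < Λ := by linarith
  have hs := R.s_pos
  obtain ⟨C₁, hC₁⟩ := (EE_compact U hΛ m).isBounded.exists_norm_le
  obtain ⟨j₀, hj₀⟩ := pow_unbounded_of_one_lt (s₀ / 2 / η) hΛ
  refine ⟨s₀ + Λ ^ j₀ * |C₁|, le_add_of_nonneg_right (by positivity),
    fun J σ c τ err hσ herr => ?_⟩
  obtain ⟨T, h1, h2, h3, h4, h5, h6, h7⟩ := R.spec J
  have he := Real.exp_pos τ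
  have herr0 : 0 ≤ err := le_trans (by positivity) herr
  have hB : ∀ y, BB c τ (PP f Λ J σ) y = ∑ p ∈ T, p.2 * KK c τ (y - σ * p.1) := fun y =>
    BB_trig c τ T (fun p => p.2) (fun p => σ * p.1) (fun ξ => by
      rw [PP, h1]; exact sum_congr rfl fun p _ => by rw [← mul_assoc, mul_comm p.1 σ]) y
  have hfar : ∀ y (S : Finset (ℝ × ℂ)), S ⊆ T → (∀ p ∈ S, s₀ / 2 ≤ |y / σ - p.1|) →
      ‖∑ p ∈ S, p.2 * KK c τ (y - σ * p.1)‖ ≤ err := by
    intro y S hS hy
    refine (norm_sum_le _ _).trans ((sum_le_sum (g := fun _ => 2 * Real.exp τ / (σ * s₀))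
      fun p hp => ?_).trans ?_)
    · have e : |y - σ * p.1| = σ * |y / σ - p.1| := by
        rw [← abs_of_pos hσ, ← abs_mul, abs_of_pos hσ]; congr 1; field_simp
      have b1 := hy p hp
      have b2 : 0 < |y - σ * p.1| := by rw [e]; exact mul_pos hσ (by linarith)
      rw [norm_mul]
      refine (mul_le_of_le_one_left (norm_nonneg _) (h6 p (hS hp))).trans
        ((norm_KK_le c τ (abs_pos.1 b2)).trans ?_)
      rw [div_le_div_iff₀ b2 (by positivity), e]
      have : Real.exp τ * (σ * s₀) ≤ Real.exp τ * (σ * (2 * |y / σ - p.1|)) := by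
        gcongr; linarith
      linarith
    · rw [sum_const, nsmul_eq_mul]
      refine le_trans ?_ herr
      have : (S.card : ℝ) ≤ Λ ^ J := (Nat.cast_le.2 (card_le_card hS)).trans h2
      calc _ ≤ Λ ^ J * (2 * Real.exp τ / (σ * s₀)) := by gcongr
        _ = _ := by ring
  have hnear : ∀ y, ∀ p ∈ T, |y / σ - p.1| < s₀ / 2 →
      ‖BB c τ (PP f Λ J σ) y - p.2 * KK c τ (y - σ * p.1)‖ ≤ err := by
    intro y p hp hy
    rw [hB, ← add_sum_erase T _ hp, add_sub_cancel_left]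
    refine hfar y _ (erase_subset _ _) fun q hq => ?_
    have b1 := h3 q (mem_of_mem_erase hq) p hp (ne_of_mem_erase hq)
    have b2 := abs_sub_le q.1 (y / σ) p.1
    rw [abs_sub_comm q.1 (y / σ)] at b2
    linarith
  have hexact : ∀ t w, (t, w) ∈ T → ‖BB c τ (PP f Λ J σ) (σ * t) - w‖ ≤ err := fun t w hp => by
    have := hnear (σ * t) (t, w) hp (by
      rw [mul_div_cancel_left₀ _ hσ.ne', sub_self, abs_zero]; positivity)
    rwa [sub_self, KK_zero, mul_one] at this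
  have hgen : ∀ y (b : ℝ), 0 ≤ b → (∀ p ∈ T, |y / σ - p.1| < s₀ / 2 →
      ‖p.2 * KK c τ (y - σ * p.1)‖ ≤ b) → ‖BB c τ (PP f Λ J σ) y‖ ≤ err + b := by
    intro y b hb h
    by_cases hex : ∃ p ∈ T, |y / σ - p.1| < s₀ / 2
    · obtain ⟨p, hp, hy⟩ := hex
      exact (norm_le_norm_sub_add _ _).trans (add_le_add (hnear y p hp hy) (h p hp hy))
    · push Not at hex
      rw [hB]
      exact (hfar y T subset_rfl hex).trans (le_add_of_nonneg_right hb)
  have hz := hexact _ _ h4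
  rw [mul_zero] at hz
  refine ⟨hz, fun j hj u hu => hexact _ _ (h5 j hj u hu),
    fun y => hgen y 1 zero_le_one fun p hp _ => ?_, fun y hy0 hlow hhigh => ?_⟩
  · rw [norm_mul]; exact mul_le_one₀ (h6 p hp) (norm_nonneg _) (norm_KK_le_one _ _ _)
  · have ha := R.a_nonneg
    rw [add_assoc]
    refine hgen y _ (by positivity) fun p hp hy => ?_
    rw [norm_mul]
    by_cases hp0 : p.1 = 0
    · rw [hp0, mul_zero, sub_zero]
      exact ((mul_le_of_le_one_left (norm_nonneg _) (h6 p hp)).trans (norm_KK_le c τ hy0)).trans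
        (le_add_of_nonneg_right (by positivity))
    · obtain ⟨j, hj, x, k, b1, b2, b3, b4⟩ := h7 p hp hp0
      refine (mul_le_of_le_one_right (norm_nonneg _) (norm_KK_le_one _ _ _)).trans
        (le_trans ?_ (le_add_of_nonneg_left (by positivity)))
      rcases le_or_gt k m with hk | hk
      swap
      · exact b4.trans (pow_le_pow_of_le_one ha (by linarith [R.a_half]) (by omega))
      exfalso
      have hx : x ∈ EE U Λ m := EE_mono U Λ hk b3
      have hΛj : 0 < Λ ^ j := pow_pos hΛ0 _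
      have hΛj1 : 1 ≤ Λ ^ j := one_le_pow₀ hΛ.le
      have b5 : |p.1| = Λ ^ j * |x| := by rw [b1, abs_mul, abs_of_pos hΛj]
      have b6 : |y| / σ = |y / σ| := by rw [abs_div, abs_of_pos hσ]
      rcases le_or_gt j₀ j with hj' | hj'
      · refine hhigh ⟨j, hj, x, hx, ?_, ?_⟩
        · rw [b5] at b2
          refine le_of_mul_le_mul_left ?_ hΛj
          linarith
        · have e : y / (σ * Λ ^ j) - x = (y / σ - p.1) / Λ ^ j := by rw [b1]; field_simp
          rw [e, abs_div, abs_of_pos hΛj, div_lt_iff₀ hΛj]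
          rw [div_lt_iff₀ hη] at hj₀
          have b7 : Λ ^ j₀ ≤ Λ ^ j := pow_le_pow_right₀ hΛ.le hj'
          have b8 := mul_le_mul_of_nonneg_right b7 hη.le
          rw [mul_comm η]
          exact hy.trans (hj₀.trans_le b8)
      · refine hlow ⟨?_, ?_⟩
        · have := abs_sub_abs_le_abs_sub p.1 (y / σ)
          rw [abs_sub_comm] at this
          have b7 := mul_le_mul_of_nonneg_left hΛj1 hs.le
          rw [b6]
          linarith
        · have := abs_sub_abs_le_abs_sub (y / σ) p.1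
          have b7 : Λ ^ j * |x| ≤ Λ ^ j₀ * |C₁| :=
            mul_le_mul (pow_le_pow_right₀ hΛ.le hj'.le) ((hC₁ x hx).trans (le_abs_self _))
              (abs_nonneg _) (by positivity)
          rw [b6]
          linarith

end Pool.Agent.Lib.MP_3974fb_lc
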