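import Pool.Agent.Lib.MP_3974fb_lc.Riesz

/-! Riesz products: sums over a window. -/

namespace Pool.Agent.Lib.MP_3974fb_lc

open Filter Topology Finset

lemma count_between {θ : ℝ} (hθ : 1 < |θ|) {A ρ : ℝ} (hA : 0 < A) (hρ : 1 ≤ ρ) (S : Finset ℕ)
    (hS : ∀ n ∈ S, A ≤ |θ| ^ n ∧ |θ| ^ n ≤ A * ρ) :
    (S.card : ℝ) ≤ Real.log (2 * ρ) / Real.log |θ| + 1 := by
  have hL := Real.log_pos hθ
  have h0 : 0 ≤ Real.log (2 * ρ) := Real.log_nonneg (by linarith)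
  have hsub : S ⊆ Ico (NN θ (Real.log A)) (NN θ (Real.log A + Real.log (2 * ρ))) := fun n hn => by
    refine mem_Ico.2 ⟨(NN_le hθ).2 ?_, (lt_NN hθ).2 ?_⟩
    · rw [Real.exp_log hA]; exact (hS n hn).1
    · rw [Real.exp_add, Real.exp_log hA, Real.exp_log (by linarith)]
      have := (hS n hn).2
      nlinarith
  refine (Nat.cast_le.2 (card_le_card hsub)).trans ?_
  rcases le_total 0 (Real.log A + Real.log (2 * ρ)) with h | h
  · rw [Nat.card_Ico, Nat.cast_sub (NN_mono hθ (by linarith))]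
    have := NN_sub_le hθ (τ := Real.log A) h
    rwa [add_sub_cancel_left] at this
  · have : NN θ (Real.log A + Real.log (2 * ρ)) = 0 :=
      Nat.ceil_eq_zero.2 (div_nonpos_of_nonpos_of_nonneg h hL.le)
    rw [this]
    simp only [zero_le, Ico_eq_empty_of_le, card_empty, Nat.cast_zero]
    positivity

/-- the scale used for an interval of length `exp (-τ)` and `J` levels. -/
noncomputable def kk (Λ τ : ℝ) (J : ℕ) : ℕ := ⌈τ / Real.log Λ⌉₊ + 2 * J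

lemma kk_lower {Λ : ℝ} (hΛ : 1 < Λ) (τ : ℝ) (J : ℕ) : Real.exp τ * Λ ^ (2 * J) ≤ Λ ^ kk Λ τ J := by
  have hΛ0 : 0 < Λ := by linarith
  have := (NN_le (γ := Λ) (by rwa [abs_of_pos hΛ0]) (τ := τ) (n := ⌈τ / Real.log Λ⌉₊)).1
    (by rw [NN, abs_of_pos hΛ0])
  rw [abs_of_pos hΛ0] at this
  rw [kk, pow_add]; gcongr

lemma kk_upper {Λ : ℝ} (hΛ : 1 < Λ) {τ : ℝ} (hτ : 0 ≤ τ) {J : ℕ} (hJ : 1 ≤ J) :
    Λ ^ (kk Λ τ J + J) < Real.exp (τ + 4 * J * Real.log Λ) := by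
  have hΛ0 : 0 < Λ := by linarith
  have hL := Real.log_pos hΛ
  have h1 := Nat.ceil_lt_add_one (div_nonneg hτ hL.le)
  have hJ' : (1 : ℝ) ≤ J := by exact_mod_cast hJ
  rw [← Real.exp_log (pow_pos hΛ0 _), Real.log_pow, Real.exp_lt_exp, ← lt_div_iff₀ hL, add_div,
    mul_div_cancel_right₀ _ hL.ne', kk]
  push_cast; linarith

variable {U : Finset ℝ} {cf : ℝ → ℂ} {f : ℝ → ℝ} {a s₀ M Λ : ℝ}

lemma RD.err_le (R : RD U cf f a s₀ M Λ) {ε : ℝ} (hε : 0 < ε) : ∀ᶠ J : ℕ in atTop, ∀ τ,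
    2 * Λ ^ J * Real.exp τ / (Λ ^ kk Λ τ J * s₀) ≤ ε := by
  have hΛ := R.big3
  have hs := R.s_pos
  filter_upwards [eventually_lin_le_pow 0 (2 / (s₀ * ε)) hΛ] with J hJ τ
  have h1 := kk_lower hΛ τ J
  have he := Real.exp_pos τ
  have hJ0 : 0 < Λ ^ J := by positivity
  rw [zero_mul, zero_add, div_le_iff₀ (by positivity)] at hJ
  rw [div_le_iff₀ (by positivity)]
  calc 2 * Λ ^ J * Real.exp τ ≤ (Λ ^ J * (s₀ * ε)) * Λ ^ J * Real.exp τ := by gcongr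
    _ = ε * (Real.exp τ * Λ ^ (2 * J) * s₀) := by ring
    _ ≤ _ := by gcongr

lemma RD.sum_off (R : RD U cf f a s₀ M Λ) (m : ℕ) {η : ℝ} (hη : 0 < η) {θ : ℝ} (hθ : 1 < |θ|)
    {h : ℕ} (hh : 1 ≤ h) : ∃ C : ℝ, ∀ (J : ℕ) (σ c τ w err : ℝ), 0 < σ →
      2 * Λ ^ J * Real.exp τ / (σ * s₀) ≤ err → ∀ W B : Finset ℕ, W ⊆ win θ τ w →
      (∀ n ∈ W, (∃ j < J, ∃ x ∈ EE U Λ m, s₀ / 2 ≤ |x| ∧ |h * θ ^ n / (σ * Λ ^ j) - x| < η) →
        n ∈ B) →
      ‖∑ n ∈ W, BB c τ (PP f Λ J σ) (h * θ ^ n)‖ ≤ W.card * (err + a ^ (m + 2)) + B.card + C := by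
  classical
  obtain ⟨C, hC, hb⟩ := R.bound m hη
  have hs := R.s_pos
  have ha := R.a_nonneg
  refine ⟨CC θ + (Real.log (2 * (2 * C / s₀)) / Real.log |θ| + 1),
    fun J σ c τ w err hσ herr W B hW hB => ?_⟩
  obtain ⟨-, -, h3, h4⟩ := hb J σ c τ err hσ herr
  set Lo := W.filter fun n => s₀ / 2 ≤ |h * θ ^ n| / σ ∧ |h * θ ^ n| / σ ≤ C with hLo
  have hh' : (0 : ℝ) < h := by exact_mod_cast hh
  have hLo' : (Lo.card : ℝ) ≤ Real.log (2 * (2 * C / s₀)) / Real.log |θ| + 1 := by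
    refine count_between hθ (A := σ * s₀ / (2 * h)) (by positivity)
      (by rw [le_div_iff₀ hs]; linarith) _ fun n hn => ?_
    obtain ⟨b1, b2⟩ := (mem_filter.1 hn).2
    rw [abs_mul, abs_pow, Nat.abs_cast] at b1 b2
    rw [le_div_iff₀ hσ] at b1
    rw [div_le_iff₀ hσ] at b2
    have e : σ * s₀ / (2 * h) * (2 * C / s₀) = C * σ / h := by field_simp
    rw [e, div_le_iff₀ (by positivity), le_div_iff₀ hh']
    constructor <;> linarith
  have hpt : ∀ n ∈ W, ‖BB c τ (PP f Λ J σ) (h * θ ^ n)‖ ≤ (err + a ^ (m + 2)) +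
      Real.exp τ / |h * θ ^ n| + (if n ∈ B ∪ Lo then 1 else 0) := by
    intro n hn
    split_ifs with hm
    · have := h3 (h * θ ^ n)
      have : 0 ≤ a ^ (m + 2) := by positivity
      have : 0 ≤ Real.exp τ / |h * θ ^ n| := by positivity
      linarith
    · rw [mem_union, not_or] at hm
      have := h4 _ (freq_ne_zero hθ hh n) (fun hl => hm.2 (mem_filter.2 ⟨hn, hl⟩))
        (fun hl => hm.1 (hB n hn hl))
      linarith
  refine (norm_sum_le _ _).trans ((sum_le_sum hpt).trans ?_)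
  rw [sum_add_distrib, sum_add_distrib, sum_const, nsmul_eq_mul, sum_boole]
  have a1 : ∑ n ∈ W, Real.exp τ / |h * θ ^ n| ≤ CC θ :=
    (sum_le_sum_of_subset_of_nonneg hW fun _ _ _ => by positivity).trans (sum_win_inv hθ hh τ w)
  have a2 : ((W.filter fun n => n ∈ B ∪ Lo).card : ℝ) ≤ B.card + Lo.card := by
    exact_mod_cast (card_le_card fun n hn => (mem_filter.1 hn).2).trans (card_union_le _ _)
  linarith

lemma exists_eta_discrete {θ : ℝ} (hθ : 1 < |θ|) {h : ℕ} (hh : 1 ≤ h) {E : Set ℝ}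
    (hE : IsCompact E) {s : ℝ} (hs : 0 < s) :
    ∃ η > 0, ∀ e : ℤ, ∀ x ∈ E, s ≤ |x| → |h * θ ^ e - x| < η → h * θ ^ e ∈ E := by
  obtain ⟨C, hC⟩ := hE.isBounded.exists_norm_le
  have hh' : (1 : ℝ) ≤ h := by exact_mod_cast hh
  obtain ⟨N, hN⟩ := pow_unbounded_of_one_lt (max (C + s) (2 * h / s)) hθ
  have h1 : ∀ e : ℤ, ∀ᶠ η in 𝓝[>] (0 : ℝ), ∀ x ∈ E, |h * θ ^ e - x| < η → h * θ ^ e ∈ E := by
    intro e
    by_cases he : h * θ ^ e ∈ E
    · exact Eventually.of_forall fun _ _ _ _ => he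
    · obtain ⟨δ, hδ, hb⟩ := Metric.isOpen_iff.1 hE.isClosed.isOpen_compl _ he
      filter_upwards [Ioo_mem_nhdsGT hδ] with η hη x hx hlt
      exact absurd hx (hb (by rw [Metric.mem_ball, Real.dist_eq, abs_sub_comm]; linarith [hη.2]))
  obtain ⟨η, h2, h3⟩ := (((eventually_all_finset (Icc (-(N : ℤ)) N)).2 fun e _ => h1 e).and
    (Ioo_mem_nhdsGT (half_pos hs))).exists
  refine ⟨η, h3.1, fun e x hx hsx hlt => h2 e ?_ x hx hlt⟩
  have a1 := abs_sub_abs_le_abs_sub (h * θ ^ e) x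
  have a2 := abs_sub_abs_le_abs_sub x (h * θ ^ e)
  rw [abs_sub_comm] at a2
  rw [abs_mul, abs_zpow, Nat.abs_cast] at a1 a2
  have a3 : |x| ≤ C := hC x hx
  have a4 : 0 < |θ| ^ e := zpow_pos (by linarith) _
  have a5 := h3.2
  rw [mem_Icc]
  constructor
  · by_contra hlt
    have b1 : |θ| ^ e ≤ |θ| ^ (-(N : ℤ)) := zpow_le_zpow_right₀ hθ.le (by omega)
    rw [zpow_neg, zpow_natCast, le_inv_comm₀ a4 (by positivity)] at b1
    have b2 := ((le_max_right _ _).trans_lt hN).trans_le b1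
    rw [div_lt_iff₀ hs, inv_mul_eq_div, lt_div_iff₀ a4] at b2
    linarith
  · by_contra hlt
    have b1 : |θ| ^ (N : ℤ) ≤ |θ| ^ e := zpow_le_zpow_right₀ hθ.le (by omega)
    rw [zpow_natCast] at b1
    have b2 := ((le_max_left _ _).trans_lt hN).trans_le b1
    nlinarith

lemma RD.sum_exact (R : RD U cf f a s₀ M Λ) (m : ℕ) {θ : ℝ} (hθ : 1 < |θ|) {q q₀ h : ℕ}
    (hq : θ ^ q = Λ) (hq₀ : q₀ ≤ q) (hh : 1 ≤ h) (hU1 : ∀ i < q₀, h * θ ^ i ∈ U)
    (hU2 : ∀ e : ℤ, h * θ ^ e ∈ EE U Λ m → 0 ≤ e ∧ e < q₀) {ε : ℝ} (hε : 0 < ε) :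
    ∀ᶠ J : ℕ in atTop, ∀ c τ, 0 ≤ τ →
      ‖∑ n ∈ win θ τ (4 * J * Real.log Λ), BB c τ (PP f Λ J (Λ ^ kk Λ τ J)) (h * θ ^ n) -
        J * ∑ i ∈ range q₀, cf (h * θ ^ i)‖ ≤ (5 * q * a ^ (m + 2) + ε) * J := by
  classical
  have hΛ := R.big3
  have hΛ0 : 0 < Λ := by linarith
  have hs := R.s_pos
  have ha := R.a_nonneg
  have hθ0 : θ ≠ 0 := by rintro rfl; norm_num at hθ
  have hq' : |θ| ^ q = Λ := by rw [← abs_pow, hq, abs_of_pos hΛ0]
  have hq1 : 1 ≤ q := by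
    rcases Nat.eq_zero_or_pos q with rfl | h
    · rw [pow_zero] at hq; linarith
    · exact h
  have hq1' : (1 : ℝ) ≤ q := by exact_mod_cast hq1
  have hL := Real.log_pos hθ
  obtain ⟨η, hη, hdisc⟩ := exists_eta_discrete hθ hh (EE_compact U hΛ m) (half_pos hs)
  obtain ⟨C, hC⟩ := R.sum_off m hη hθ hh
  obtain ⟨C', -, hb⟩ := R.bound m hη
  filter_upwards [R.err_le (ε := ε / (20 * q)) (by positivity), eventually_ge_atTop 1,
    tendsto_natCast_atTop_atTop.eventually_ge_atTop (2 * C / ε)] with J herr hJ hJC c τ hτ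
  have hJ' : (1 : ℝ) ≤ J := by exact_mod_cast hJ
  set k := kk Λ τ J with hk
  have hσ : 0 < Λ ^ k := by positivity
  set W := win θ τ (4 * J * Real.log Λ) with hW
  have hWc : (W.card : ℝ) ≤ 5 * q * J := by
    have := card_win hθ hτ (τ' := τ + 4 * J * Real.log Λ)
      (le_add_of_nonneg_right (by have := Real.log_pos hΛ; positivity))
    have e : (τ + 4 * J * Real.log Λ - τ) / Real.log |θ| = 4 * (q * J) := by
      rw [← hq', Real.log_pow]; field_simp; ring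
    rw [e] at this
    have h2 : 1 ≤ (q : ℝ) * J := by nlinarith
    change ((Ico _ _).card : ℝ) ≤ _
    linarith
  set g : ℕ × ℕ → ℕ := fun p => q * (k + p.1) + p.2 with hg
  have hinj : Set.InjOn g (range J ×ˢ range q₀ : Finset _) := by
    rintro ⟨j, i⟩ hp ⟨j', i'⟩ hp' he
    simp only [coe_product, coe_range, Set.mem_prod, Set.mem_Iio] at hp hp'
    simp only [hg] at he
    have h1 := congrArg (· / q) he
    simp only [Nat.mul_add_div hq1, Nat.div_eq_of_lt (hp.2.trans_le hq₀),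
      Nat.div_eq_of_lt (hp'.2.trans_le hq₀)] at h1
    obtain rfl : j = j' := by omega
    obtain rfl : i = i' := by omega
    rfl
  have hsub : image g (range J ×ˢ range q₀) ⊆ W := by
    intro n hn
    obtain ⟨⟨j, i⟩, hp, rfl⟩ := mem_image.1 hn
    simp only [mem_product, mem_range] at hp
    refine mem_Ico.2 ⟨(NN_le hθ).2 ?_, (lt_NN hθ).2 ?_⟩
    · calc Real.exp τ ≤ Real.exp τ * Λ ^ (2 * J) :=
            le_mul_of_one_le_right (Real.exp_pos _).le (one_le_pow₀ hΛ.le)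
        _ ≤ Λ ^ k := kk_lower hΛ τ J
        _ = |θ| ^ (q * k) := by rw [pow_mul, hq']
        _ ≤ _ := pow_le_pow_right₀ hθ.le (by simp only [hg]; nlinarith)
    · calc |θ| ^ g (j, i) ≤ |θ| ^ (q * (k + J)) :=
            pow_le_pow_right₀ hθ.le (by simp only [hg]; nlinarith)
        _ = Λ ^ (k + J) := by rw [pow_mul, hq']
        _ < _ := kk_upper hΛ hτ hJ
  rw [← sum_sdiff hsub, add_sub_assoc]
  refine (norm_add_le _ _).trans ?_
  have a1 := hC J _ c τ _ _ hσ (herr τ) (W \ image g (range J ×ˢ range q₀)) ∅ sdiff_subset (by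
    rintro n hn ⟨j, hj, x, hx, h1, h2⟩
    exfalso
    have e : h * θ ^ n / (Λ ^ k * Λ ^ j) = h * θ ^ ((n : ℤ) - (q * (k + j) : ℕ)) := by
      rw [zpow_sub₀ hθ0, zpow_natCast, zpow_natCast, pow_mul, hq, pow_add, mul_div_assoc]
    rw [e] at h2
    obtain ⟨b1, b2⟩ := hU2 _ (hdisc _ x hx h1 h2)
    refine (mem_sdiff.1 hn).2 (mem_image.2 ⟨(j, n - q * (k + j)), ?_, ?_⟩)
    · simp only [mem_product, mem_range]; omega
    · simp only [hg]; omega)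
  have a2 : ‖∑ n ∈ image g (range J ×ˢ range q₀), BB c τ (PP f Λ J (Λ ^ k)) (h * θ ^ n) -
      J * ∑ i ∈ range q₀, cf (h * θ ^ i)‖ ≤ (image g (range J ×ˢ range q₀)).card * (ε / (20 * q)) := by
    have e : (J : ℂ) * ∑ i ∈ range q₀, cf (h * θ ^ i) =
        ∑ p ∈ range J ×ˢ range q₀, cf (h * θ ^ p.2) := by
      rw [sum_product]; simp
    rw [sum_image hinj, e, ← sum_sub_distrib, card_image_of_injOn hinj, ← nsmul_eq_mul, ← sum_const]
    refine (norm_sum_le _ _).trans (sum_le_sum fun p hp => ?_)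
    simp only [mem_product, mem_range] at hp
    have := (hb J _ c τ _ hσ (herr τ)).2.1 p.1 hp.1 _ (hU1 p.2 hp.2)
    have e2 : Λ ^ k * (Λ ^ p.1 * (h * θ ^ p.2)) = h * θ ^ g p := by
      simp only [hg]; rw [pow_add θ, pow_mul, hq]; ring
    rwa [e2] at this
  have a3 : ((W \ image g (range J ×ˢ range q₀)).card : ℝ) ≤ 5 * q * J :=
    (Nat.cast_le.2 (card_le_card sdiff_subset)).trans hWc
  have a4 : ((image g (range J ×ˢ range q₀)).card : ℝ) ≤ 5 * q * J :=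
    (Nat.cast_le.2 (card_le_card hsub)).trans hWc
  have a5 : ((W \ image g (range J ×ˢ range q₀)).card : ℝ) * (ε / (20 * q) + a ^ (m + 2)) ≤
      5 * q * J * (ε / (20 * q) + a ^ (m + 2)) := by gcongr
  have a6 : ((image g (range J ×ˢ range q₀)).card : ℝ) * (ε / (20 * q)) ≤
      5 * q * J * (ε / (20 * q)) := by gcongr
  have a7 : 5 * q * J * (ε / (20 * q)) = ε * J / 4 := by field_simp; ring
  rw [div_le_iff₀ hε] at hJC
  rw [card_empty, Nat.cast_zero] at a1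
  linarith

lemma blockB_of_riesz (R : RD U cf f a s₀ M Λ) {α β : ℝ} (hβ : 1 < |β|) {q q₀ h₀ : ℕ}
    (hq : β ^ q = Λ) (hq₀ : q₀ ≤ q) (hh₀ : 1 ≤ h₀) (hU1 : ∀ i < q₀, h₀ * β ^ i ∈ U)
    (hU2 : ∀ e : ℤ, h₀ * β ^ e ∈ U → 0 ≤ e ∧ e < q₀)
    (hκ : 5 * q * a ^ 2 < ‖∑ i ∈ range q₀, cf (h₀ * β ^ i)‖)
    (hα : ∀ h : ℕ, 1 ≤ h → ∀ ε > 0, ∀ᶠ J : ℕ in atTop, ∀ c τ, 0 ≤ τ →
      ‖∑ n ∈ win α τ (4 * J * Real.log Λ), BB c τ (PP f Λ J (Λ ^ kk Λ τ J)) (h * α ^ n)‖ ≤ ε * J) :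
    BlockB α β := by
  set κ := ∑ i ∈ range q₀, cf (h₀ * β ^ i) with hκdef
  have hL := Real.log_pos R.big3
  have hΛ0 : 0 < Λ := by linarith [R.big3]
  have hκ' : 0 < ‖κ‖ := lt_of_le_of_lt (by positivity) hκ
  have hω : ‖(starRingEnd ℂ) κ / ‖κ‖‖ ≤ 1 := by
    rw [norm_div, Complex.norm_conj, Complex.norm_real, norm_norm, div_self hκ'.ne']
  set d := (‖κ‖ - 5 * q * a ^ 2) / 2 with hd
  have hd0 : 0 < d := by rw [hd]; linarith
  refine ⟨h₀, (starRingEnd ℂ) κ / ‖κ‖, d / (4 * Real.log Λ), hh₀, hω, by positivity,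
    fun H ε hε w₀ => ?_⟩
  obtain ⟨C', -, hb⟩ := R.bound 0 one_pos
  obtain ⟨J, k1, k2, k3, k4⟩ := ((R.sum_exact 0 hβ hq hq₀ hh₀ hU1 hU2 hd0).and
    (((eventually_all_finset (Icc 1 H)).2 fun h hh => hα h (mem_Icc.1 hh).1
      (ε * (4 * Real.log Λ)) (by positivity)).and ((R.err_le (ε := 1 / 2) (by positivity)).and
      (tendsto_natCast_atTop_atTop.eventually_ge_atTop (w₀ / (4 * Real.log Λ)))))).exists
  rw [div_le_iff₀ (by positivity)] at k4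
  refine ⟨4 * J * Real.log Λ, by linarith, fun c τ hτ => ⟨PP f Λ J (Λ ^ kk Λ τ J),
    R.continuous_PP _ _, R.PP_nonneg _ _, (hb J _ c τ _ (by positivity) (k3 τ)).1,
    fun h h1 h2 => (k2 h (mem_Icc.2 ⟨h1, h2⟩) c τ hτ).trans (le_of_eq (by ring)), ?_⟩⟩
  have h6 := (abs_le.1 ((abs_re_le hω).trans (k1 c τ hτ))).1
  have h7 : (starRingEnd ℂ) κ / ‖κ‖ * (J * κ) = ((‖κ‖ * J : ℝ) : ℂ) := by
    have : ((‖κ‖ : ℝ) : ℂ) ≠ 0 := by exact_mod_cast hκ'.ne'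
    rw [mul_comm (J : ℂ), ← mul_assoc, div_mul_eq_mul_div, Complex.conj_mul',
      Complex.ofReal_mul ‖κ‖, Complex.ofReal_natCast]
    field_simp
  rw [mul_sub, Complex.sub_re, h7, Complex.ofReal_re] at h6
  have e1 : d / (4 * Real.log Λ) * (4 * J * Real.log Λ) = d * J := by field_simp
  have e2 : ‖κ‖ * J = 2 * (d * J) + 5 * q * a ^ 2 * J := by rw [hd]; ring
  rw [zero_add] at h6
  linarith

end Pool.Agent.Lib.MP_3974fb_lc
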