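import Pool.Agent.Lib.MP_3974fb_lc.Defs

/-! The additive character `ee` and Weyl's criterion. -/

namespace Pool.Agent.Lib.MP_3974fb_lc

open Filter Topology Finset

noncomputable def ee (x : ℝ) : ℂ := Complex.exp (((2 * Real.pi * x : ℝ) : ℂ) * Complex.I)

lemma ee_add (x y : ℝ) : ee (x + y) = ee x * ee y := by
  unfold ee; rw [← Complex.exp_add]; congr 1; push_cast; ring

@[simp] lemma ee_zero : ee 0 = 1 := by simp [ee]

@[simp] lemma norm_ee (x : ℝ) : ‖ee x‖ = 1 := Complex.norm_exp_ofReal_mul_I _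

lemma ee_int (k : ℤ) : ee k = 1 := by
  unfold ee
  rw [← Complex.exp_int_mul_two_pi_mul_I k]; congr 1; push_cast; ring

lemma ee_neg (x : ℝ) : ee (-x) = (starRingEnd ℂ) (ee x) := by
  unfold ee
  rw [← Complex.exp_conj]; congr 1
  rw [map_mul, Complex.conj_ofReal, Complex.conj_I]; push_cast; ring

lemma ee_ne_zero (x : ℝ) : ee x ≠ 0 := Complex.exp_ne_zero _

@[fun_prop] lemma continuous_ee : Continuous ee := by unfold ee; fun_prop

lemma norm_ee_sub_one (x : ℝ) : ‖ee x - 1‖ ≤ 7 * |x| := by
  unfold ee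
  have h := Real.norm_exp_I_mul_ofReal_sub_one_le (x := 2 * Real.pi * x)
  rw [mul_comm Complex.I] at h
  refine h.trans ?_
  rw [Real.norm_eq_abs, abs_mul, abs_of_pos (by positivity : (0 : ℝ) < 2 * Real.pi)]
  have := Real.pi_lt_d2
  gcongr; linarith

lemma norm_ee_sub (x y : ℝ) : ‖ee x - ee y‖ ≤ 7 * |x - y| := by
  have : ee x - ee y = ee y * (ee (x - y) - 1) := by
    rw [mul_sub, ← ee_add]; simp
  rw [this, norm_mul, norm_ee, one_mul]; exact norm_ee_sub_one _

lemma ee_nat_mul (n : ℕ) (x : ℝ) : ee (n * x) = ee x ^ n := by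
  induction n with
  | zero => simp
  | succ n ih => rw [pow_succ, ← ih, ← ee_add]; congr 1; push_cast; ring

lemma ee_fract (h : ℤ) (x : ℝ) : ee (h * Int.fract x) = ee (h * x) := by
  have : (h : ℝ) * x = h * Int.fract x + ((h * ⌊x⌋ : ℤ) : ℝ) := by
    push_cast; rw [← mul_add, Int.fract_add_floor]
  rw [this, ee_add, ee_int, mul_one]

lemma ee_ne_one {x : ℝ} (h0 : 0 < x) (h1 : x < 1) : ee x ≠ 1 := by
  intro h
  unfold ee at h
  obtain ⟨k, hk⟩ := Complex.exp_eq_one_iff.1 h
  have h2 : ((2 * Real.pi * x : ℝ) : ℂ) = ((2 * Real.pi * k : ℝ) : ℂ) := by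
    apply mul_right_cancel₀ Complex.I_ne_zero
    rw [hk]; push_cast; ring
  have h3 : x = k := by
    have := Complex.ofReal_injective h2
    have hp : (0 : ℝ) < 2 * Real.pi := by positivity
    exact mul_left_cancel₀ hp.ne' this
  rw [h3] at h0 h1
  have a : (0 : ℤ) < k := by exact_mod_cast h0
  have b : k < (1 : ℤ) := by exact_mod_cast h1
  omega

/-- Weyl sums tend to zero. -/
def WeylZero (x : ℕ → ℝ) : Prop :=
  ∀ h : ℕ, 1 ≤ h → Tendsto (fun N : ℕ => (∑ n ∈ range N, ee (h * x n)) / (N : ℂ)) atTop (𝓝 0)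

lemma weyl_of_UD {x : ℕ → ℝ} (hx : UD x) : WeylZero x := by
  intro h hh
  rw [Metric.tendsto_atTop]
  intro ε hε
  obtain ⟨M, hM⟩ := exists_nat_gt (max (h : ℝ) (14 * h / ε))
  have hM1 : (h : ℝ) < M := lt_of_le_of_lt (le_max_left _ _) hM
  have hM2 : 14 * h / ε < M := lt_of_le_of_lt (le_max_right _ _) hM
  have hh' : (1 : ℝ) ≤ h := by exact_mod_cast hh
  have hMpos : (0 : ℝ) < M := by linarith
  set cnt : ℕ → ℕ → ℕ := fun i N =>
    ((range N).filter fun n => (i : ℝ) / M ≤ Int.fract (x n) ∧ Int.fract (x n) < (i + 1) / M).card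
    with hcnt
  have hlim : Tendsto (fun N : ℕ => ∑ i ∈ range M, (((cnt i N : ℝ) / N : ℝ) : ℂ) * ee (h * (i / M)))
      atTop (𝓝 (∑ i ∈ range M, (((1 / M : ℝ)) : ℂ) * ee (h * (i / M)))) := by
    refine tendsto_finsetSum _ fun i hi => ?_
    refine Tendsto.mul_const _ ?_
    refine (Complex.continuous_ofReal.tendsto _).comp ?_
    have hi' : (i : ℝ) + 1 ≤ M := by exact_mod_cast mem_range.1 hi
    have := hx (i / M) ((i + 1) / M) (by positivity) (by gcongr; linarith)
      (by rw [div_le_one hMpos]; exact hi')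
    have e : ((i : ℝ) + 1) / M - i / M = 1 / M := by ring
    rw [e] at this
    exact this
  have hzero : (∑ i ∈ range M, (((1 / M : ℝ)) : ℂ) * ee (h * (i / M))) = 0 := by
    rw [← mul_sum]
    have : ∀ i ∈ range M, ee (h * ((i : ℕ) / M)) = ee (h / M) ^ i := fun i _ => by
      rw [← ee_nat_mul]; congr 1; ring
    rw [sum_congr rfl this, geom_sum_eq (ee_ne_one (by positivity) (by rwa [div_lt_one hMpos])),
      ← ee_nat_mul]
    have : (M : ℝ) * (h / M) = ((h : ℤ) : ℝ) := by push_cast; field_simp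
    rw [this, ee_int]; simp
  rw [hzero, Metric.tendsto_atTop] at hlim
  obtain ⟨N₀, hN₀⟩ := hlim (ε / 2) (by positivity)
  refine ⟨max N₀ 1, fun N hN => ?_⟩
  have hN1 : (1 : ℝ) ≤ N := by exact_mod_cast le_trans (le_max_right _ _) hN
  have h1 := hN₀ N (le_trans (le_max_left _ _) hN)
  rw [dist_zero_right] at h1 ⊢
  -- rewrite the approximating sum
  set ix : ℕ → ℕ := fun n => ⌊M * Int.fract (x n)⌋₊ with hix
  have hixM : ∀ n, ix n ∈ range M := fun n => by
    rw [mem_range, hix, Nat.floor_lt (mul_nonneg hMpos.le (Int.fract_nonneg _))]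
    have := Int.fract_lt_one (x n)
    nlinarith
  have hfib : ∀ i n, ix n = i ↔
      ((i : ℝ) / M ≤ Int.fract (x n) ∧ Int.fract (x n) < (i + 1) / M) := fun i n => by
    rw [hix, Nat.floor_eq_iff (mul_nonneg hMpos.le (Int.fract_nonneg _)), div_le_iff₀ hMpos,
      lt_div_iff₀ hMpos, mul_comm (Int.fract _)]
  have hsum : ∑ i ∈ range M, (((cnt i N : ℝ) / N : ℝ) : ℂ) * ee (h * (i / M)) =
      (∑ n ∈ range N, ee (h * (ix n / M))) / N := by
    rw [← sum_fiberwise_of_maps_to (s := range N) (t := range M) (g := ix) (fun n _ => hixM n),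
      sum_div]
    refine sum_congr rfl fun i _ => ?_
    have : ∑ n ∈ (range N).filter (fun n => ix n = i), ee (h * (ix n / M)) =
        ∑ n ∈ (range N).filter (fun n => ix n = i), ee (h * (i / M)) :=
      sum_congr rfl fun n hn => by rw [(mem_filter.1 hn).2]
    rw [this, sum_const, nsmul_eq_mul]
    have : ((range N).filter (fun n => ix n = i)).card = cnt i N := by
      rw [hcnt]; congr 1; exact filter_congr fun n _ => hfib i n
    rw [this]; push_cast; ring
  rw [hsum] at h1
  have h2 : ‖(∑ n ∈ range N, ee (h * x n)) / N - (∑ n ∈ range N, ee (h * (ix n / M))) / N‖ ≤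
      ε / 2 := by
    rw [← sub_div, ← sum_sub_distrib, norm_div, Complex.norm_natCast, div_le_iff₀ (by linarith)]
    refine (norm_sum_le _ _).trans ?_
    have : ∀ n ∈ range N, ‖ee (h * x n) - ee (h * (ix n / M))‖ ≤ ε / 2 := fun n _ => by
      have e : ee (h * x n) = ee (h * Int.fract (x n)) := (ee_fract (h : ℤ) (x n)).symm
      rw [e]
      refine (norm_ee_sub _ _).trans ?_
      obtain ⟨a, b⟩ := (hfib (ix n) n).1 rfl
      rw [← mul_sub, abs_mul, abs_of_nonneg (by positivity : (0 : ℝ) ≤ h),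
        abs_of_nonneg (by linarith)]
      have : Int.fract (x n) - ix n / M ≤ 1 / M := by
        have : ((ix n : ℝ) + 1) / M = ix n / M + 1 / M := by ring
        linarith
      rw [div_lt_iff₀ hε] at hM2
      calc 7 * (h * (Int.fract (x n) - ix n / M)) ≤ 7 * (h * (1 / M)) := by gcongr
        _ = 7 * h / M := by ring
        _ ≤ ε / 2 := by rw [div_le_iff₀ hMpos]; linarith
    refine (sum_le_sum this).trans ?_
    simp [mul_comm]
  calc _ = ‖((∑ n ∈ range N, ee (h * x n)) / N - (∑ n ∈ range N, ee (h * (ix n / M))) / N) +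
        (∑ n ∈ range N, ee (h * (ix n / M))) / N‖ := by congr 1; ring
    _ ≤ _ := norm_add_le _ _
    _ < ε := by linarith

lemma integral_ee_mul (y a b : ℝ) (hy : y ≠ 0) :
    ∫ t in a..b, ee (y * t) = (ee (y * b) - ee (y * a)) / (2 * Real.pi * y * Complex.I) := by
  have hc : (2 * Real.pi * y * Complex.I : ℂ) ≠ 0 := by
    have : (y : ℂ) ≠ 0 := by exact_mod_cast hy
    have : (Real.pi : ℂ) ≠ 0 := by exact_mod_cast Real.pi_ne_zero
    simp [*]
  have := integral_exp_mul_complex (a := a) (b := b) hc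
  have e : ∀ t : ℝ, ee (y * t) = Complex.exp (2 * Real.pi * y * Complex.I * t) := fun t => by
    unfold ee; congr 1; push_cast; ring
  simp only [e]
  exact this

lemma avg_cont {x : ℕ → ℝ} (hx : WeylZero x) (f : C(AddCircle (1 : ℝ), ℂ)) :
    Tendsto (fun N : ℕ => (∑ n ∈ range N, f (x n : AddCircle (1 : ℝ))) / (N : ℂ)) atTop
      (𝓝 (∫ t in (0 : ℝ)..1, f (t : AddCircle (1 : ℝ)))) := by
  have : Fact ((0 : ℝ) < 1) := ⟨one_pos⟩
  have hcont : ∀ g : C(AddCircle (1 : ℝ), ℂ), Continuous fun t : ℝ => g (t : AddCircle (1 : ℝ)) :=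
    fun g => g.continuous.comp (AddCircle.continuous_mk' 1)
  have hfour : ∀ (k : ℤ) (t : ℝ), fourier k (t : AddCircle (1 : ℝ)) = ee (k * t) := fun k t => by
    rw [fourier_coe_apply]; unfold ee; congr 1; push_cast; ring
  have hspan : ∀ p ∈ Submodule.span ℂ (Set.range (@fourier 1)),
      Tendsto (fun N : ℕ => (∑ n ∈ range N, p (x n : AddCircle (1 : ℝ))) / (N : ℂ)) atTop
        (𝓝 (∫ t in (0 : ℝ)..1, p (t : AddCircle (1 : ℝ)))) := by
    intro p hp
    induction hp using Submodule.span_induction with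
    | mem p hp =>
      obtain ⟨k, rfl⟩ := hp
      simp only [hfour]
      rcases lt_trichotomy k 0 with hk | rfl | hk
      · rw [integral_ee_mul _ _ _ (by exact_mod_cast hk.ne)]
        simp only [mul_one, mul_zero, ee_int, ee_zero, sub_self, zero_div]
        have h := hx (-k).toNat (by omega)
        have h2 := (Complex.continuous_conj.tendsto 0).comp h
        simp only [map_zero] at h2
        refine h2.congr fun N => ?_
        simp only [Function.comp, map_div₀, map_sum, Complex.conj_natCast]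
        congr 1
        refine sum_congr rfl fun n _ => ?_
        rw [← ee_neg]; congr 1
        have : (((-k).toNat : ℤ) : ℝ) = ((-k : ℤ) : ℝ) := by congr 1; omega
        push_cast at this
        rw [this]; ring
      · simp only [Int.cast_zero, zero_mul, ee_zero, sum_const, card_range, nsmul_eq_mul, mul_one,
          intervalIntegral.integral_const, sub_zero, one_smul]
        refine tendsto_const_nhds.congr' ?_
        filter_upwards [eventually_ge_atTop 1] with N hN
        have : (N : ℂ) ≠ 0 := by exact_mod_cast (by omega : N ≠ 0)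
        rw [div_self this]
      · rw [integral_ee_mul _ _ _ (by exact_mod_cast hk.ne')]
        simp only [mul_one, mul_zero, ee_int, ee_zero, sub_self, zero_div]
        have h := hx k.toNat (by omega)
        have : ((k.toNat : ℤ) : ℝ) = (k : ℝ) := by congr 1; omega
        push_cast at this
        rw [this] at h
        exact h
    | zero => simp
    | add p q _ _ hp hq =>
      simp only [ContinuousMap.add_apply, sum_add_distrib, add_div]
      rw [intervalIntegral.integral_add ((hcont p).intervalIntegrable _ _)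
        ((hcont q).intervalIntegrable _ _)]
      exact hp.add hq
    | smul c p _ hp =>
      simp only [ContinuousMap.smul_apply, smul_eq_mul, ← mul_sum, mul_div_assoc]
      rw [intervalIntegral.integral_const_mul]
      exact hp.const_mul c
  rw [Metric.tendsto_atTop]
  intro ε hε
  have hf : f ∈ closure (Submodule.span ℂ (Set.range (@fourier 1)) : Set C(AddCircle (1 : ℝ), ℂ)) := by
    rw [← Submodule.topologicalClosure_coe, span_fourier_closure_eq_top]; trivial
  obtain ⟨p, hp, hd⟩ := Metric.mem_closure_iff.1 hf (ε / 3) (by positivity)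
  obtain ⟨N₀, hN₀⟩ := Metric.tendsto_atTop.1 (hspan p hp) (ε / 3) (by positivity)
  refine ⟨max N₀ 1, fun N hN => ?_⟩
  have hN1 : (1 : ℝ) ≤ N := by exact_mod_cast le_trans (le_max_right _ _) hN
  have h1 := hN₀ N (le_trans (le_max_left _ _) hN)
  have hpt : ∀ z, ‖f z - p z‖ ≤ dist f p := fun z => by
    rw [← dist_eq_norm]; exact ContinuousMap.dist_apply_le_dist z
  have h2 : dist ((∑ n ∈ range N, f (x n : AddCircle (1 : ℝ))) / (N : ℂ))
      ((∑ n ∈ range N, p (x n : AddCircle (1 : ℝ))) / (N : ℂ)) ≤ dist f p := by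
    rw [dist_eq_norm, ← sub_div, ← sum_sub_distrib, norm_div, Complex.norm_natCast,
      div_le_iff₀ (by linarith)]
    refine (norm_sum_le _ _).trans ((sum_le_sum fun n _ => hpt _).trans ?_)
    simp [mul_comm]
  have h3 : dist (∫ t in (0 : ℝ)..1, p (t : AddCircle (1 : ℝ)))
      (∫ t in (0 : ℝ)..1, f (t : AddCircle (1 : ℝ))) ≤ dist f p := by
    rw [dist_comm, dist_eq_norm, ← intervalIntegral.integral_sub ((hcont f).intervalIntegrable _ _)
      ((hcont p).intervalIntegrable _ _)]
    have := intervalIntegral.norm_integral_le_of_norm_le_const (a := 0) (b := 1)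
      (f := fun t : ℝ => f (t : AddCircle (1 : ℝ)) - p (t : AddCircle (1 : ℝ))) (C := dist f p)
      (fun t _ => hpt _)
    simpa using this
  linarith [dist_triangle4 ((∑ n ∈ range N, f (x n : AddCircle (1 : ℝ))) / (N : ℂ))
    ((∑ n ∈ range N, p (x n : AddCircle (1 : ℝ))) / (N : ℂ))
    (∫ t in (0 : ℝ)..1, p (t : AddCircle (1 : ℝ))) (∫ t in (0 : ℝ)..1, f (t : AddCircle (1 : ℝ)))]

lemma freq_lower {x : ℕ → ℝ} (hx : WeylZero x) {a b ε : ℝ} (ha : 0 ≤ a) (hb : b ≤ 1) (hε : 0 < ε) :
    ∀ᶠ N : ℕ in atTop, b - a - ε ≤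
      (((range N).filter fun n => a ≤ Int.fract (x n) ∧ Int.fract (x n) < b).card : ℝ) / N := by
  have : Fact ((0 : ℝ) < 1) := ⟨one_pos⟩
  rcases le_or_gt (b - a - ε) 0 with h0 | h0
  · exact Eventually.of_forall fun N => h0.trans (by positivity)
  set η := ε / 4 with hη
  have hηpos : 0 < η := by positivity
  set g : ℝ → ℝ := fun t => max 0 (min 1 (min (t - a) (b - t) / η)) with hg
  have hgc : Continuous g := by rw [hg]; fun_prop
  have hg0 : ∀ t, 0 ≤ g t := fun t => le_max_left _ _
  have hg1 : ∀ t, g t ≤ 1 := fun t => max_le zero_le_one (min_le_left _ _)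
  have hgz : ∀ t, ¬ (a < t ∧ t < b) → g t = 0 := fun t ht => by
    apply max_eq_left
    refine (min_le_right _ _).trans (div_nonpos_of_nonpos_of_nonneg ?_ hηpos.le)
    rw [not_and_or, not_lt, not_lt] at ht
    rcases ht with ht | ht
    · exact (min_le_left _ _).trans (by linarith)
    · exact (min_le_right _ _).trans (by linarith)
  have hgo : ∀ t, a + η ≤ t → t ≤ b - η → g t = 1 := fun t h1 h2 => by
    have : 1 ≤ min (t - a) (b - t) / η := by
      rw [le_div_iff₀ hηpos]; exact le_min (by linarith) (by linarith)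
    simp only [hg]
    rw [min_eq_left this]; simp
  have hcont : Continuous (AddCircle.liftIco (1 : ℝ) 0 fun t => (g t : ℂ)) := by
    refine AddCircle.liftIco_zero_continuous ?_ (by fun_prop)
    rw [hgz 0 (fun h => by linarith [h.1]), hgz 1 (fun h => by linarith [h.2])]
  have hlim := avg_cont hx ⟨_, hcont⟩
  simp only [ContinuousMap.coe_mk] at hlim
  have hval : ∀ t : ℝ, AddCircle.liftIco (1 : ℝ) 0 (fun t => (g t : ℂ)) (t : AddCircle (1 : ℝ)) =
      g (Int.fract t) := fun t => by
    have : (t : AddCircle (1 : ℝ)) = ((Int.fract t : ℝ) : AddCircle (1 : ℝ)) := by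
      rw [QuotientAddGroup.eq]
      exact ⟨-⌊t⌋, by
        have := Int.floor_add_fract t
        simp only [zsmul_eq_mul, mul_one]; push_cast; linarith⟩
    rw [this, AddCircle.liftIco_zero_coe_apply ⟨Int.fract_nonneg _, Int.fract_lt_one _⟩]
  simp only [hval] at hlim
  have hint : ∫ t in (0 : ℝ)..1, (g (Int.fract t) : ℂ) = ((∫ t in (0 : ℝ)..1, g t : ℝ) : ℂ) := by
    rw [← intervalIntegral.integral_ofReal]
    refine intervalIntegral.integral_congr_ae ?_
    have : ∀ᵐ t : ℝ, t ≠ 1 := by simp [MeasureTheory.ae_iff]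
    filter_upwards [this] with t ht h
    rw [Set.uIoc_of_le zero_le_one] at h
    rw [Int.fract_eq_self.2 ⟨h.1.le, lt_of_le_of_ne h.2 ht⟩]
  rw [hint] at hlim
  have hre := (Complex.continuous_re.tendsto _).comp hlim
  simp only [Complex.ofReal_re] at hre
  have hlow : b - a - 2 * η ≤ ∫ t in (0 : ℝ)..1, g t := by
    have h1 : ∫ t in (a + η)..(b - η), g t = b - a - 2 * η := by
      rw [intervalIntegral.integral_congr (g := fun _ => (1 : ℝ))]
      · simp; ring
      · intro t ht
        rw [Set.uIcc_of_le (by linarith)] at ht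
        exact hgo t ht.1 ht.2
    rw [← h1]
    exact intervalIntegral.integral_mono_interval (by linarith) (by linarith) (by linarith)
      (Eventually.of_forall hg0) (hgc.intervalIntegrable _ _)
  filter_upwards [hre.eventually (lt_mem_nhds (show b - a - ε < ∫ t in (0 : ℝ)..1, g t by
    linarith))] with N hN
  refine hN.le.trans ?_
  simp only [Function.comp]
  rw [← Complex.ofReal_sum, ← Complex.ofReal_natCast, ← Complex.ofReal_div, Complex.ofReal_re]
  gcongr
  rw [card_filter]
  push_cast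
  refine sum_le_sum fun n _ => ?_
  split_ifs with h
  · exact hg1 _
  · exact (hgz _ fun h' => h ⟨h'.1.le, h'.2⟩).le

lemma UD_of_weyl {x : ℕ → ℝ} (hx : WeylZero x) : UD x := by
  intro a b ha hab hb
  rw [Metric.tendsto_nhds]
  intro ε hε
  filter_upwards [freq_lower hx ha hb (half_pos hε),
    freq_lower hx le_rfl (show a ≤ 1 by linarith) (show 0 < ε / 4 by positivity),
    freq_lower hx (show 0 ≤ b by linarith) le_rfl (show 0 < ε / 4 by positivity),
    eventually_ge_atTop 1] with N h1 h2 h3 hN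
  have hN1 : (0 : ℝ) < N := by exact_mod_cast hN
  have hsum : (((range N).filter fun n => a ≤ Int.fract (x n) ∧ Int.fract (x n) < b).card : ℝ) +
      ((range N).filter fun n => 0 ≤ Int.fract (x n) ∧ Int.fract (x n) < a).card +
      ((range N).filter fun n => b ≤ Int.fract (x n) ∧ Int.fract (x n) < 1).card ≤ N := by
    simp only [card_filter]
    push_cast
    rw [← sum_add_distrib, ← sum_add_distrib]
    refine (sum_le_sum (g := fun _ => (1 : ℝ)) fun n _ => ?_).trans (by simp)
    by_cases h : a ≤ Int.fract (x n) ∧ Int.fract (x n) < b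
    · rw [if_pos h, if_neg (fun h' => by linarith [h.1, h'.2]),
        if_neg (fun h' => by linarith [h.2, h'.1])]; norm_num
    · rw [if_neg h]
      by_cases h' : 0 ≤ Int.fract (x n) ∧ Int.fract (x n) < a
      · rw [if_pos h', if_neg (fun h'' => by linarith [h'.2, h''.1])]; norm_num
      · rw [if_neg h']; split_ifs <;> norm_num
  have hdiv := div_le_div_of_nonneg_right hsum hN1.le
  rw [add_div, add_div, div_self hN1.ne'] at hdiv
  rw [Real.dist_eq, abs_lt]
  constructor <;> linarith

lemma UD_iff_weyl {x : ℕ → ℝ} : UD x ↔ WeylZero x := ⟨weyl_of_UD, UD_of_weyl⟩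

end Pool.Agent.Lib.MP_3974fb_lc
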